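import Mathlib

/-!
# Small inductive dimension of subsets (impredicative form of the frozen statements)

`IndLE k A` is the statement `ind A ≤ k` for a subset `A` of a topological space `T`, written
word for word as in the frozen statements `S12937` and `S12938`.
-/

set_option autoImplicit false

namespace Pool.Agent.MCP

/-- `ind A ≤ k` for a subset `A` of `T` (boundaries are taken relative to `A`). -/
def IndLE {T : Type*} [TopologicalSpace T] (k : ℤ) (A : Set T) : Prop :=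
  ∀ P : ℤ → Set T → Prop,
    (∀ (j : ℤ) (B : Set T),
      ((B = ∅ ∧ -1 ≤ j) ∨
        (0 ≤ j ∧ ∀ x ∈ B, ∀ U : Set T, IsOpen U → x ∈ U →
          ∃ V : Set T, IsOpen V ∧ x ∈ V ∧ V ⊆ U ∧
            P (j - 1) ((closure (V ∩ B) ∩ B) \ V))) → P j B) →
    P k A

section
variable {T : Type*} [TopologicalSpace T]

theorem IndLE.intro {j : ℤ} {B : Set T}
    (h : (B = ∅ ∧ -1 ≤ j) ∨
        (0 ≤ j ∧ ∀ x ∈ B, ∀ U : Set T, IsOpen U → x ∈ U →
          ∃ V : Set T, IsOpen V ∧ x ∈ V ∧ V ⊆ U ∧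
            IndLE (j - 1) ((closure (V ∩ B) ∩ B) \ V))) : IndLE j B := by
  intro P hP
  apply hP
  rcases h with h | ⟨h0, h⟩
  · exact Or.inl h
  · refine Or.inr ⟨h0, fun x hx U hU hxU => ?_⟩
    obtain ⟨V, hV, hxV, hVU, hI⟩ := h x hx U hU hxU
    exact ⟨V, hV, hxV, hVU, hI P hP⟩

theorem IndLE.cases {j : ℤ} {B : Set T} (h : IndLE j B) :
    (B = ∅ ∧ -1 ≤ j) ∨
        (0 ≤ j ∧ ∀ x ∈ B, ∀ U : Set T, IsOpen U → x ∈ U →
          ∃ V : Set T, IsOpen V ∧ x ∈ V ∧ V ⊆ U ∧
            IndLE (j - 1) ((closure (V ∩ B) ∩ B) \ V)) := by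
  refine h (fun j B => (B = ∅ ∧ -1 ≤ j) ∨
        (0 ≤ j ∧ ∀ x ∈ B, ∀ U : Set T, IsOpen U → x ∈ U →
          ∃ V : Set T, IsOpen V ∧ x ∈ V ∧ V ⊆ U ∧
            IndLE (j - 1) ((closure (V ∩ B) ∩ B) \ V))) ?_
  intro j B h
  rcases h with h | ⟨h0, h⟩
  · exact Or.inl h
  · refine Or.inr ⟨h0, fun x hx U hU hxU => ?_⟩
    obtain ⟨V, hV, hxV, hVU, hI⟩ := h x hx U hU hxU
    exact ⟨V, hV, hxV, hVU, IndLE.intro hI⟩

theorem IndLE.mono_right {j j' : ℤ} {B : Set T} (h : IndLE j B) (hj : j ≤ j') : IndLE j' B := by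
  have := h (fun j B => ∀ j', j ≤ j' → IndLE j' B) ?_
  · exact this j' hj
  · intro j B h j' hj
    apply IndLE.intro
    rcases h with h | ⟨h0, h⟩
    · exact Or.inl ⟨h.1, le_trans h.2 hj⟩
    · refine Or.inr ⟨le_trans h0 hj, fun x hx U hU hxU => ?_⟩
      obtain ⟨V, hV, hxV, hVU, hI⟩ := h x hx U hU hxU
      exact ⟨V, hV, hxV, hVU, hI _ (by linarith)⟩

theorem indLE_empty {j : ℤ} (hj : -1 ≤ j) : IndLE j (∅ : Set T) :=
  IndLE.intro (Or.inl ⟨rfl, hj⟩)

theorem IndLE.neg_one_le {j : ℤ} {B : Set T} (h : IndLE j B) : -1 ≤ j := by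
  rcases h.cases with h | h
  · exact h.2
  · linarith [h.1]

/-- Transfer along an embedding: if `A` embeds in `A'` and `ind A' ≤ j` then `ind A ≤ j`. -/
theorem IndLE.of_embedding {T' : Type*} [TopologicalSpace T'] {j : ℤ} {A' : Set T'}
    (h : IndLE j A') {A : Set T} (g : A → T') (hg : Topology.IsEmbedding g)
    (hA : ∀ x, g x ∈ A') : IndLE j A := by
  have key := h (fun j A' => ∀ (A : Set T) (g : A → T'), Topology.IsEmbedding g →
    (∀ x, g x ∈ A') → IndLE j A) ?_
  · exact key A g hg hA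
  · clear h hA hg g A A' j
    intro j B h A g hg hA
    rcases h with h | ⟨h0, h⟩
    · have : A = ∅ := by
        by_contra hne
        obtain ⟨x, hx⟩ := Set.nonempty_iff_ne_empty.mpr hne
        have := hA ⟨x, hx⟩
        rw [h.1] at this
        exact this
      rw [this]
      exact indLE_empty h.2
    · apply IndLE.intro
      refine Or.inr ⟨h0, fun x hx U hU hxU => ?_⟩
      -- open set in `T'` inducing `U`
      have hU1 : IsOpen ((Subtype.val : A → T) ⁻¹' U) := hU.preimage continuous_subtype_val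
      obtain ⟨O, hO, hOU⟩ := hg.isInducing.isOpen_iff.mp hU1
      have hxO : g ⟨x, hx⟩ ∈ O := by
        have : (⟨x, hx⟩ : A) ∈ g ⁻¹' O := by rw [hOU]; exact hxU
        exact this
      obtain ⟨V', hV', hxV', hV'O, hI⟩ := h _ (hA ⟨x, hx⟩) O hO hxO
      have hV1 : IsOpen (g ⁻¹' V') := hV'.preimage hg.continuous
      obtain ⟨V1, hV1o, hV1e⟩ := isOpen_induced_iff.mp hV1
      refine ⟨V1 ∩ U, hV1o.inter hU, ⟨?_, hxU⟩, Set.inter_subset_right, ?_⟩
      · have : (⟨x, hx⟩ : A) ∈ (Subtype.val : A → T) ⁻¹' V1 := by rw [hV1e]; exact hxV'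
        exact this
      · have hsub : ((closure ((V1 ∩ U) ∩ A) ∩ A) \ (V1 ∩ U)) ⊆ A := fun y hy => hy.1.2
        have hmem : ∀ (y : T) (hy : y ∈ A), g ⟨y, hy⟩ ∈ V' → y ∈ V1 ∩ U := by
          intro y hy hyV
          constructor
          · have : (⟨y, hy⟩ : A) ∈ (Subtype.val : A → T) ⁻¹' V1 := by rw [hV1e]; exact hyV
            exact this
          · have : (⟨y, hy⟩ : A) ∈ (Subtype.val : A → T) ⁻¹' U := by rw [← hOU]; exact hV'O hyV
            exact this
        have hmem' : ∀ (y : T) (hy : y ∈ A), y ∈ V1 → g ⟨y, hy⟩ ∈ V' := by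
          intro y hy hyV
          have : (⟨y, hy⟩ : A) ∈ g ⁻¹' V' := by rw [← hV1e]; exact hyV
          exact this
        refine hI _ (fun y => g ⟨y.1, hsub y.2⟩) ?_ ?_
        · have : Topology.IsEmbedding
              (fun y : ((closure ((V1 ∩ U) ∩ A) ∩ A) \ (V1 ∩ U) : Set T) =>
                (⟨y.1, hsub y.2⟩ : A)) := Topology.IsEmbedding.inclusion hsub
          exact hg.comp this
        · rintro ⟨y, hy⟩
          refine ⟨⟨?_, hA _⟩, ?_⟩
          · -- closure
            rw [mem_closure_iff]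
            intro O' hO' hyO'
            have h1 : IsOpen (g ⁻¹' O') := hO'.preimage hg.continuous
            obtain ⟨O1, hO1, hO1e⟩ := isOpen_induced_iff.mp h1
            have hyO1 : y ∈ O1 := by
              have : (⟨y, hsub hy⟩ : A) ∈ (Subtype.val : A → T) ⁻¹' O1 := by
                rw [hO1e]; exact hyO'
              exact this
            obtain ⟨z, hz1, hz2⟩ := mem_closure_iff.mp hy.1.1 O1 hO1 hyO1
            have hzA : z ∈ A := hz2.2
            have hzO : g ⟨z, hzA⟩ ∈ O' := by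
              have : (⟨z, hzA⟩ : A) ∈ g ⁻¹' O' := by rw [← hO1e]; exact hz1
              exact this
            exact ⟨g ⟨z, hzA⟩, hzO, hmem' z hzA hz2.1.1, hA _⟩
          · intro hyV
            exact hy.2 (hmem y (hsub hy) hyV)

theorem IndLE.subset {j : ℤ} {A B : Set T} (h : IndLE j B) (hAB : A ⊆ B) : IndLE j A :=
  h.of_embedding (fun x : A => x.1) Topology.IsEmbedding.subtypeVal (fun x => hAB x.2)

end

end Pool.Agent.MCP
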