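import Mathlib
import Pool.Agent.MCP.Ind

/-!
# Covering dimension of compact sets: closed sums, and comparison with the inductive dimension
-/

set_option autoImplicit false

open Set Filter Topology

namespace Pool.Agent.MCP

/-- `dim C ≤ m - 1`: every finite open cover of `C` has an open shrinking of order at most `m` at
the points of `C`. -/
def CovLE {T : Type*} [TopologicalSpace T] (m : ℕ) (C : Set T) : Prop :=
  ∀ (ι : Type) [Fintype ι] (U : ι → Set T), (∀ i, IsOpen (U i)) → C ⊆ ⋃ i, U i →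
    ∃ V : ι → Set T, (∀ i, IsOpen (V i)) ∧ (∀ i, V i ⊆ U i) ∧ C ⊆ ⋃ i, V i ∧
      ∀ x ∈ C, ∀ s : Finset ι, (∀ i ∈ s, x ∈ V i) → s.card ≤ m

section
variable {T : Type*} [TopologicalSpace T]

theorem CovLE.empty (m : ℕ) : CovLE m (∅ : Set T) := by
  intro ι _ U hU _
  exact ⟨U, hU, fun _ => Subset.rfl, empty_subset _, fun x hx => absurd hx (notMem_empty x)⟩

theorem CovLE.union {m : ℕ} {A B : Set T} (hA : CovLE m A) (hB : CovLE m B) (hAc : IsClosed A)
    (hBc : IsClosed B) : CovLE m (A ∪ B) := by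
  intro ι _ U hU hcov
  obtain ⟨V, hV, hVU, hVc, hVo⟩ := hA ι U hU (subset_union_left.trans hcov)
  have hU1 : ∀ i, IsOpen ((U i \ A) ∪ V i) := fun i => ((hU i).sdiff hAc).union (hV i)
  have hcov1 : A ∪ B ⊆ ⋃ i, ((U i \ A) ∪ V i) := by
    intro x hx
    by_cases hxA : x ∈ A
    · obtain ⟨i, hi⟩ := mem_iUnion.mp (hVc hxA)
      exact mem_iUnion.mpr ⟨i, Or.inr hi⟩
    · obtain ⟨i, hi⟩ := mem_iUnion.mp (hcov hx)
      exact mem_iUnion.mpr ⟨i, Or.inl ⟨hi, hxA⟩⟩
  obtain ⟨W, hW, hWU, hWc, hWo⟩ := hB ι _ hU1 (subset_union_right.trans hcov1)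
  refine ⟨fun i => (((U i \ A) ∪ V i) \ B) ∪ W i, fun i => ((hU1 i).sdiff hBc).union (hW i),
    fun i => ?_, ?_, ?_⟩
  · rintro x (hx | hx)
    · rcases hx.1 with h | h
      · exact h.1
      · exact hVU i h
    · rcases hWU i hx with h | h
      · exact h.1
      · exact hVU i h
  · intro x hx
    by_cases hxB : x ∈ B
    · obtain ⟨i, hi⟩ := mem_iUnion.mp (hWc hxB)
      exact mem_iUnion.mpr ⟨i, Or.inr hi⟩
    · obtain ⟨i, hi⟩ := mem_iUnion.mp (hcov1 hx)
      exact mem_iUnion.mpr ⟨i, Or.inl ⟨hi, hxB⟩⟩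
  · intro x hx s hs
    by_cases hxB : x ∈ B
    · refine hWo x hxB s fun i hi => ?_
      rcases hs i hi with h | h
      · exact absurd hxB h.2
      · exact h
    · have hxA : x ∈ A := hx.resolve_right hxB
      refine hVo x hxA s fun i hi => ?_
      rcases hs i hi with h | h
      · rcases h.1 with h1 | h1
        · exact absurd hxA h1.2
        · exact h1
      · rcases hWU i h with h1 | h1
        · exact absurd hxA h1.2
        · exact h1

theorem CovLE.closed_subset {m : ℕ} {A B : Set T} (hA : CovLE m A) (hBA : B ⊆ A)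
    (hB : IsClosed B) : CovLE m B := by
  intro ι _ U hU hcov
  obtain ⟨V, hV, hVU, hVc, hVo⟩ := hA (Option ι) (fun o => o.elim Bᶜ U)
    (by rintro (_ | i); exacts [hB.isOpen_compl, hU i]) (by
      intro x _
      by_cases hxB : x ∈ B
      · obtain ⟨i, hi⟩ := mem_iUnion.mp (hcov hxB)
        exact mem_iUnion.mpr ⟨some i, hi⟩
      · exact mem_iUnion.mpr ⟨none, hxB⟩)
  refine ⟨fun i => V (some i), fun i => hV _, fun i => hVU (some i), ?_, ?_⟩
  · intro x hx
    obtain ⟨o, ho⟩ := mem_iUnion.mp (hVc (hBA hx))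
    rcases o with _ | i
    · exact absurd hx (hVU none ho)
    · exact mem_iUnion.mpr ⟨i, ho⟩
  · intro x hx s hs
    have := hVo x (hBA hx) (s.map Function.Embedding.some) (by
      intro o ho
      obtain ⟨i, hi, rfl⟩ := Finset.mem_map.mp ho
      exact hs i hi)
    rwa [Finset.card_map] at this

theorem CovLE.image_homeomorph {T' : Type*} [TopologicalSpace T'] {m : ℕ} {A : Set T}
    (hA : CovLE m A) (h : T ≃ₜ T') : CovLE m (h '' A) := by
  intro ι _ U hU hcov
  obtain ⟨V, hV, hVU, hVc, hVo⟩ := hA ι (fun i => h ⁻¹' (U i))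
    (fun i => (hU i).preimage h.continuous) (by
      intro x hx
      obtain ⟨i, hi⟩ := mem_iUnion.mp (hcov (mem_image_of_mem h hx))
      exact mem_iUnion.mpr ⟨i, hi⟩)
  refine ⟨fun i => h '' V i, fun i => h.isOpenMap _ (hV i), fun i => ?_, ?_, ?_⟩
  · rintro _ ⟨x, hx, rfl⟩
    exact hVU i hx
  · rintro _ ⟨x, hx, rfl⟩
    obtain ⟨i, hi⟩ := mem_iUnion.mp (hVc hx)
    exact mem_iUnion.mpr ⟨i, mem_image_of_mem h hi⟩
  · rintro _ ⟨x, hx, rfl⟩ s hs
    refine hVo x hx s fun i hi => ?_
    obtain ⟨y, hy, hyx⟩ := hs i hi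
    rwa [h.injective hyx] at hy

theorem CovLE.biUnion {m : ℕ} {κ : Type*} (s : Finset κ) {A : κ → Set T}
    (hA : ∀ i ∈ s, CovLE m (A i)) (hc : ∀ i ∈ s, IsClosed (A i)) : CovLE m (⋃ i ∈ s, A i) := by
  classical
  induction s using Finset.induction_on with
  | empty => simpa using CovLE.empty m
  | insert a s ha ih =>
    rw [Finset.set_biUnion_insert]
    refine CovLE.union (hA a (Finset.mem_insert_self a s))
      (ih (fun i hi => hA i (Finset.mem_insert_of_mem hi))
        (fun i hi => hc i (Finset.mem_insert_of_mem hi)))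
      (hc a (Finset.mem_insert_self a s)) ?_
    exact s.finite_toSet.isClosed_biUnion fun i hi => hc i (Finset.mem_insert_of_mem hi)

end

section
variable {T : Type*} [MetricSpace T]

/-- Extension of open sets from a compact set preserving the intersection pattern. -/
theorem exists_ext {ι : Type*} {B : Set T} (hB : IsCompact B) {O : ι → Set T}
    (hO : ∀ i, IsOpen (O i)) :
    ∃ V : ι → Set T, (∀ i, IsOpen (V i)) ∧ (∀ i, V i ⊆ O i) ∧ (∀ i, B ∩ O i ⊆ V i) ∧
      ∀ x, (∃ i, x ∈ V i) → ∃ b ∈ B, ∀ i, x ∈ V i → b ∈ O i := by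
  refine ⟨fun i => {x | x ∈ O i ∧ Metric.infEDist x B < Metric.infEDist x (B \ O i)},
    fun i => ?_, fun i x hx => hx.1, ?_, ?_⟩
  · exact (hO i).inter (isOpen_lt Metric.continuous_infEDist Metric.continuous_infEDist)
  · rintro i x ⟨hxB, hxO⟩
    refine ⟨hxO, ?_⟩
    rw [Metric.infEDist_zero_of_mem hxB]
    rw [Metric.infEDist_pos_iff_notMem_closure]
    have hcl : IsClosed (B \ O i) := hB.isClosed.sdiff (hO i)
    rw [hcl.closure_eq]
    exact fun h => h.2 hxO
  · rintro x ⟨i, hi⟩
    have hne : B.Nonempty := by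
      rcases B.eq_empty_or_nonempty with h | h
      · exfalso
        have h1 := hi.2
        rw [h, Metric.infEDist_empty] at h1
        exact absurd h1 (not_top_lt)
      · exact h
    obtain ⟨b, hb, hbx⟩ := hB.exists_infEDist_eq_edist hne x
    refine ⟨b, hb, fun j hj => ?_⟩
    by_contra hcon
    have h1 := hj.2
    rw [hbx] at h1
    exact absurd (Metric.infEDist_le_edist_of_mem (x := x) (⟨hb, hcon⟩ : b ∈ B \ O j))
      (not_le.mpr h1)

/-- `ind C ≤ m - 1` implies `dim C ≤ m - 1` for compact sets. -/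
theorem CovLE.of_indLE (m : ℕ) : ∀ {C : Set T}, IsCompact C → IndLE ((m : ℤ) - 1) C →
    CovLE m C := by
  classical
  induction m with
  | zero =>
    intro C _ h
    have : C = ∅ := by
      rcases h.cases with h | h
      · exact h.1
      · have := h.1; norm_num at this
    rw [this]
    exact CovLE.empty 0
  | succ m ih =>
    intro C hC hI ι _ U hU hcov
    have hcase : ∀ x ∈ C, ∀ O : Set T, IsOpen O → x ∈ O →
        ∃ V : Set T, IsOpen V ∧ x ∈ V ∧ V ⊆ O ∧
          IndLE ((m : ℤ) - 1) ((closure (V ∩ C) ∩ C) \ V) := by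
      rcases hI.cases with h | h
      · intro x hx
        rw [h.1] at hx
        exact absurd hx (notMem_empty x)
      · intro x hx O hO hxO
        obtain ⟨V, hV, hxV, hVO, hIV⟩ := h.2 x hx O hO hxO
        have he : (((m + 1 : ℕ) : ℤ) - 1 - 1) = (m : ℤ) - 1 := by push_cast; ring
        rw [he] at hIV
        exact ⟨V, hV, hxV, hVO, hIV⟩
    -- choose neighbourhoods
    have hch : ∀ x : C, ∃ (i : ι) (V : Set T), IsOpen V ∧ (x : T) ∈ V ∧ V ⊆ U i ∧
        IndLE ((m : ℤ) - 1) ((closure (V ∩ C) ∩ C) \ V) := by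
      intro x
      obtain ⟨i, hi⟩ := mem_iUnion.mp (hcov x.2)
      obtain ⟨V, hV⟩ := hcase x x.2 (U i) (hU i) hi
      exact ⟨i, V, hV⟩
    choose idx V hVo hxV hVU hVI using hch
    obtain ⟨t, ht⟩ := hC.elim_finite_subcover V hVo (fun x hx => mem_iUnion.mpr ⟨⟨x, hx⟩, hxV _⟩)
    -- enumerate `t`
    obtain ⟨N, e⟩ : ∃ N : ℕ, Nonempty (Fin N ≃ t) := ⟨t.card, ⟨t.equivFin.symm⟩⟩
    obtain ⟨e⟩ := e
    set B : t → Set T := fun x => (closure (V x ∩ C) ∩ C) \ V x with hBdef
    have hBcomp : ∀ x, IsCompact (B x) := fun x =>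
      (hC.inter_left isClosed_closure).diff (hVo x)
    have hBcov : CovLE m (⋃ x ∈ (Finset.univ : Finset t), B x) :=
      CovLE.biUnion _ (fun x _ => ih (hBcomp x) (hVI x)) (fun x _ => (hBcomp x).isClosed)
    set BB : Set T := ⋃ x ∈ (Finset.univ : Finset t), B x with hBB
    have hBBcomp : IsCompact BB := Finset.univ.isCompact_biUnion fun x _ => hBcomp x
    have hBBC : BB ⊆ C := by
      intro x hx
      simp only [hBB, mem_iUnion] at hx
      obtain ⟨y, _, hy⟩ := hx
      exact hy.1.2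
    obtain ⟨O, hOo, hOU, hOc, hOord⟩ := hBcov ι U hU (hBBC.trans hcov)
    obtain ⟨O', hO'o, hO'O, hO'B, hO'ord⟩ := exists_ext hBBcomp hOo
    -- disjoint pieces
    set W : Fin N → Set T := fun j => V (e j) \ ⋃ l ∈ Finset.univ.filter (· < j),
      closure (V (e l) ∩ C) with hW
    have hWo : ∀ j, IsOpen (W j) := fun j =>
      (hVo _).sdiff ((Finset.univ.filter (· < j)).finite_toSet.isClosed_biUnion
        fun _ _ => isClosed_closure)
    have hWdisj : ∀ x ∈ C, ∀ j l, x ∈ W j → x ∈ W l → j = l := by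
      have aux : ∀ x ∈ C, ∀ j l, l < j → x ∈ W j → x ∈ W l → False := by
        intro x hx j l hlj hj hl
        apply hj.2
        simp only [mem_iUnion]
        exact ⟨l, by simpa using hlj, subset_closure ⟨hl.1, hx⟩⟩
      intro x hx j l hj hl
      rcases lt_trichotomy j l with h | h | h
      · exact absurd (aux x hx l j h hl hj) id
      · exact h
      · exact absurd (aux x hx j l h hj hl) id
    have hWcov : ∀ x ∈ C, x ∉ BB → ∃ j, x ∈ W j := by
      intro x hx hxB
      have hex : ∃ j : Fin N, x ∈ V (e j) := by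
        have := ht hx
        simp only [mem_iUnion] at this
        obtain ⟨y, hy, hxy⟩ := this
        exact ⟨e.symm ⟨y, hy⟩, by rw [Equiv.apply_symm_apply]; exact hxy⟩
      obtain ⟨j, hj, hmin⟩ := WellFounded.has_min (wellFounded_lt (α := Fin N))
        {j : Fin N | x ∈ V (e j)} hex
      refine ⟨j, hj, ?_⟩
      simp only [mem_iUnion, not_exists]
      intro l hl hcon
      have hlj : l < j := by simpa using hl
      have hlV : x ∉ V (e l) := fun h => hmin l h hlj
      apply hxB
      simp only [hBB, mem_iUnion]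
      exact ⟨e l, Finset.mem_univ _, ⟨⟨hcon, hx⟩, hlV⟩⟩
    refine ⟨fun i => O' i ∪ ⋃ j ∈ Finset.univ.filter (fun j : Fin N => idx (e j) = i), W j,
      fun i => (hO'o i).union (isOpen_biUnion fun j _ => hWo j), fun i => ?_, ?_, ?_⟩
    · rintro x (hx | hx)
      · exact hOU i (hO'O i hx)
      · simp only [mem_iUnion] at hx
        obtain ⟨j, hj, hxj⟩ := hx
        have hj' : idx (e j) = i := by simpa using hj
        rw [← hj']
        exact hVU _ hxj.1
    · intro x hx
      by_cases hxB : x ∈ BB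
      · obtain ⟨i, hi⟩ := mem_iUnion.mp (hOc hxB)
        exact mem_iUnion.mpr ⟨i, Or.inl (hO'B i ⟨hxB, hi⟩)⟩
      · obtain ⟨j, hj⟩ := hWcov x hx hxB
        refine mem_iUnion.mpr ⟨idx (e j), Or.inr ?_⟩
        simp only [mem_iUnion]
        exact ⟨j, by simp, hj⟩
    · intro x hx s hs
      have h1 : (s.filter fun i => x ∈ O' i).card ≤ m := by
        by_cases hne : ∃ i, x ∈ O' i
        · obtain ⟨b, hb, hbO⟩ := hO'ord x hne
          exact hOord b hb _ fun i hi => hbO i (Finset.mem_filter.mp hi).2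
        · have : (s.filter fun i => x ∈ O' i) = ∅ := by
            apply Finset.filter_false_of_mem
            intro i _ hi
            exact hne ⟨i, hi⟩
          rw [this]; simp
      have h2 : (s.filter fun i => ¬ x ∈ O' i).card ≤ 1 := by
        rw [Finset.card_le_one]
        intro a ha b hb
        have aux : ∀ i ∈ (s.filter fun i => ¬ x ∈ O' i), ∃ j, idx (e j) = i ∧ x ∈ W j := by
          intro i hi
          rw [Finset.mem_filter] at hi
          rcases hs i hi.1 with h | h
          · exact absurd h hi.2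
          · simp only [mem_iUnion] at h
            obtain ⟨j, hj, hxj⟩ := h
            exact ⟨j, by simpa using hj, hxj⟩
        obtain ⟨j, hj, hxj⟩ := aux a ha
        obtain ⟨l, hl, hxl⟩ := aux b hb
        rw [← hj, ← hl, hWdisj x hx j l hxj hxl]
      have h3 := Finset.card_filter_add_card_filter_not (s := s) (fun i => x ∈ O' i)
      omega

end

end Pool.Agent.MCP
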