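import Mathlib
import Pool.Agent.MCP.Cov
import Pool.Agent.BRW.BFIX

/-!
# The boundary of a bounded open subset of `ℝ^n` has covering dimension at least `n - 1`
-/

set_option autoImplicit false

open Set Filter Topology

namespace Pool.Agent.MCP

variable {n : ℕ}

/-- Brouwer's theorem: a continuous vector field pointing outward on a large sphere has a zero. -/
theorem exists_zero_of_outward {F : EuclideanSpace ℝ (Fin n) → EuclideanSpace ℝ (Fin n)}
    (hF : Continuous F) {q : EuclideanSpace ℝ (Fin n)} {R : ℝ} (hR : 0 < R)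
    (hout : ∀ x, dist x q = R → ∃ c : ℝ, 0 < c ∧ F x = c • (x - q)) : ∃ x, F x = 0 := by
  by_contra hne
  push Not at hne
  obtain ⟨y, hy, hfy⟩ := BRW.brouwer (f := fun y => -((R / ‖F (y + q)‖) • F (y + q))) hR.le
    (by
      refine Continuous.continuousOn ?_
      have h1 : Continuous fun y => F (y + q) := hF.comp (continuous_id.add continuous_const)
      refine (Continuous.smul (Continuous.div continuous_const h1.norm fun y => ?_) h1).neg
      exact norm_ne_zero_iff.mpr (hne _))
    (by
      intro y _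
      rw [mem_closedBall_zero_iff, norm_neg, norm_smul, norm_div, norm_norm, Real.norm_eq_abs,
        abs_of_pos hR, div_mul_cancel₀ _ (norm_ne_zero_iff.mpr (hne _))])
  have hnorm : ‖y‖ = R := by
    rw [← hfy, norm_neg, norm_smul, norm_div, norm_norm, Real.norm_eq_abs,
        abs_of_pos hR, div_mul_cancel₀ _ (norm_ne_zero_iff.mpr (hne _))]
  obtain ⟨c, hc, hcF⟩ := hout (y + q) (by rw [dist_eq_norm, add_sub_cancel_right, hnorm])
  rw [add_sub_cancel_right] at hcF
  have hpos : 0 < R / ‖F (y + q)‖ * c :=
    mul_pos (div_pos hR (norm_pos_iff.mpr (hne _))) hc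
  have h1 : -((R / ‖F (y + q)‖ * c) • y) = y := by
    rw [mul_smul, ← hcF]; exact hfy
  have h2 : (1 + R / ‖F (y + q)‖ * c) • y = 0 := by
    rw [add_smul, one_smul]
    nth_rewrite 1 [← h1]
    abel
  rcases smul_eq_zero.mp h2 with h | h
  · linarith
  · rw [h, norm_zero] at hnorm
    linarith

/-- The boundary of a bounded nonempty open set is not of covering dimension `≤ n - 2`. -/
theorem not_covLE_frontier {m : ℕ} (hm : m < n) {V : Set (EuclideanSpace ℝ (Fin n))}
    (hV : IsOpen V) (hne : V.Nonempty) (hb : Bornology.IsBounded V)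
    (hcov : CovLE m (frontier V)) : False := by
  classical
  have hnpos : 0 < n := by omega
  have : Nonempty (Fin n) := ⟨⟨0, hnpos⟩⟩
  have : Nontrivial (EuclideanSpace ℝ (Fin n)) := by infer_instance
  obtain ⟨q, hq⟩ := hne
  obtain ⟨r, hr, hrV⟩ := Metric.isOpen_iff.mp hV q hq
  set ε : ℝ := r / 2 with hε
  have hε0 : 0 < ε := by positivity
  have hcomp : IsCompact (frontier V) := by
    have hcl : IsCompact (closure V) := hb.isCompact_closure
    exact hcl.of_isClosed_subset isClosed_frontier frontier_subset_closure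
  obtain ⟨t, htC, hfin, htcov⟩ := hcomp.finite_cover_balls hε0
  have : Fintype t := hfin.fintype
  -- reindex by a type in `Type`
  obtain ⟨N, c, hcmem, hccov⟩ : ∃ (N : ℕ) (c : Fin N → EuclideanSpace ℝ (Fin n)),
      (∀ i, c i ∈ frontier V) ∧ frontier V ⊆ ⋃ i, Metric.ball (c i) ε := by
    refine ⟨Fintype.card t, fun i => ((Fintype.equivFin t).symm i : t), fun i => htC (Subtype.mem _), ?_⟩
    intro x hx
    have := htcov hx
    simp only [mem_iUnion] at this
    obtain ⟨y, hy, hxy⟩ := this
    exact mem_iUnion.mpr ⟨Fintype.equivFin t ⟨y, hy⟩, by simpa using hxy⟩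
  obtain ⟨W, hWo, hWb, hWc, hWord⟩ := hcov (Fin N) (fun i => Metric.ball (c i) ε)
    (fun i => Metric.isOpen_ball) hccov
  -- the weights
  set w : Fin N → EuclideanSpace ℝ (Fin n) → ℝ := fun i x => Metric.infDist x (W i)ᶜ with hw
  have hwc : ∀ i, Continuous (w i) := fun i => Metric.continuous_infDist_pt _
  have hw0 : ∀ i x, 0 ≤ w i x := fun i x => Metric.infDist_nonneg
  have hwout : ∀ i x, x ∉ W i → w i x = 0 := fun i x hx => Metric.infDist_zero_of_mem hx
  have hWne : ∀ i, ((W i)ᶜ).Nonempty := by
    intro i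
    by_contra h
    rw [not_nonempty_iff_eq_empty, compl_empty_iff] at h
    have h1 := hWb i
    rw [h] at h1
    exact NormedSpace.unbounded_univ ℝ (EuclideanSpace ℝ (Fin n))
      (Metric.isBounded_ball.subset h1)
  have hwin : ∀ i x, x ∈ W i → 0 < w i x := by
    intro i x hx
    have hcl : IsClosed (W i)ᶜ := (hWo i).isClosed_compl
    exact (hcl.notMem_iff_infDist_pos (hWne i)).mp (fun h => h hx)
  set g : EuclideanSpace ℝ (Fin n) → EuclideanSpace ℝ (Fin n) := fun x =>
    ∑ i, w i x • (c i - q) with hg
  have hgc : Continuous g := continuous_finsetSum _ fun i _ => (hwc i).smul continuous_const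
  -- a direction missed by `g` on the boundary
  obtain ⟨v, hv⟩ : ∃ v : EuclideanSpace ℝ (Fin n), ∀ s : Finset (Fin N), s.card ≤ m →
      v ∉ Submodule.span ℝ ((fun i => c i - q) '' (s : Set (Fin N))) := by
    have h1 := Subspace.biUnion_ne_univ_of_top_notMem (k := ℝ) (E := EuclideanSpace ℝ (Fin n))
      (s := ((Finset.univ : Finset (Finset (Fin N))).filter (fun s => s.card ≤ m)).image
        (fun s : Finset (Fin N) => Submodule.span ℝ ((fun i => c i - q) '' (s : Set (Fin N))))) (by
        intro htop
        obtain ⟨s, hs, hst⟩ := Finset.mem_image.mp htop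
        have hsm := (Finset.mem_filter.mp hs).2
        have h2 : Module.finrank ℝ (Submodule.span ℝ ((fun i => c i - q) '' (s : Set (Fin N)))) ≤
            s.card := by
          rw [← Finset.coe_image]
          exact (finrank_span_finset_le_card _).trans Finset.card_image_le
        rw [hst, finrank_top, finrank_euclideanSpace_fin] at h2
        omega)
    obtain ⟨v, hv⟩ := (ne_univ_iff_exists_notMem _).mp h1
    refine ⟨v, fun s hs hvs => hv ?_⟩
    simp only [mem_iUnion]
    exact ⟨_, Finset.mem_image.mpr ⟨s, Finset.mem_filter.mpr ⟨Finset.mem_univ _, hs⟩, rfl⟩, hvs⟩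
  have hv0 : v ≠ 0 := fun h => hv ∅ (by simp) (by rw [h]; exact Submodule.zero_mem _)
  have hgspan : ∀ x ∈ frontier V, ∀ a : ℝ, a • v = g x → a = 0 := by
    intro x hx a ha
    by_contra ha0
    set s : Finset (Fin N) := Finset.univ.filter (fun i => x ∈ W i) with hs
    have hcard : s.card ≤ m := hWord x hx s fun i hi => (Finset.mem_filter.mp hi).2
    apply hv s hcard
    have h1 : g x ∈ Submodule.span ℝ ((fun i => c i - q) '' (s : Set (Fin N))) := by
      apply Submodule.sum_mem
      intro i _
      by_cases hi : x ∈ W i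
      · apply Submodule.smul_mem
        apply Submodule.subset_span
        exact ⟨i, by simp [hs, hi], rfl⟩
      · rw [hwout i x hi, zero_smul]
        exact Submodule.zero_mem _
    rw [← ha] at h1
    have h2 := Submodule.smul_mem _ a⁻¹ h1
    rwa [smul_smul, inv_mul_cancel₀ ha0, one_smul] at h2
  -- `g` is close to a multiple of the radial field
  have hinner : ∀ x, x ∉ V → 0 ≤ inner ℝ (g x) (x - q) ∧
      ((∃ i, x ∈ W i) → 0 < inner ℝ (g x) (x - q)) := by
    intro x hx
    have hxr : r ≤ ‖x - q‖ := by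
      by_contra hcon
      push Not at hcon
      apply hx
      apply hrV
      rw [Metric.mem_ball, dist_eq_norm]
      exact hcon
    have hterm : ∀ i, 0 ≤ inner ℝ (w i x • (c i - q)) (x - q) ∧
        (x ∈ W i → 0 < inner ℝ (w i x • (c i - q)) (x - q)) := by
      intro i
      rw [real_inner_smul_left]
      by_cases hi : x ∈ W i
      · have hd : ‖c i - x‖ < ε := by
          have := hWb i hi
          rw [Metric.mem_ball, dist_comm, dist_eq_norm] at this
          exact this
        have h1 : inner ℝ (c i - q) (x - q) = inner ℝ (c i - x) (x - q) + ‖x - q‖ ^ 2 := by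
          rw [← real_inner_self_eq_norm_sq, ← inner_add_left]
          congr 1; abel
        have h2 := abs_real_inner_le_norm (c i - x) (x - q)
        have h3 := (abs_le.mp h2).1
        have h4 : ‖c i - x‖ * ‖x - q‖ ≤ ε * ‖x - q‖ := by gcongr
        have h5 : 0 < inner ℝ (c i - q) (x - q) := by
          rw [h1]
          have : 0 < ‖x - q‖ := lt_of_lt_of_le hr hxr
          have h6 : ε < ‖x - q‖ := by rw [hε]; linarith
          nlinarith
        exact ⟨mul_nonneg (hw0 i x) h5.le, fun _ => mul_pos (hwin i x hi) h5⟩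
      · rw [hwout i x hi, zero_mul]
        exact ⟨le_rfl, fun h => absurd h hi⟩
    rw [hg]
    simp only [sum_inner]
    refine ⟨Finset.sum_nonneg fun i _ => (hterm i).1, ?_⟩
    rintro ⟨i, hi⟩
    exact Finset.sum_pos' (fun j _ => (hterm j).1) ⟨i, Finset.mem_univ _, (hterm i).2 hi⟩
  -- bounds
  have hclV : IsCompact (closure V) := hb.isCompact_closure
  obtain ⟨M, hM⟩ := (hclV.image hgc).isBounded.exists_norm_le
  have hM' : ∀ x ∈ closure V, ‖g x‖ ≤ M := fun x hx => hM _ (mem_image_of_mem g hx)
  set d : EuclideanSpace ℝ (Fin n) → ℝ := fun x => Metric.infDist x (frontier V) with hd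
  have hdc : Continuous d := Metric.continuous_infDist_pt _
  have hfne : (frontier V).Nonempty := by
    rw [nonempty_frontier_iff]
    refine ⟨⟨q, hq⟩, ?_⟩
    intro h
    rw [h] at hb
    exact NormedSpace.unbounded_univ ℝ (EuclideanSpace ℝ (Fin n)) hb
  have hd0 : ∀ x, d x = 0 ↔ x ∈ frontier V := fun x =>
    (isClosed_frontier.mem_iff_infDist_zero hfne).symm
  have hdnn : ∀ x, 0 ≤ d x := fun x => Metric.infDist_nonneg
  set T : ℝ := |M| / ‖v‖ with hT
  have hT0 : 0 ≤ T := by positivity
  -- the bad compact set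
  set K : Set (EuclideanSpace ℝ (Fin n)) :=
    closure V ∩ g ⁻¹' ((fun a : ℝ => a • v) '' Icc (-T) T) with hK
  have hKc : IsCompact K := by
    apply hclV.inter_right
    apply IsClosed.preimage hgc
    have h1 : Continuous fun a : ℝ => a • v := continuous_id.smul continuous_const
    exact (isCompact_Icc.image h1).isClosed
  have hKd : ∀ x ∈ K, 0 < d x := by
    rintro x ⟨hx, a, _, hax⟩
    refine lt_of_le_of_ne (hdnn x) fun h => ?_
    have hxf : x ∈ frontier V := (hd0 x).mp h.symm
    have ha0 := hgspan x hxf a hax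
    have hxV : x ∉ V := fun h => by
      rw [hV.frontier_eq] at hxf
      exact hxf.2 h
    have h2 := (hinner x hxV).2 (mem_iUnion.mp (hWc hxf))
    have h3 : g x = 0 := by
      rw [← hax]
      simp only [ha0, zero_smul]
    rw [h3, inner_zero_left] at h2
    exact lt_irrefl _ h2
  obtain ⟨c0, hc0, hc0K⟩ : ∃ c0 : ℝ, 0 < c0 ∧ ∀ x ∈ K, c0 ≤ d x := by
    rcases K.eq_empty_or_nonempty with h | h
    · exact ⟨1, one_pos, fun x hx => by rw [h] at hx; exact absurd hx (notMem_empty x)⟩
    · obtain ⟨x0, hx0, hmin⟩ := hKc.exists_isMinOn h hdc.continuousOn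
      exact ⟨d x0, hKd x0 hx0, fun x hx => hmin hx⟩
  set S : ℝ := (T + 1) / c0 with hS
  set F : EuclideanSpace ℝ (Fin n) → EuclideanSpace ℝ (Fin n) := fun x =>
    if x ∈ V then g x + (S * d x) • v else g x + d x • (x - q) with hF
  have hFc : Continuous F := by
    apply Continuous.if
    · intro a ha
      have h1 : d a = 0 := (hd0 a).mpr ha
      rw [h1]; simp
    · exact hgc.add ((continuous_const.mul hdc).smul continuous_const)
    · exact hgc.add (hdc.smul (continuous_id.sub continuous_const))
  obtain ⟨R, hR, hRsub⟩ : ∃ R : ℝ, 0 < R ∧ closure V ∪ ⋃ i, W i ⊆ Metric.ball q R := by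
    have hbd : Bornology.IsBounded (closure V ∪ ⋃ i, W i) := by
      apply (hb.closure).union
      rw [Bornology.isBounded_iUnion]
      exact fun i => Metric.isBounded_ball.subset (hWb i)
    obtain ⟨R, hR⟩ := hbd.subset_ball q
    refine ⟨max R 1, by positivity, hR.trans (Metric.ball_subset_ball (le_max_left _ _))⟩
  obtain ⟨x, hx⟩ := exists_zero_of_outward hFc (q := q) hR (by
    intro x hx
    have hxn : x ∉ closure V ∪ ⋃ i, W i := fun h => by
      have := hRsub h
      rw [Metric.mem_ball, hx] at this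
      exact lt_irrefl _ this
    have hxV : x ∉ V := fun h => hxn (Or.inl (subset_closure h))
    have hxW : ∀ i, x ∉ W i := fun i h => hxn (Or.inr (mem_iUnion.mpr ⟨i, h⟩))
    refine ⟨d x, ?_, ?_⟩
    · refine lt_of_le_of_ne (hdnn x) fun h => ?_
      exact hxn (Or.inl (frontier_subset_closure ((hd0 x).mp h.symm)))
    · simp only [hF, if_neg hxV]
      have : g x = 0 := by
        simp only [hg]
        apply Finset.sum_eq_zero
        intro i _
        rw [hwout i x (hxW i), zero_smul]
      rw [this, zero_add])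
  by_cases hxV : x ∈ V
  · simp only [hF, if_pos hxV] at hx
    have hxg : g x = (-(S * d x)) • v := by
      rw [neg_smul]; exact eq_neg_of_add_eq_zero_left hx
    have hS0 : 0 ≤ S := by positivity
    have hSd : 0 ≤ S * d x := mul_nonneg hS0 (hdnn x)
    have hvn : 0 < ‖v‖ := norm_pos_iff.mpr hv0
    have h1 : S * d x ≤ T := by
      rw [hT, le_div_iff₀ hvn]
      have h2 := hM' x (subset_closure hxV)
      rw [hxg, norm_smul, norm_neg, Real.norm_eq_abs, abs_of_nonneg hSd] at h2
      exact h2.trans (le_abs_self M)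
    have hxK : x ∈ K := by
      refine ⟨subset_closure hxV, -(S * d x), ⟨by linarith, by linarith⟩, hxg.symm⟩
    have h3 := hc0K x hxK
    have h4 : T + 1 ≤ S * d x := by
      rw [hS, div_mul_eq_mul_div, le_div_iff₀ hc0]
      gcongr
    linarith
  · simp only [hF, if_neg hxV] at hx
    have h1 : inner ℝ (g x + d x • (x - q)) (x - q) = (0 : ℝ) := by rw [hx, inner_zero_left]
    rw [inner_add_left, real_inner_smul_left, real_inner_self_eq_norm_sq] at h1
    have h2 := hinner x hxV
    have hxr : 0 < ‖x - q‖ := by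
      rw [norm_pos_iff, sub_ne_zero]
      intro h
      exact hxV (h ▸ hq)
    by_cases hxf : x ∈ frontier V
    · have h3 := h2.2 (mem_iUnion.mp (hWc hxf))
      have h4 : 0 ≤ d x * ‖x - q‖ ^ 2 := mul_nonneg (hdnn x) (by positivity)
      linarith
    · have h3 : 0 < d x := lt_of_le_of_ne (hdnn x) fun h => hxf ((hd0 x).mp h.symm)
      have h4 : 0 < d x * ‖x - q‖ ^ 2 := by positivity
      linarith [h2.1]

end Pool.Agent.MCP
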