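import Mathlib

/-!
# The `(k+1)`-st smallest coordinate
-/

set_option autoImplicit false

open Set

namespace Pool.Agent.MCP

/-- The `(k+1)`-st smallest of the numbers `t 0, …, t (n-1)` (for `k < n`). -/
noncomputable def ost {n : ℕ} (k : ℕ) (t : Fin n → ℝ) : ℝ :=
  ⨅ S : {S : Finset (Fin n) // S.card = k + 1}, ⨆ i : {i : Fin n // i ∈ S.1}, t i

section
variable {n k : ℕ}

theorem nonempty_index (hk : k < n) : Nonempty {S : Finset (Fin n) // S.card = k + 1} := by
  obtain ⟨S, _, hS⟩ := Finset.exists_subset_card_eq (s := (Finset.univ : Finset (Fin n)))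
    (n := k + 1) (by rw [Finset.card_univ, Fintype.card_fin]; omega)
  exact ⟨⟨S, hS⟩⟩

theorem nonempty_elem (S : {S : Finset (Fin n) // S.card = k + 1}) :
    Nonempty {i : Fin n // i ∈ S.1} := by
  have : S.1.Nonempty := by rw [← Finset.card_pos, S.2]; omega
  exact ⟨⟨this.choose, this.choose_spec⟩⟩

theorem le_ost_iff (hk : k < n) {t : Fin n → ℝ} {a : ℝ} :
    a ≤ ost k t ↔ ∀ S : Finset (Fin n), S.card = k + 1 → ∃ i ∈ S, a ≤ t i := by
  have := nonempty_index hk
  constructor
  · intro h S hS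
    have := nonempty_elem (⟨S, hS⟩ : {S : Finset (Fin n) // S.card = k + 1})
    have h1 : ost k t ≤ ⨆ i : {i : Fin n // i ∈ S}, t i :=
      ciInf_le (Set.finite_range _).bddBelow
        (⟨S, hS⟩ : {S : Finset (Fin n) // S.card = k + 1})
    obtain ⟨i, hi⟩ := exists_eq_ciSup_of_finite (f := fun i : {i : Fin n // i ∈ S} => t i)
    exact ⟨i.1, i.2, h.trans (h1.trans hi.ge)⟩
  · intro h
    apply le_ciInf
    rintro ⟨S, hS⟩
    obtain ⟨i, hi, hai⟩ := h S hS
    exact hai.trans (le_ciSup (f := fun i : {i : Fin n // i ∈ S} => t i)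
      (Set.finite_range _).bddAbove ⟨i, hi⟩)

theorem exists_le_ost (hk : k < n) (t : Fin n → ℝ) :
    ∃ S : Finset (Fin n), S.card = k + 1 ∧ ∀ i ∈ S, t i ≤ ost k t := by
  have := nonempty_index hk
  obtain ⟨S, hS⟩ := exists_eq_ciInf_of_finite
    (f := fun S : {S : Finset (Fin n) // S.card = k + 1} => ⨆ i : {i : Fin n // i ∈ S.1}, t i)
  refine ⟨S.1, S.2, fun i hi => ?_⟩
  rw [ost, ← hS]
  exact le_ciSup (f := fun i : {i : Fin n // i ∈ S.1} => t i)
    (Set.finite_range _).bddAbove ⟨i, hi⟩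

theorem ost_le_of_forall_le (hk : k < n) {t : Fin n → ℝ} {a : ℝ} (h : ∀ i, t i ≤ a) :
    ost k t ≤ a := by
  obtain ⟨S, hS, -⟩ := exists_le_ost hk t
  obtain ⟨i, -, hi⟩ := (le_ost_iff hk).mp (le_refl (ost k t)) S hS
  exact hi.trans (h i)

theorem le_ost_of_forall_le (hk : k < n) {t : Fin n → ℝ} {a : ℝ} (h : ∀ i, a ≤ t i) :
    a ≤ ost k t := by
  rw [le_ost_iff hk]
  intro S hS
  have : S.Nonempty := by rw [← Finset.card_pos, hS]; omega
  obtain ⟨i, hi⟩ := this
  exact ⟨i, hi, h i⟩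

theorem ost_sub_le (hk : k < n) {t t' : Fin n → ℝ} {r : ℝ} (h : ∀ i, t i - r ≤ t' i) :
    ost k t - r ≤ ost k t' := by
  rw [le_ost_iff hk]
  intro S hS
  obtain ⟨i, hi, hai⟩ := (le_ost_iff hk).mp (le_refl (ost k t)) S hS
  exact ⟨i, hi, by linarith [h i]⟩

theorem abs_ost_sub_le (hk : k < n) {t t' : Fin n → ℝ} {r : ℝ} (h : ∀ i, |t i - t' i| ≤ r) :
    |ost k t - ost k t'| ≤ r := by
  rw [abs_le]
  have h1 := ost_sub_le (k := k) hk (t := t) (t' := t') (r := r)
    (fun i => by have := (abs_le.mp (h i)).2; linarith)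
  have h2 := ost_sub_le (k := k) hk (t := t') (t' := t) (r := r)
    (fun i => by have := (abs_le.mp (h i)).1; linarith)
  constructor <;> linarith

theorem ost_comp (hk : k < n) {F : ℝ → ℝ} (hF : Monotone F) (t : Fin n → ℝ) :
    ost k (fun i => F (t i)) = F (ost k t) := by
  apply le_antisymm
  · obtain ⟨S, hS, hSt⟩ := exists_le_ost hk t
    obtain ⟨i, hi, hi2⟩ := (le_ost_iff hk).mp (le_refl (ost k fun i => F (t i))) S hS
    exact hi2.trans (hF (hSt i hi))
  · rw [le_ost_iff hk]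
    intro S hS
    obtain ⟨i, hi, hai⟩ := (le_ost_iff hk).mp (le_refl (ost k t)) S hS
    exact ⟨i, hi, hF hai⟩

end

/-! ### The one dimensional pieces -/

/-- distance of `z` to the nearest half-integer -/
noncomputable def tt (z : ℝ) : ℝ := |Int.fract z - 1 / 2|

theorem tt_nonneg (z : ℝ) : 0 ≤ tt z := abs_nonneg _

theorem tt_le (z : ℝ) : tt z ≤ 1 / 2 := by
  rw [tt, abs_le]
  constructor
  · linarith [Int.fract_nonneg z]
  · linarith [Int.fract_lt_one z]

theorem tt_eq (z : ℝ) : tt z = 1 / 2 - |z - round z| := by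
  rw [abs_sub_round_eq_min, tt]
  rcases le_total (Int.fract z) (1 - Int.fract z) with h | h
  · rw [min_eq_left h, abs_of_nonpos (by linarith)]; ring
  · rw [min_eq_right h, abs_of_nonneg (by linarith)]; ring

theorem abs_tt_sub_le (z z' : ℝ) : |tt z - tt z'| ≤ |z - z'| := by
  have key : ∀ a b : ℝ, |a - round a| ≤ |a - b| + |b - round b| := by
    intro a b
    calc |a - round a| ≤ |a - round b| := round_le a (round b)
      _ = |(a - b) + (b - round b)| := by ring_nf
      _ ≤ |a - b| + |b - round b| := abs_add_le _ _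
  rw [tt_eq, tt_eq, abs_le]
  have h1 := key z z'
  have h2 := key z' z
  rw [abs_sub_comm z' z] at h2
  constructor <;> linarith

/-- The profile `γ_e : [0,1] → [0,1]` with slope `p` near the ends and slope `e` in the middle. -/
noncomputable def gam (p e s : ℝ) : ℝ := min (p * s) (max (1 / 2 + e * (s - 1 / 2)) (1 - p * (1 - s)))

section
variable {p e : ℝ}

theorem gam_mono (hp : 0 ≤ p) (he : 0 ≤ e) : Monotone (gam p e) := by
  intro s s' h
  unfold gam
  gcongr

theorem gam_zero (hp : 2 ≤ p) (he1 : e ≤ 1) : gam p e 0 = 0 := by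
  unfold gam
  rw [mul_zero, min_eq_left]
  apply le_max_of_le_left
  linarith

theorem gam_one (hp : 2 ≤ p) (he1 : e ≤ 1) : gam p e 1 = 1 := by
  unfold gam
  rw [max_eq_right (by linarith), min_eq_right (by linarith)]
  ring

theorem gam_strictMono (hp : 0 < p) (he : 0 < e) : StrictMono (gam p e) := by
  intro s s' h
  unfold gam
  apply lt_min
  · exact lt_of_le_of_lt (min_le_left _ _) (by gcongr)
  · rcases le_total (1 / 2 + e * (s - 1 / 2)) (1 - p * (1 - s)) with h1 | h1
    · refine lt_of_le_of_lt (min_le_right _ _) ?_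
      rw [max_eq_right h1]
      exact lt_max_of_lt_right (by gcongr)
    · refine lt_of_le_of_lt (min_le_right _ _) ?_
      rw [max_eq_left h1]
      exact lt_max_of_lt_left (by gcongr)

theorem abs_min_sub_min_le (a b c d : ℝ) : |min a b - min c d| ≤ max |a - c| |b - d| :=
  abs_min_sub_min_le_max a b c d

/-- `γ` is `p`-Lipschitz in `s` and `1/2`-Lipschitz in `e`. -/
theorem abs_gam_sub_le (hp : 2 ≤ p) {e' : ℝ} (he0 : 0 ≤ e) (he1 : e ≤ 1)
    {s s' : ℝ} (hs0 : 0 ≤ s') (hs1 : s' ≤ 1) :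
    |gam p e s - gam p e' s'| ≤ p * |s - s'| + |e - e'| := by
  unfold gam
  refine (abs_min_sub_min_le_max _ _ _ _).trans (max_le ?_ ?_)
  · rw [← mul_sub, abs_mul, abs_of_nonneg (by linarith : (0:ℝ) ≤ p)]
    linarith [abs_nonneg (e - e')]
  · refine (abs_max_sub_max_le_max _ _ _ _).trans (max_le ?_ ?_)
    · have h1 : 1 / 2 + e * (s - 1 / 2) - (1 / 2 + e' * (s' - 1 / 2)) =
          e * (s - s') + (e - e') * (s' - 1 / 2) := by ring
      rw [h1]
      calc |e * (s - s') + (e - e') * (s' - 1 / 2)|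
          ≤ |e * (s - s')| + |(e - e') * (s' - 1 / 2)| := abs_add_le _ _
        _ = e * |s - s'| + |e - e'| * |s' - 1 / 2| := by
            rw [abs_mul, abs_mul, abs_of_nonneg he0]
        _ ≤ p * |s - s'| + |e - e'| * 1 := by
            gcongr
            · linarith
            · rw [abs_le]; constructor <;> linarith
        _ = p * |s - s'| + |e - e'| := by ring
    · have h1 : 1 - p * (1 - s) - (1 - p * (1 - s')) = p * (s - s') := by ring
      rw [h1, abs_mul, abs_of_nonneg (by linarith : (0:ℝ) ≤ p)]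
      linarith [abs_nonneg (e - e')]

/-- the value of `|γ - 1/2|` as a function of `|s - 1/2|` -/
noncomputable def Gam (p e w : ℝ) : ℝ := max (e * w) (1 / 2 - p * (1 / 2 - w))

theorem Gam_mono (hp : 0 ≤ p) (he : 0 ≤ e) : Monotone (Gam p e) := by
  intro w w' h
  unfold Gam
  gcongr

theorem Gam_strictMono (hp : 0 < p) (he : 0 < e) : StrictMono (Gam p e) := by
  intro w w' h
  unfold Gam
  apply max_lt
  · exact lt_max_of_lt_left (by gcongr)
  · exact lt_max_of_lt_right (by gcongr)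

theorem abs_gam_sub_half (hp : 2 ≤ p) (he0 : 0 ≤ e) (he1 : e ≤ 1) {s : ℝ} (hs0 : 0 ≤ s)
    (hs1 : s ≤ 1) : |gam p e s - 1 / 2| = Gam p e |s - 1 / 2| := by
  unfold gam Gam
  rcases le_total (1 / 2) s with h | h
  · rw [abs_of_nonneg (by linarith : 0 ≤ s - 1 / 2)]
    have h1 : max (1 / 2 + e * (s - 1 / 2)) (1 - p * (1 - s)) ≤ p * s := by
      apply max_le
      · nlinarith
      · nlinarith
    rw [min_eq_right h1, abs_of_nonneg]
    · rcases le_total (1 / 2 + e * (s - 1 / 2)) (1 - p * (1 - s)) with h2 | h2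
      · rw [max_eq_right h2, max_eq_right (by linarith)]; ring
      · rw [max_eq_left h2, max_eq_left (by linarith)]; ring
    · have h3 : 1 / 2 + e * (s - 1 / 2) ≤ max (1 / 2 + e * (s - 1 / 2)) (1 - p * (1 - s)) :=
        le_max_left _ _
      have h4 : 0 ≤ e * (s - 1 / 2) := mul_nonneg he0 (by linarith)
      linarith
  · rw [abs_of_nonpos (by linarith : s - 1 / 2 ≤ 0)]
    have h1 : max (1 / 2 + e * (s - 1 / 2)) (1 - p * (1 - s)) = 1 / 2 + e * (s - 1 / 2) := by
      apply max_eq_left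
      nlinarith
    have h4 : e * (s - 1 / 2) ≤ 0 := mul_nonpos_of_nonneg_of_nonpos he0 (by linarith)
    rw [h1, abs_of_nonpos]
    · rcases le_total (p * s) (1 / 2 + e * (s - 1 / 2)) with h2 | h2
      · rw [min_eq_left h2, max_eq_right (by linarith)]; ring
      · rw [min_eq_right h2, max_eq_left (by linarith)]; ring
    · have h3 : min (p * s) (1 / 2 + e * (s - 1 / 2)) ≤ 1 / 2 + e * (s - 1 / 2) :=
        min_le_right _ _
      linarith

end

end Pool.Agent.MCP
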