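import Mathlib
import Pool.Agent.MCP.Ost

/-!
# The periodic collapse map of the cubical grid

`col k p : ℝ^n → ℝ^n` preserves every half-open integer cube, is Lipschitz, and is injective over
the complement of `{x : at least k+1 coordinates of x are half-integers}`; the preimage of that
complement stays `1/(2p)`-close to the `k`-skeleton of the integer grid.
-/

set_option autoImplicit false

open Set

namespace Pool.Agent.MCP

section
variable {n : ℕ}

noncomputable def gv (k : ℕ) (z : Fin n → ℝ) : ℝ := ost k (fun i => tt (z i))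

noncomputable def aa (p : ℝ) : ℝ := 1 / 2 - 1 / (2 * p)

noncomputable def ee (k : ℕ) (p : ℝ) (z : Fin n → ℝ) : ℝ := 2 * p * max 0 (gv k z - aa p)

noncomputable def col (k : ℕ) (p : ℝ) (z : Fin n → ℝ) : Fin n → ℝ :=
  fun i => ⌊z i⌋ + gam p (ee k p z) (Int.fract (z i))

variable {k : ℕ} {p : ℝ}

theorem gv_nonneg (hk : k < n) (z : Fin n → ℝ) : 0 ≤ gv k z :=
  le_ost_of_forall_le hk fun _ => tt_nonneg _

theorem gv_le (hk : k < n) (z : Fin n → ℝ) : gv k z ≤ 1 / 2 :=
  ost_le_of_forall_le hk fun _ => tt_le _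

theorem ee_nonneg (hp : 2 ≤ p) (z : Fin n → ℝ) : 0 ≤ ee k p z := by
  unfold ee
  have : 0 ≤ max 0 (gv k z - aa p) := le_max_left _ _
  positivity

theorem ee_le (hk : k < n) (hp : 2 ≤ p) (z : Fin n → ℝ) : ee k p z ≤ 1 := by
  unfold ee
  have h1 : max 0 (gv k z - aa p) ≤ 1 / (2 * p) := by
    apply max_le
    · positivity
    · unfold aa; linarith [gv_le hk z]
  calc 2 * p * max 0 (gv k z - aa p) ≤ 2 * p * (1 / (2 * p)) := by gcongr
    _ = 1 := by field_simp

theorem gam_nonneg {e s : ℝ} (hp : 2 ≤ p) (he0 : 0 ≤ e) (he1 : e ≤ 1) (hs : 0 ≤ s) :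
    0 ≤ gam p e s := by
  rw [← gam_zero hp he1]
  exact gam_mono (by linarith) he0 hs

theorem gam_le_one {e s : ℝ} (hp : 2 ≤ p) (he0 : 0 ≤ e) (he1 : e ≤ 1) (hs : s ≤ 1) :
    gam p e s ≤ 1 := by
  rw [← gam_one (e := e) hp he1]
  exact gam_mono (by linarith) he0 hs

theorem gam_lt_one {e s : ℝ} (hp : 2 ≤ p) (he0 : 0 ≤ e) (he1 : e ≤ 1) (hs : s < 1) :
    gam p e s < 1 := by
  unfold gam
  apply lt_of_le_of_lt (min_le_right _ _)
  apply max_lt
  · rcases le_total s (1 / 2) with h | h
    · have : e * (s - 1 / 2) ≤ 0 := mul_nonpos_of_nonneg_of_nonpos he0 (by linarith)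
      linarith
    · have : e * (s - 1 / 2) ≤ 1 * (s - 1 / 2) := mul_le_mul_of_nonneg_right he1 (by linarith)
      linarith
  · have : 0 < p * (1 - s) := by apply mul_pos <;> linarith
    linarith

theorem abs_col_sub_le (hk : k < n) (hp : 2 ≤ p) (z : Fin n → ℝ) (i : Fin n) :
    |col k p z i - z i| ≤ 1 := by
  have h0 := Int.fract_nonneg (z i)
  have h1 := (Int.fract_lt_one (z i)).le
  have h2 := gam_nonneg hp (ee_nonneg hp z) (ee_le hk hp z) h0
  have h3 := gam_le_one hp (ee_nonneg hp z) (ee_le hk hp z) h1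
  have h4 : col k p z i - z i = gam p (ee k p z) (Int.fract (z i)) - Int.fract (z i) := by
    unfold col
    have := Int.floor_add_fract (z i)
    linarith
  rw [h4, abs_le]
  constructor <;> linarith

theorem dist_col_le (hk : k < n) (hp : 2 ≤ p) (z : Fin n → ℝ) : dist (col k p z) z ≤ 1 := by
  rw [dist_pi_le_iff zero_le_one]
  intro i
  rw [Real.dist_eq]
  exact abs_col_sub_le hk hp z i

/-- one dimensional Lipschitz estimate across several cells -/
theorem floor_gam_lip {e : ℝ} (hp : 2 ≤ p) (he0 : 0 ≤ e) (he1 : e ≤ 1) (x y : ℝ) :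
    |(⌊x⌋ + gam p e (Int.fract x)) - (⌊y⌋ + gam p e (Int.fract y))| ≤ p * |x - y| := by
  wlog hxy : y ≤ x generalizing x y
  · rw [abs_sub_comm, abs_sub_comm x y]
    exact this y x (le_of_not_ge hxy)
  have hx0 := Int.fract_nonneg x
  have hx1 := (Int.fract_lt_one x).le
  have hy0 := Int.fract_nonneg y
  have hy1 := (Int.fract_lt_one y).le
  have ex := Int.floor_add_fract x
  have ey := Int.floor_add_fract y
  have hfl : ⌊y⌋ ≤ ⌊x⌋ := Int.floor_le_floor hxy
  rw [abs_of_nonneg (by linarith : 0 ≤ x - y)]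
  rcases hfl.eq_or_lt with heq | hlt
  · rw [heq] at ey ⊢
    have h1 := abs_gam_sub_le (e := e) (e' := e) (s := Int.fract x) (s' := Int.fract y)
      hp he0 he1 hy0 hy1
    have h2 : (⌊x⌋ + gam p e (Int.fract x)) - (⌊x⌋ + gam p e (Int.fract y)) =
      gam p e (Int.fract x) - gam p e (Int.fract y) := by ring
    rw [h2]
    have h3 : |Int.fract x - Int.fract y| = x - y := by
      rw [abs_of_nonneg (by linarith)]; linarith
    rw [h3, sub_self, abs_zero, add_zero] at h1
    exact h1
  · have hlt' : (⌊y⌋ : ℝ) + 1 ≤ ⌊x⌋ := by exact_mod_cast hlt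
    have g1 : gam p e (Int.fract x) ≤ p * Int.fract x := min_le_left _ _
    have g0 := gam_nonneg hp he0 he1 hx0
    have g2 : 1 - p * (1 - Int.fract y) ≤ gam p e (Int.fract y) := by
      have h1 := abs_gam_sub_le (e := e) (e' := e) (s := Int.fract y) (s' := 1)
        hp he0 he1 zero_le_one le_rfl
      rw [gam_one hp he1, sub_self, abs_zero, add_zero,
        abs_of_nonpos (by linarith : Int.fract y - 1 ≤ 0)] at h1
      have := (abs_le.mp h1).1
      linarith
    have g3 := gam_le_one hp he0 he1 hy1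
    have hp1 : 1 ≤ p := by linarith
    rw [abs_of_nonneg (by linarith)]
    have e1 : x - y = ((⌊x⌋ : ℝ) - ⌊y⌋ - 1) + Int.fract x + (1 - Int.fract y) := by linarith
    rw [e1]
    have e2 : (⌊x⌋ : ℝ) - ⌊y⌋ - 1 ≤ p * ((⌊x⌋ : ℝ) - ⌊y⌋ - 1) := by
      nlinarith
    linarith

theorem abs_gv_sub_le (hk : k < n) (z z' : Fin n → ℝ) : |gv k z - gv k z'| ≤ dist z z' := by
  apply abs_ost_sub_le hk
  intro i
  refine (abs_tt_sub_le _ _).trans ?_
  rw [← Real.dist_eq]
  exact dist_le_pi_dist z z' i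

theorem abs_ee_sub_le (hk : k < n) (hp : 2 ≤ p) (z z' : Fin n → ℝ) :
    |ee k p z - ee k p z'| ≤ 2 * p * dist z z' := by
  unfold ee
  rw [← mul_sub, abs_mul, abs_of_nonneg (by linarith : 0 ≤ 2 * p)]
  gcongr
  refine (abs_max_sub_max_le_max _ _ _ _).trans (max_le ?_ ?_)
  · simp
  · have : gv k z - aa p - (gv k z' - aa p) = gv k z - gv k z' := by ring
    rw [this]
    exact abs_gv_sub_le hk z z'

theorem col_lip (hk : k < n) (hp : 2 ≤ p) (z z' : Fin n → ℝ) :
    dist (col k p z) (col k p z') ≤ 3 * p * dist z z' := by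
  rw [dist_pi_le_iff (by positivity)]
  intro i
  rw [Real.dist_eq]
  have h1 := floor_gam_lip hp (ee_nonneg hp z) (ee_le hk hp z) (z i) (z' i)
  have h2 := abs_gam_sub_le (e := ee k p z) (e' := ee k p z') (s := Int.fract (z' i))
    (s' := Int.fract (z' i)) hp (ee_nonneg hp z) (ee_le hk hp z) (Int.fract_nonneg _)
    (Int.fract_lt_one _).le
  rw [sub_self, abs_zero, mul_zero, zero_add] at h2
  have h3 := abs_ee_sub_le hk hp z z'
  have h4 : |z i - z' i| ≤ dist z z' := by
    rw [← Real.dist_eq]; exact dist_le_pi_dist z z' i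
  have h5 : col k p z i - col k p z' i =
      ((⌊z i⌋ + gam p (ee k p z) (Int.fract (z i))) -
        (⌊z' i⌋ + gam p (ee k p z) (Int.fract (z' i)))) +
      (gam p (ee k p z) (Int.fract (z' i)) - gam p (ee k p z') (Int.fract (z' i))) := by
    unfold col; ring
  rw [h5]
  calc _ ≤ |(⌊z i⌋ + gam p (ee k p z) (Int.fract (z i))) -
        (⌊z' i⌋ + gam p (ee k p z) (Int.fract (z' i)))| +
        |gam p (ee k p z) (Int.fract (z' i)) - gam p (ee k p z') (Int.fract (z' i))| :=
          abs_add_le _ _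
    _ ≤ p * |z i - z' i| + 2 * p * dist z z' := add_le_add h1 (h2.trans h3)
    _ ≤ p * dist z z' + 2 * p * dist z z' := by gcongr
    _ = 3 * p * dist z z' := by ring

theorem floor_col (hk : k < n) (hp : 2 ≤ p) (z : Fin n → ℝ) (i : Fin n) :
    ⌊col k p z i⌋ = ⌊z i⌋ := by
  unfold col
  have h0 : ⌊gam p (ee k p z) (Int.fract (z i))⌋ = 0 := Int.floor_eq_zero_iff.mpr
    ⟨gam_nonneg hp (ee_nonneg hp z) (ee_le hk hp z) (Int.fract_nonneg _),
    gam_lt_one hp (ee_nonneg hp z) (ee_le hk hp z) (Int.fract_lt_one _)⟩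
  rw [Int.floor_intCast_add, h0, add_zero]

theorem fract_col (hk : k < n) (hp : 2 ≤ p) (z : Fin n → ℝ) (i : Fin n) :
    Int.fract (col k p z i) = gam p (ee k p z) (Int.fract (z i)) := by
  unfold Int.fract
  rw [floor_col hk hp]
  unfold col Int.fract
  ring

theorem tt_col (hk : k < n) (hp : 2 ≤ p) (z : Fin n → ℝ) (i : Fin n) :
    tt (col k p z i) = Gam p (ee k p z) (tt (z i)) := by
  unfold tt
  rw [fract_col hk hp, abs_gam_sub_half hp (ee_nonneg hp z) (ee_le hk hp z)
    (Int.fract_nonneg _) (Int.fract_lt_one _).le]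

theorem gv_col (hk : k < n) (hp : 2 ≤ p) (z : Fin n → ℝ) :
    gv k (col k p z) = p * max 0 (gv k z - aa p) := by
  have h1 : gv k (col k p z) = Gam p (ee k p z) (gv k z) := by
    unfold gv
    simp_rw [tt_col hk hp z]
    exact ost_comp hk (Gam_mono (by linarith) (ee_nonneg hp z)) _
  rw [h1]
  unfold Gam
  have hg := gv_le hk z
  have hg0 := gv_nonneg hk z
  have hpa : p * aa p = p / 2 - 1 / 2 := by unfold aa; field_simp
  rcases le_total (gv k z) (aa p) with h | h
  · have he : ee k p z = 0 := by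
      unfold ee; rw [max_eq_left (by linarith)]; ring
    rw [he, max_eq_left (by linarith : gv k z - aa p ≤ 0), zero_mul, mul_zero]
    apply max_eq_left
    have : p * gv k z ≤ p * aa p := by gcongr
    nlinarith
  · have he : ee k p z = 2 * p * (gv k z - aa p) := by
      unfold ee; rw [max_eq_right (by linarith)]
    rw [he, max_eq_right (by linarith : 0 ≤ gv k z - aa p)]
    have e1 : 1 / 2 - p * (1 / 2 - gv k z) = p * (gv k z - aa p) := by
      rw [mul_sub p (gv k z), hpa]; ring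
    rw [e1]
    apply max_eq_right
    have : 0 ≤ p * (gv k z - aa p) := by apply mul_nonneg <;> linarith
    nlinarith

theorem ee_eq (hk : k < n) (hp : 2 ≤ p) (z : Fin n → ℝ) :
    ee k p z = 2 * gv k (col k p z) := by
  rw [gv_col hk hp]; unfold ee; ring

theorem col_inj (hk : k < n) (hp : 2 ≤ p) {z z' : Fin n → ℝ} (h : col k p z = col k p z')
    (hpos : 0 < gv k (col k p z)) : z = z' := by
  have he : ee k p z = ee k p z' := by rw [ee_eq hk hp, ee_eq hk hp, h]
  have hepos : 0 < ee k p z := by rw [ee_eq hk hp]; linarith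
  funext i
  have h1 : ⌊z i⌋ = ⌊z' i⌋ := by rw [← floor_col hk hp z i, ← floor_col hk hp z' i, h]
  have h2 : Int.fract (z i) = Int.fract (z' i) := by
    have h3 := fract_col hk hp z i
    have h4 := fract_col hk hp z' i
    rw [h] at h3
    rw [h3, ← he] at h4
    exact (gam_strictMono (by linarith) hepos).injective h4
  rw [← Int.floor_add_fract (z i), ← Int.floor_add_fract (z' i), h1, h2]

theorem aa_lt_of_pos (hk : k < n) (hp : 2 ≤ p) {z : Fin n → ℝ}
    (hpos : 0 < gv k (col k p z)) : aa p < gv k z := by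
  rw [gv_col hk hp] at hpos
  by_contra hcon
  rw [max_eq_left (by linarith), mul_zero] at hpos
  exact lt_irrefl _ hpos

theorem gam_continuous (p e : ℝ) : Continuous (gam p e) := by
  unfold gam
  fun_prop

theorem col_surj (hk : k < n) (hp : 2 ≤ p) {x : Fin n → ℝ} (hpos : 0 < gv k x) :
    ∃ z, col k p z = x := by
  set e : ℝ := 2 * gv k x with he
  have he0 : 0 < e := by positivity
  have he1 : e ≤ 1 := by linarith [gv_le hk x]
  have hex : ∀ i, ∃ s : ℝ, 0 ≤ s ∧ s < 1 ∧ gam p e s = Int.fract (x i) := by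
    intro i
    have h1 := intermediate_value_Icc (zero_le_one (α := ℝ)) (gam_continuous p e).continuousOn
    rw [gam_zero hp he1, gam_one hp he1] at h1
    obtain ⟨s, hs, hs2⟩ := h1 ⟨Int.fract_nonneg (x i), (Int.fract_lt_one (x i)).le⟩
    refine ⟨s, hs.1, lt_of_le_of_ne hs.2 ?_, hs2⟩
    rintro rfl
    rw [gam_one hp he1] at hs2
    linarith [Int.fract_lt_one (x i)]
  choose s hs0 hs1 hs2 using hex
  have hfl : ∀ i, ⌊(⌊x i⌋ : ℝ) + s i⌋ = ⌊x i⌋ := by
    intro i
    rw [Int.floor_intCast_add, Int.floor_eq_zero_iff.mpr ⟨hs0 i, hs1 i⟩, add_zero]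
  have hfr : ∀ i, Int.fract ((⌊x i⌋ : ℝ) + s i) = s i := by
    intro i
    unfold Int.fract
    rw [hfl i]; ring
  set z : Fin n → ℝ := fun i => (⌊x i⌋ : ℝ) + s i with hz
  have htt : ∀ i, tt (x i) = Gam p e (tt (z i)) := by
    intro i
    simp only [hz]
    unfold tt
    rw [hfr i, ← hs2 i, abs_gam_sub_half hp he0.le he1 (hs0 i) (hs1 i).le]
  have hg : gv k x = Gam p e (gv k z) := by
    unfold gv
    simp_rw [htt]
    exact ost_comp hk (Gam_mono (by linarith) he0.le) _
  have hpa : p * aa p = p / 2 - 1 / 2 := by unfold aa; field_simp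
  have hval : Gam p e (aa p + gv k x / p) = gv k x := by
    unfold Gam
    have e1 : 1 / 2 - p * (1 / 2 - (aa p + gv k x / p)) = gv k x := by
      have : p * (gv k x / p) = gv k x := by field_simp
      nlinarith
    rw [e1]
    apply max_eq_right
    have h3 : aa p + gv k x / p ≤ 1 / 2 := by
      unfold aa
      have : gv k x / p ≤ 1 / (2 * p) := by
        rw [div_le_div_iff₀ (by linarith) (by linarith)]
        nlinarith [gv_le hk x]
      linarith
    have h4 : e * (aa p + gv k x / p) ≤ e * (1 / 2) := by gcongr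
    linarith
  have hgz : gv k z = aa p + gv k x / p := by
    apply (Gam_strictMono (p := p) (e := e) (by linarith) he0).injective
    rw [← hg, hval]
  have hez : ee k p z = e := by
    unfold ee
    rw [hgz, max_eq_right (by
      have : 0 < gv k x / p := by positivity
      linarith)]
    rw [he]
    field_simp
    ring
  refine ⟨z, ?_⟩
  funext i
  unfold col
  rw [hez]
  simp only [hz]
  rw [hfl i, hfr i, hs2 i, Int.floor_add_fract]

theorem exists_half (hk : k < n) {x : Fin n → ℝ} (h : ¬ 0 < gv k x) :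
    ∃ S : Finset (Fin n), S.card = k + 1 ∧ ∃ q : Fin n → ℤ, ∀ i ∈ S, x i = q i + 1 / 2 := by
  obtain ⟨S, hS, hSt⟩ := exists_le_ost hk (fun i => tt (x i))
  refine ⟨S, hS, fun i => ⌊x i⌋, fun i hi => ?_⟩
  have h1 : tt (x i) ≤ 0 := (hSt i hi).trans (not_lt.mp h)
  have h2 : Int.fract (x i) - 1 / 2 = 0 := abs_eq_zero.mp (le_antisymm h1 (tt_nonneg _))
  have := Int.floor_add_fract (x i)
  linarith

end

end Pool.Agent.MCP
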