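import Mathlib

/-!
# Gluing infinitely many short paths

Given a curve `σ` and an open set of parameters `Sᶜ`, if small balls around the points `σ t`,
`t ∉ S`, have path connected complement of `C`, then `σ` can be replaced by a curve which agrees
with `σ` on `S`, misses `C` off `S`, and is as close to `σ` as we wish.
-/

set_option autoImplicit false

open Set Filter Topology

namespace Pool.Agent.MCP

section
variable {X : Type*} [MetricSpace X]

/-- a controlled path from `Y s` to `Y s'` over `[s, s']` -/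
def Ctrl (f : ℝ → X) (ϱ : ℝ → ℝ) (C : Set X) (Y : ℝ → X) (s s' : ℝ) : Prop :=
  ∃ g : ℝ → X, Continuous g ∧ g s = Y s ∧ g s' = Y s' ∧
    ∀ u ∈ Icc s s', g u ∉ C ∧ dist (g u) (f u) ≤ ϱ u

theorem Ctrl.trans {f : ℝ → X} {ϱ : ℝ → ℝ} {C : Set X} {Y : ℝ → X} {s t u : ℝ}
    (h1 : Ctrl f ϱ C Y s t) (h2 : Ctrl f ϱ C Y t u) (hst : s ≤ t) (htu : t ≤ u) :
    Ctrl f ϱ C Y s u := by
  classical
  obtain ⟨g1, hg1, a1, b1, c1⟩ := h1
  obtain ⟨g2, hg2, a2, b2, c2⟩ := h2
  refine ⟨fun x => if x ≤ t then g1 x else g2 x, ?_, ?_, ?_, ?_⟩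
  · apply Continuous.if_le hg1 hg2 continuous_id continuous_const
    intro x hx
    have hx' : x = t := hx
    rw [hx', b1, a2]
  · simp only [if_pos hst, a1]
  · by_cases h : u ≤ t
    · have : u = t := le_antisymm h htu
      subst this
      simp only [le_refl, if_true, b1]
    · simp only [if_neg h, b2]
  · intro x hx
    by_cases h : x ≤ t
    · simp only [if_pos h]
      exact c1 x ⟨hx.1, h⟩
    · simp only [if_neg h]
      exact c2 x ⟨(not_le.mp h).le, hx.2⟩

/-- Concatenation over the integers. -/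
theorem continuous_floor_glue {g : ℤ → ℝ → X} (hg : ∀ i, Continuous (g i))
    (hgg : ∀ i : ℤ, g i ((i : ℝ) + 1) = g (i + 1) ((i : ℝ) + 1)) :
    Continuous fun y : ℝ => g ⌊y⌋ y := by
  have hloc : LocallyFinite fun i : ℤ => Icc (i : ℝ) ((i : ℝ) + 1) := by
    intro x
    refine ⟨Ioo (x - 1) (x + 1), Ioo_mem_nhds (by linarith) (by linarith), ?_⟩
    apply (Set.finite_Icc (⌊x⌋ - 2) (⌊x⌋ + 2)).subset
    rintro i ⟨y, hy1, hy2⟩
    have h1 := Int.floor_le x
    have h2 := Int.lt_floor_add_one x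
    simp only [mem_Icc, mem_Ioo] at hy1 hy2
    constructor
    · have : (⌊x⌋ : ℝ) - 2 - 1 < i := by linarith
      have : ((⌊x⌋ - 2 - 1 : ℤ) : ℝ) < i := by push_cast; exact this
      have := Int.cast_lt.mp this
      omega
    · have : (i : ℝ) < ⌊x⌋ + 2 := by linarith
      have : (i : ℝ) < ((⌊x⌋ + 2 : ℤ) : ℝ) := by push_cast; exact this
      have := Int.cast_lt.mp this
      omega
  apply hloc.continuous
  · rw [eq_univ_iff_forall]
    intro y
    exact mem_iUnion.mpr ⟨⌊y⌋, Int.floor_le y, (Int.lt_floor_add_one y).le⟩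
  · intro i; exact isClosed_Icc
  · intro i
    apply (hg i).continuousOn.congr
    intro y hy
    rcases hy.2.lt_or_eq with h | h
    · have : ⌊y⌋ = i := Int.floor_eq_iff.mpr ⟨hy.1, h⟩
      simp only [this]
    · have : ⌊y⌋ = i + 1 := by
        rw [h, show ((i : ℝ) + 1) = ((i + 1 : ℤ) : ℝ) by push_cast; ring, Int.floor_intCast]
      simp only [this]
      rw [h, hgg i]

/-- the controlled curve on the whole line -/
theorem exists_ctrl {f : ℝ → X} (hf : Continuous f) {ϱ : ℝ → ℝ} (hϱ : Continuous ϱ)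
    (hpos : ∀ y, 0 < ϱ y) {C : Set X}
    (hC : ∀ y, ∀ r, 0 < r → r ≤ ϱ y → IsPathConnected (Metric.ball (f y) r \ C)) :
    ∃ g : ℝ → X, Continuous g ∧ ∀ y, g y ∉ C ∧ dist (g y) (f y) ≤ ϱ y := by
  classical
  have hY : ∀ y, ∃ z, z ∈ Metric.ball (f y) (ϱ y / 8) \ C := fun y =>
    (hC y (ϱ y / 8) (by have := hpos y; positivity) (by have := hpos y; linarith)).nonempty
  choose Y hY using hY
  -- the pieces
  have hpiece : ∀ i : ℤ, Ctrl f ϱ C Y i (i + 1) := by
    intro i
    have hcomp : IsCompact (Icc (i : ℝ) (i + 1)) := isCompact_Icc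
    obtain ⟨y0, hy0, hmin⟩ := hcomp.exists_isMinOn ⟨(i : ℝ), by simp⟩ hϱ.continuousOn
    set r : ℝ := ϱ y0 with hr
    have hr0 : 0 < r := hpos y0
    have hrle : ∀ y ∈ Icc (i : ℝ) (i + 1), r ≤ ϱ y := fun y hy => hmin hy
    have huf := hcomp.uniformContinuousOn_of_continuous hf.continuousOn
    have hur := hcomp.uniformContinuousOn_of_continuous hϱ.continuousOn
    rw [Metric.uniformContinuousOn_iff] at huf hur
    obtain ⟨δ1, hδ1, hf1⟩ := huf (r / 8) (by positivity)
    obtain ⟨δ2, hδ2, hr2⟩ := hur (r / 8) (by positivity)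
    have hlocal : ∀ u ∈ Icc (i : ℝ) (i + 1), ∀ v ∈ Icc (i : ℝ) (i + 1), u < v → v - u < δ1 →
        v - u < δ2 → Ctrl f ϱ C Y u v := by
      intro u hu v hv huv h1 h2
      have hru := hrle u hu
      have hpu := hpos u
      have hIcc : ∀ x ∈ Icc u v, dist (f x) (f u) < r / 8 ∧ |ϱ x - ϱ u| < r / 8 := by
        intro x hx
        have hx' : x ∈ Icc (i : ℝ) (i + 1) := ⟨hu.1.trans hx.1, hx.2.trans hv.2⟩
        have hd : dist x u = x - u := by rw [Real.dist_eq, abs_of_nonneg (by linarith [hx.1])]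
        refine ⟨hf1 x hx' u hu (by rw [hd]; linarith [hx.2]), ?_⟩
        have := hr2 x hx' u hu (by rw [hd]; linarith [hx.2])
        rwa [Real.dist_eq] at this
      have hpc := hC u (ϱ u / 2) (by positivity) (by linarith)
      have m1 : Y u ∈ Metric.ball (f u) (ϱ u / 2) \ C :=
        ⟨Metric.ball_subset_ball (by linarith) (hY u).1, (hY u).2⟩
      have m2 : Y v ∈ Metric.ball (f u) (ϱ u / 2) \ C := by
        refine ⟨?_, (hY v).2⟩
        have e1 := (hY v).1
        have e2 := hIcc v ⟨huv.le, le_rfl⟩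
        have e3 := (abs_lt.mp e2.2).2
        rw [Metric.mem_ball] at e1 ⊢
        calc dist (Y v) (f u) ≤ dist (Y v) (f v) + dist (f v) (f u) := dist_triangle _ _ _
          _ < ϱ v / 8 + r / 8 := add_lt_add e1 e2.1
          _ ≤ ϱ u / 2 := by linarith
      have hj := hpc.joinedIn _ m1 _ m2
      -- reparametrise
      refine ⟨fun x => hj.somePath.extend ((x - u) / (v - u)), ?_, ?_, ?_, ?_⟩
      · exact hj.somePath.continuous_extend.comp
          ((continuous_id.sub continuous_const).div_const _)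
      · simp only [sub_self, zero_div, Path.extend_zero]
      · have : (v - u) / (v - u) = 1 := div_self (by linarith)
        simp only [this, Path.extend_one]
      · intro x hx
        obtain ⟨s', hs'⟩ := hj.somePath.extend_range ▸
          mem_range_self (f := hj.somePath.extend) ((x - u) / (v - u))
        have hmem : hj.somePath.extend ((x - u) / (v - u)) ∈ Metric.ball (f u) (ϱ u / 2) \ C := by
          rw [← hs']; exact hj.somePath_mem s'
        refine ⟨hmem.2, ?_⟩
        have e1 := hmem.1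
        have e2 := hIcc x hx
        have e3 := (abs_lt.mp e2.2).1
        rw [Metric.mem_ball] at e1
        calc dist (hj.somePath.extend ((x - u) / (v - u))) (f x)
            ≤ dist (hj.somePath.extend ((x - u) / (v - u))) (f u) + dist (f u) (f x) :=
              dist_triangle _ _ _
          _ ≤ ϱ u / 2 + r / 8 := by
              rw [dist_comm (f u)]
              exact add_le_add e1.le e2.1.le
          _ ≤ ϱ x := by linarith
    obtain ⟨N, hN⟩ := exists_nat_one_div_lt (lt_min hδ1 hδ2)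
    have hNpos : (0 : ℝ) < (N : ℝ) + 1 := by positivity
    have hstep : ∀ k : ℕ, k ≤ N → Ctrl f ϱ C Y ((i : ℝ) + k / ((N : ℝ) + 1))
        ((i : ℝ) + (k + 1) / ((N : ℝ) + 1)) := by
      intro k hk
      have hkN : (k : ℝ) ≤ N := by exact_mod_cast hk
      have hk0 : (0 : ℝ) ≤ k := Nat.cast_nonneg k
      have e1 : (k : ℝ) / ((N : ℝ) + 1) ≤ 1 := by rw [div_le_one hNpos]; linarith
      have e2 : ((k : ℝ) + 1) / ((N : ℝ) + 1) ≤ 1 := by rw [div_le_one hNpos]; linarith
      have e3 : 0 ≤ (k : ℝ) / ((N : ℝ) + 1) := by positivity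
      have e4 : 0 ≤ ((k : ℝ) + 1) / ((N : ℝ) + 1) := by positivity
      have e5 : ((k : ℝ) + 1) / ((N : ℝ) + 1) = (k : ℝ) / ((N : ℝ) + 1) + 1 / ((N : ℝ) + 1) := by
        rw [add_div]
      have e6 : 0 < 1 / ((N : ℝ) + 1) := by positivity
      have e7 := lt_min_iff.mp hN
      refine hlocal _ ⟨by linarith, by linarith⟩ _ ⟨by linarith, by linarith⟩ (by linarith)
        (by linarith [e7.1]) (by linarith [e7.2])
    have hall : ∀ k : ℕ, k ≤ N → Ctrl f ϱ C Y (i : ℝ) ((i : ℝ) + (k + 1) / ((N : ℝ) + 1)) := by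
      intro k
      induction k with
      | zero =>
        intro hk
        have := hstep 0 hk
        simpa using this
      | succ k ih =>
        intro hk
        have h1 := ih (by omega)
        have h2 := hstep (k + 1) hk
        push_cast at h2 ⊢
        refine h1.trans h2 ?_ ?_
        · have : 0 ≤ ((k : ℝ) + 1) / ((N : ℝ) + 1) := by positivity
          linarith
        · have : ((k : ℝ) + 1) / ((N : ℝ) + 1) ≤ ((k : ℝ) + 1 + 1) / ((N : ℝ) + 1) := by
            gcongr; linarith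
          linarith
    have := hall N le_rfl
    rwa [div_self hNpos.ne'] at this
  choose g hgc hg0 hg1 hg2 using hpiece
  refine ⟨fun y => g ⌊y⌋ y, ?_, fun y => ?_⟩
  · apply continuous_floor_glue hgc
    intro i
    rw [hg1 i]
    have := hg0 (i + 1)
    push_cast at this
    rw [this]
  · exact hg2 ⌊y⌋ y ⟨Int.floor_le y, (Int.lt_floor_add_one y).le⟩

/-- **Gluing lemma.** -/
theorem glue {σ : ℝ → X} (hσ : Continuous σ) {S : Set ℝ} (hS : IsClosed S) (h0 : Iic 0 ⊆ S)
    (h1 : Ici 1 ⊆ S) {ρ : ℝ → ℝ} (hρ : Continuous ρ) (hρpos : ∀ t ∉ S, 0 < ρ t) {C : Set X}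
    (hC : ∀ t ∉ S, ∀ r, 0 < r → r ≤ ρ t → IsPathConnected (Metric.ball (σ t) r \ C)) :
    ∃ τ : ℝ → X, Continuous τ ∧ (∀ t ∈ S, τ t = σ t) ∧ (∀ t ∉ S, τ t ∉ C) ∧
      ∀ t ∉ S, dist (τ t) (σ t) ≤ ρ t := by
  classical
  have hSne : S.Nonempty := ⟨0, h0 (mem_Iic.mpr le_rfl)⟩
  set ρ' : ℝ → ℝ := fun t => min (ρ t) (Metric.infDist t S) with hρ'
  have hρ'c : Continuous ρ' := hρ.min (Metric.continuous_infDist_pt S)
  have hρ'pos : ∀ t ∉ S, 0 < ρ' t := fun t ht =>
    lt_min (hρpos t ht) ((hS.notMem_iff_infDist_pos hSne).mp ht)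
  -- gaps
  have hgap : ∀ p : ℝ × ℝ, ∃ g : ℝ → X, (p.1 < p.2 → Ioo p.1 p.2 ∩ S = ∅ →
      ContinuousOn g (Ioo p.1 p.2) ∧ ∀ t ∈ Ioo p.1 p.2, g t ∉ C ∧ dist (g t) (σ t) ≤ ρ' t) := by
    rintro ⟨a, b⟩
    by_cases hab : a < b ∧ Ioo a b ∩ S = ∅
    swap
    · exact ⟨σ, fun h h' => absurd ⟨h, h'⟩ hab⟩
    obtain ⟨hab, hdis⟩ := hab
    simp only
    have hnot : ∀ t ∈ Ioo a b, t ∉ S := fun t ht htS => by
      have : t ∈ Ioo a b ∩ S := ⟨ht, htS⟩
      rw [hdis] at this; exact this
    set φ : ℝ → ℝ := fun y => (a + b) / 2 + (b - a) / 2 * (y / (1 + |y|)) with hφ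
    set ψ : ℝ → ℝ := fun t => ((2 * t - a - b) / (b - a)) /
      (1 - |(2 * t - a - b) / (b - a)|) with hψ
    have hφc : Continuous φ := by
      refine continuous_const.add (continuous_const.mul (continuous_id.div
        (continuous_const.add continuous_abs) fun y => ?_))
      positivity
    have hφmem : ∀ y, φ y ∈ Ioo a b := by
      intro y
      have hpos : 0 < 1 + |y| := by positivity
      have e1 : -1 < y / (1 + |y|) := by
        rw [lt_div_iff₀ hpos]
        have := neg_abs_le y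
        linarith
      have e2 : y / (1 + |y|) < 1 := by
        rw [div_lt_one hpos]
        have := le_abs_self y
        linarith
      have e3 : 0 < (b - a) / 2 := by linarith
      simp only [hφ]
      constructor <;> nlinarith
    have hsl : ∀ t ∈ Ioo a b, |(2 * t - a - b) / (b - a)| < 1 := by
      intro t ht
      have e3 : 0 < b - a := by linarith
      rw [abs_lt, lt_div_iff₀ e3, div_lt_iff₀ e3]
      constructor <;> linarith [ht.1, ht.2]
    have hψc : ContinuousOn ψ (Ioo a b) := by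
      apply ContinuousOn.div
      · fun_prop
      · fun_prop
      · intro t ht
        have := hsl t ht
        have : 0 < 1 - |(2 * t - a - b) / (b - a)| := by linarith
        exact this.ne'
    have hφψ : ∀ t ∈ Ioo a b, φ (ψ t) = t := by
      intro t ht
      have h2 := hsl t ht
      set s := (2 * t - a - b) / (b - a) with hs
      have hbne : b - a ≠ 0 := by linarith
      have e1 : ψ t = s / (1 - |s|) := rfl
      have hpos : 0 < 1 - |s| := by linarith
      have e2 : |s / (1 - |s|)| = |s| / (1 - |s|) := by rw [abs_div, abs_of_pos hpos]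
      have e3 : (s / (1 - |s|)) / (1 + |s / (1 - |s|)|) = s := by
        rw [e2]
        have : 1 + |s| / (1 - |s|) = 1 / (1 - |s|) := by
          field_simp; ring
        rw [this]
        field_simp
      simp only [hφ]
      rw [e1, e3, hs]
      field_simp
      ring
    obtain ⟨g, hg, hgC⟩ := exists_ctrl (f := fun y => σ (φ y)) (hσ.comp hφc)
      (ϱ := fun y => ρ' (φ y)) (hρ'c.comp hφc) (fun y => hρ'pos _ (hnot _ (hφmem y))) (C := C)
      (fun y r hr hr' => hC (φ y) (hnot _ (hφmem y)) r hr (hr'.trans (min_le_left _ _)))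
    refine ⟨fun t => g (ψ t), fun _ _ => ⟨hg.comp_continuousOn hψc, fun t ht => ?_⟩⟩
    have := hgC (ψ t)
    simp only [hφψ t ht] at this
    exact this
  choose g hg using hgap
  set A : ℝ → ℝ := fun t => sSup (S ∩ Iic t) with hA
  set B : ℝ → ℝ := fun t => sInf (S ∩ Ici t) with hB
  -- properties of the gap endpoints
  have hAB : ∀ t ∉ S, A t ∈ S ∧ B t ∈ S ∧ A t < t ∧ t < B t ∧ Ioo (A t) (B t) ∩ S = ∅ := by
    intro t ht
    have ht0 : 0 < t := by
      by_contra h
      exact ht (h0 (not_lt.mp h))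
    have ht1 : t < 1 := by
      by_contra h
      exact ht (h1 (not_lt.mp h))
    have hb1 : BddAbove (S ∩ Iic t) := ⟨t, fun x hx => hx.2⟩
    have hb2 : BddBelow (S ∩ Ici t) := ⟨t, fun x hx => hx.2⟩
    have hn1 : (S ∩ Iic t).Nonempty := ⟨0, h0 (mem_Iic.mpr le_rfl), ht0.le⟩
    have hn2 : (S ∩ Ici t).Nonempty := ⟨1, h1 (mem_Ici.mpr le_rfl), ht1.le⟩
    have m1 : A t ∈ S ∩ Iic t := (hS.inter isClosed_Iic).csSup_mem hn1 hb1
    have m2 : B t ∈ S ∩ Ici t := (hS.inter isClosed_Ici).csInf_mem hn2 hb2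
    refine ⟨m1.1, m2.1, lt_of_le_of_ne m1.2 (fun h => ht (h ▸ m1.1)),
      lt_of_le_of_ne m2.2 (fun h => ht (h ▸ m2.1)), ?_⟩
    rw [eq_empty_iff_forall_notMem]
    rintro x ⟨hx, hxS⟩
    rcases le_total x t with h | h
    · exact absurd (le_csSup hb1 ⟨hxS, h⟩) (not_le.mpr hx.1)
    · exact absurd (csInf_le hb2 ⟨hxS, h⟩) (not_le.mpr hx.2)
  have hABeq : ∀ t ∉ S, ∀ x ∈ Ioo (A t) (B t), x ∉ S ∧ A x = A t ∧ B x = B t := by
    intro t ht x hx
    obtain ⟨q1, q2, q3, q4, q5⟩ := hAB t ht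
    have hxS : x ∉ S := fun h => by
      have : x ∈ Ioo (A t) (B t) ∩ S := ⟨hx, h⟩
      rw [q5] at this; exact this
    obtain ⟨r1, r2, r3, r4, r5⟩ := hAB x hxS
    refine ⟨hxS, ?_, ?_⟩
    · apply le_antisymm
      · by_contra hcon
        push Not at hcon
        have : A x ∈ Ioo (A t) (B t) ∩ S := ⟨⟨hcon, r3.trans hx.2⟩, r1⟩
        rw [q5] at this; exact this
      · exact le_csSup ⟨x, fun y hy => hy.2⟩ ⟨q1, hx.1.le⟩
    · apply le_antisymm
      · exact csInf_le ⟨x, fun y hy => hy.2⟩ ⟨q2, hx.2.le⟩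
      · by_contra hcon
        push Not at hcon
        have : B x ∈ Ioo (A t) (B t) ∩ S := ⟨⟨hx.1.trans r4, hcon⟩, r2⟩
        rw [q5] at this; exact this
  set τ : ℝ → X := fun t => if t ∈ S then σ t else g (A t, B t) t with hτ
  have hτS : ∀ t ∈ S, τ t = σ t := fun t ht => by simp only [hτ, if_pos ht]
  have hτn : ∀ t ∉ S, τ t ∉ C ∧ dist (τ t) (σ t) ≤ ρ' t := by
    intro t ht
    obtain ⟨q1, q2, q3, q4, q5⟩ := hAB t ht
    have := (hg (A t, B t) (q3.trans q4) q5).2 t ⟨q3, q4⟩
    simp only [hτ, if_neg ht]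
    exact this
  refine ⟨τ, ?_, hτS, fun t ht => (hτn t ht).1, fun t ht => (hτn t ht).2.trans (min_le_left _ _)⟩
  rw [continuous_iff_continuousAt]
  intro t
  by_cases ht : t ∈ S
  · -- distance estimate
    rw [Metric.continuousAt_iff]
    intro ε hε
    obtain ⟨δ, hδ, hδσ⟩ := Metric.continuousAt_iff.mp hσ.continuousAt (ε / 2) (by positivity)
    refine ⟨min δ (ε / 2), by positivity, fun x hx => ?_⟩
    rw [hτS t ht]
    have hx1 : dist (σ x) (σ t) < ε / 2 := hδσ (hx.trans_le (min_le_left _ _))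
    by_cases hxS : x ∈ S
    · rw [hτS x hxS]; linarith
    · have e1 := (hτn x hxS).2
      have e2 : ρ' x ≤ dist x t := (min_le_right _ _).trans (Metric.infDist_le_dist_of_mem ht)
      have e3 : dist x t < ε / 2 := hx.trans_le (min_le_right _ _)
      calc dist (τ x) (σ t) ≤ dist (τ x) (σ x) + dist (σ x) (σ t) := dist_triangle _ _ _
        _ < ε := by linarith
  · obtain ⟨q1, q2, q3, q4, q5⟩ := hAB t ht
    have hc := (hg (A t, B t) (q3.trans q4) q5).1
    have hnh : Ioo (A t) (B t) ∈ 𝓝 t := Ioo_mem_nhds q3 q4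
    refine (hc.continuousAt hnh).congr ?_
    filter_upwards [hnh] with x hx
    obtain ⟨w1, w2, w3⟩ := hABeq t ht x hx
    simp only [hτ, if_neg w1, w2, w3]

end

end Pool.Agent.MCP
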