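import Mathlib
import Pool.Agent.MCP.Brou

/-!
# Closed sets of covering dimension at most `n - 2` do not separate open subsets of `ℝ^n`
-/

set_option autoImplicit false

open Set Filter Topology

namespace Pool.Agent.MCP

variable {n m : ℕ}

theorem interior_eq_empty_of_covLE (hm : m < n) {C : Set (EuclideanSpace ℝ (Fin n))}
    (hcov : CovLE m C) : interior C = ∅ := by
  rw [← not_nonempty_iff_eq_empty]
  rintro ⟨x, hx⟩
  obtain ⟨r, hr, hrC⟩ := Metric.isOpen_iff.mp isOpen_interior x hx
  have h1 : Metric.closedBall x (r / 2) ⊆ C :=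
    ((Metric.closedBall_subset_ball (by linarith)).trans hrC).trans interior_subset
  have h2 : frontier (Metric.ball x (r / 2)) ⊆ Metric.closedBall x (r / 2) :=
    frontier_subset_closure.trans Metric.closure_ball_subset_closedBall
  exact not_covLE_frontier hm Metric.isOpen_ball ⟨x, Metric.mem_ball_self (by positivity)⟩
    Metric.isBounded_ball (hcov.closed_subset (h2.trans h1) isClosed_frontier)

/-- Rotation about `b` moving `a` to `s`. -/
theorem exists_rotation (b a s : EuclideanSpace ℝ (Fin n)) (h : dist a b = dist s b) :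
    ∃ ρ : EuclideanSpace ℝ (Fin n) ≃ₜ EuclideanSpace ℝ (Fin n), ρ a = s ∧ ρ b = b ∧
      ∀ x, dist (ρ x) b = dist x b := by
  set R := Submodule.reflection (ℝ ∙ ((a - b) - (s - b)))ᗮ with hR
  have hRa : R (a - b) = s - b := Submodule.reflection_sub (by rwa [dist_eq_norm, dist_eq_norm] at h)
  refine ⟨((Homeomorph.addRight (-b)).trans R.toHomeomorph).trans (Homeomorph.addRight b), ?_, ?_, ?_⟩
  · show R (a + -b) + b = s
    rw [← sub_eq_add_neg, hRa]; abel
  · show R (b + -b) + b = b
    simp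
  · intro x
    show dist (R (x + -b) + b) b = dist x b
    rw [dist_eq_norm, dist_eq_norm, add_sub_cancel_right, LinearIsometryEquiv.norm_map,
      ← sub_eq_add_neg]

theorem isPreconnected_diff (hm : m < n) {C : Set (EuclideanSpace ℝ (Fin n))} (hC : IsClosed C)
    (hcov : CovLE m C) {U : Set (EuclideanSpace ℝ (Fin n))} (hU : IsOpen U)
    (hUc : IsPreconnected U) : IsPreconnected (U \ C) := by
  classical
  have hempty := interior_eq_empty_of_covLE hm hcov
  have hUC : IsOpen (U \ C) := hU.sdiff hC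
  rw [isPreconnected_iff_subset_of_disjoint]
  intro A' B' hA' hB' hsub hdisj
  by_contra hcon
  push Not at hcon
  obtain ⟨hcA, hcB⟩ := hcon
  -- the two open pieces
  set A := (U \ C) ∩ A' with hA
  set B := (U \ C) ∩ B' with hB
  have hAo : IsOpen A := hUC.inter hA'
  have hBo : IsOpen B := hUC.inter hB'
  have hAB : Disjoint A B := by
    rw [Set.disjoint_iff_inter_eq_empty, ← hdisj]
    ext x
    simp only [hA, hB, mem_inter_iff]
    tauto
  have hAne : A.Nonempty := by
    obtain ⟨x, hx, hxB⟩ := not_subset.mp hcB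
    exact ⟨x, hx, (hsub hx).resolve_right hxB⟩
  have hBne : B.Nonempty := by
    obtain ⟨x, hx, hxA⟩ := not_subset.mp hcA
    exact ⟨x, hx, (hsub hx).resolve_left hxA⟩
  have hcovAB : U \ C ⊆ A ∪ B := fun x hx => (hsub hx).imp (fun h => ⟨hx, h⟩) (fun h => ⟨hx, h⟩)
  -- density
  have hdense : U ⊆ closure A ∪ closure B := by
    rw [← closure_union]
    intro x hx
    rw [mem_closure_iff]
    intro O hO hxO
    have h1 : ¬ (O ∩ U) ⊆ C := by
      intro h
      have h2 : O ∩ U ⊆ interior C := interior_maximal h (hO.inter hU)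
      rw [hempty] at h2
      exact h2 ⟨hxO, hx⟩
    obtain ⟨y, hy, hyC⟩ := not_subset.mp h1
    exact ⟨y, hy.1, hcovAB ⟨hy.2, hyC⟩⟩
  obtain ⟨p, hpU, hpA, hpB⟩ : ∃ p ∈ U, p ∈ closure A ∧ p ∈ closure B := by
    have h1 := (isPreconnected_closed_iff.mp hUc) (closure A) (closure B) isClosed_closure
      isClosed_closure hdense
      (hAne.mono fun x hx => ⟨hx.1.1, subset_closure hx⟩)
      (hBne.mono fun x hx => ⟨hx.1.1, subset_closure hx⟩)
    obtain ⟨p, hp, hp2⟩ := h1
    exact ⟨p, hp, hp2.1, hp2.2⟩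
  obtain ⟨r, hr, hrU⟩ := Metric.isOpen_iff.mp hU p hpU
  obtain ⟨a, haA, hap⟩ := Metric.mem_closure_iff.mp hpA (r / 3) (by positivity)
  obtain ⟨b, hbB, hbp⟩ := Metric.mem_closure_iff.mp hpB (r / 3) (by positivity)
  set δ := dist a b with hδ
  have hδlt : δ < 2 * (r / 3) := by
    calc dist a b ≤ dist a p + dist p b := dist_triangle _ _ _
      _ < r / 3 + r / 3 := by rw [dist_comm a p]; linarith
      _ = 2 * (r / 3) := by ring
  have hδ0 : 0 < δ := dist_pos.mpr fun h => (Set.disjoint_left.mp hAB) haA (h ▸ hbB)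
  have hballU : Metric.closedBall b δ ⊆ U := by
    intro x hx
    apply hrU
    rw [Metric.mem_ball]
    rw [Metric.mem_closedBall] at hx
    calc dist x p ≤ dist x b + dist b p := dist_triangle _ _ _
      _ < 2 * (r / 3) + r / 3 := by rw [dist_comm b p]; linarith
      _ = r := by ring
  -- frontier of `A` inside `U`
  have hfrA : ∀ x ∈ U, x ∈ closure A → x ∉ A → x ∈ C := by
    intro x hxU hxcl hxA
    by_contra hxC
    rcases hcovAB ⟨hxU, hxC⟩ with h | h
    · exact hxA h
    · obtain ⟨y, hyB, hyA⟩ := mem_closure_iff.mp hxcl B hBo h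
      exact (Set.disjoint_left.mp hAB) hyA hyB
  have hbA : b ∉ closure A := by
    intro h
    obtain ⟨y, hyB, hyA⟩ := mem_closure_iff.mp h B hBo hbB
    exact (Set.disjoint_left.mp hAB) hyA hyB
  -- rotations
  have hrot : ∀ s : Metric.sphere b δ, ∃ ρ : EuclideanSpace ℝ (Fin n) ≃ₜ EuclideanSpace ℝ (Fin n),
      ρ a = s ∧ ρ b = b ∧ ∀ x, dist (ρ x) b = dist x b := fun s =>
    exists_rotation b a s (by rw [Metric.mem_sphere.mp s.2])
  choose ρ hρa hρb hρd using hrot
  have hOo : ∀ s, IsOpen (ρ s '' A) := fun s => (ρ s).isOpenMap _ hAo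
  obtain ⟨t, ht⟩ := (isCompact_sphere b δ).elim_finite_subcover (fun s => ρ s '' A) hOo
    (fun s hs => mem_iUnion.mpr ⟨⟨s, hs⟩, a, haA, hρa ⟨s, hs⟩⟩)
  set V : Set (EuclideanSpace ℝ (Fin n)) := Metric.ball b δ \ ⋃ s ∈ t, closure (ρ s '' A) with hV
  have hVo : IsOpen V := Metric.isOpen_ball.sdiff
    (t.finite_toSet.isClosed_biUnion fun _ _ => isClosed_closure)
  have hbV : b ∈ V := by
    refine ⟨Metric.mem_ball_self hδ0, ?_⟩
    simp only [mem_iUnion, not_exists]
    intro s _ hb
    rw [← (ρ s).image_closure] at hb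
    obtain ⟨y, hy, hyb⟩ := hb
    rw [← hρb s] at hyb
    have := (ρ s).injective hyb
    rw [this] at hy
    exact hbA hy
  have hVcl : closure V ⊆ Metric.closedBall b δ :=
    closure_minimal (sdiff_subset.trans Metric.ball_subset_closedBall) Metric.isClosed_closedBall
  have hfr : frontier V ⊆ ⋃ s ∈ t, ρ s '' C := by
    intro x hx
    rw [hVo.frontier_eq] at hx
    obtain ⟨hxcl, hxV⟩ := hx
    have hxO : ∀ s ∈ t, x ∉ ρ s '' A := by
      intro s hs hxs
      obtain ⟨y, hy1, hy2⟩ := mem_closure_iff.mp hxcl _ (hOo s) hxs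
      apply hy2.2
      simp only [mem_iUnion]
      exact ⟨s, hs, subset_closure hy1⟩
    have hxcb := hVcl hxcl
    have hxball : x ∈ Metric.ball b δ := by
      rw [Metric.mem_ball]
      rw [Metric.mem_closedBall] at hxcb
      refine lt_of_le_of_ne hxcb fun h => ?_
      have h1 := ht (Metric.mem_sphere.mpr h)
      simp only [mem_iUnion] at h1
      obtain ⟨s, hs, hxs⟩ := h1
      exact hxO s hs hxs
    have hxin : x ∈ ⋃ s ∈ t, closure (ρ s '' A) := by
      by_contra hcon
      exact hxV ⟨hxball, hcon⟩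
    simp only [mem_iUnion] at hxin ⊢
    obtain ⟨s, hs, hxs⟩ := hxin
    refine ⟨s, hs, ?_⟩
    rw [← (ρ s).image_closure] at hxs
    obtain ⟨y, hy, hyx⟩ := hxs
    refine ⟨y, hfrA y ?_ hy ?_, hyx⟩
    · apply hballU
      rw [Metric.mem_closedBall, ← hρd s y, hyx]
      exact hxcb
    · intro hyA
      exact hxO s hs ⟨y, hyA, hyx⟩
  have hcovF : CovLE m (frontier V) := by
    refine CovLE.closed_subset (CovLE.biUnion t (fun s _ => hcov.image_homeomorph (ρ s))
      (fun s _ => (ρ s).isClosedMap _ hC)) hfr isClosed_frontier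
  exact not_covLE_frontier hm hVo ⟨b, hbV⟩ (Metric.isBounded_ball.subset sdiff_subset) hcovF

/-- Path version. -/
theorem isPathConnected_diff (hm : m < n) {C : Set (EuclideanSpace ℝ (Fin n))} (hC : IsClosed C)
    (hcov : CovLE m C) {U : Set (EuclideanSpace ℝ (Fin n))} (hU : IsOpen U)
    (hUc : IsConnected U) : IsPathConnected (U \ C) := by
  rw [← (hU.sdiff hC).isConnected_iff_isPathConnected]
  refine ⟨?_, isPreconnected_diff hm hC hcov hU hUc.isPreconnected⟩
  by_contra hcon
  rw [not_nonempty_iff_eq_empty, sdiff_eq_empty] at hcon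
  have h1 := interior_maximal hcon hU
  rw [interior_eq_empty_of_covLE hm hcov] at h1
  obtain ⟨x, hx⟩ := hUc.nonempty
  exact h1 hx

end Pool.Agent.MCP
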