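import Mathlib
import Pool.Agent.MCP.Sim

/-!
# Maps of one-dimensional compacta missing a closed set of codimension two
-/

set_option autoImplicit false

open Set Filter Topology

namespace Pool.Agent.MCP

theorem continuous_cone {X E : Type*} [TopologicalSpace X] [NormedAddCommGroup E]
    [NormedSpace ℝ E] {p q : X → ℝ} (hp : Continuous p) (hq : Continuous q) (hp0 : ∀ x, 0 ≤ p x)
    (hq0 : ∀ x, 0 ≤ q x) {δ : ℝ → E} (hδ : Continuous δ) :
    Continuous fun x => (p x + q x) • δ (q x / (p x + q x)) := by
  obtain ⟨M, hM⟩ := (isCompact_Icc (a := (0 : ℝ)) (b := 1)).exists_bound_of_continuousOn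
    hδ.continuousOn
  rw [continuous_iff_continuousAt]
  intro x
  by_cases hx : p x + q x = 0
  · rw [ContinuousAt, hx, zero_smul]
    have h1 : Tendsto (fun y => (p y + q y) * M) (𝓝 x) (𝓝 ((p x + q x) * M)) :=
      ((hp.add hq).mul continuous_const).tendsto x
    rw [hx, zero_mul] at h1
    refine squeeze_zero_norm (fun y => ?_) h1
    have h2 : 0 ≤ p y + q y := add_nonneg (hp0 y) (hq0 y)
    rw [norm_smul, Real.norm_eq_abs, abs_of_nonneg h2]
    gcongr
    apply hM
    refine ⟨div_nonneg (hq0 y) h2, ?_⟩
    apply div_le_one_of_le₀ _ h2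
    linarith [hp0 y]
  · exact ((hp.add hq).continuousAt).smul (hδ.continuousAt.comp
      (hq.continuousAt.div (hp.add hq).continuousAt hx))

variable {n : ℕ}

theorem exists_avoid (hn : 0 < n) {G C : Set (Fin n → ℝ)} (hG : IsCompact G) (hcov : CovLE 2 G)
    (hpath : ∀ x : Fin n → ℝ, ∀ r : ℝ, 0 < r → IsPathConnected (Metric.ball x r \ C)) {ε : ℝ}
    (hε : 0 < ε) :
    ∃ α : (Fin n → ℝ) → (Fin n → ℝ), ContinuousOn α G ∧ (∀ x ∈ G, dist (α x) x ≤ ε) ∧
      ∀ x ∈ G, α x ∉ C := by
  classical
  have : Nonempty (Fin n) := ⟨⟨0, hn⟩⟩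
  have : Nontrivial (Fin n → ℝ) := by infer_instance
  set r : ℝ := ε / 4 with hr
  have hr0 : 0 < r := by positivity
  obtain ⟨t, htC, hfin, htcov⟩ := hG.finite_cover_balls hr0
  have : Fintype t := hfin.fintype
  obtain ⟨N, c, hccov⟩ : ∃ (N : ℕ) (c : Fin N → (Fin n → ℝ)), G ⊆ ⋃ i, Metric.ball (c i) r := by
    refine ⟨Fintype.card t, fun i => ((Fintype.equivFin t).symm i : t), ?_⟩
    intro x hx
    have := htcov hx
    simp only [mem_iUnion] at this
    obtain ⟨y, hy, hxy⟩ := this
    exact mem_iUnion.mpr ⟨Fintype.equivFin t ⟨y, hy⟩, by simpa using hxy⟩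
  obtain ⟨W, hWo, hWb, hWc, hWord⟩ := hcov (Fin N) (fun i => Metric.ball (c i) r)
    (fun i => Metric.isOpen_ball) hccov
  -- the weights
  set w : Fin N → (Fin n → ℝ) → ℝ := fun i x => Metric.infDist x (W i)ᶜ with hw
  have hwc : ∀ i, Continuous (w i) := fun i => Metric.continuous_infDist_pt _
  have hw0 : ∀ i x, 0 ≤ w i x := fun i x => Metric.infDist_nonneg
  have hwout : ∀ i x, x ∉ W i → w i x = 0 := fun i x hx => Metric.infDist_zero_of_mem hx
  have hWne : ∀ i, ((W i)ᶜ).Nonempty := by
    intro i
    by_contra h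
    rw [not_nonempty_iff_eq_empty, compl_empty_iff] at h
    have h1 := hWb i
    rw [h] at h1
    exact NormedSpace.unbounded_univ ℝ (Fin n → ℝ) (Metric.isBounded_ball.subset h1)
  have hwin : ∀ i x, x ∈ W i → 0 < w i x := by
    intro i x hx
    have hcl : IsClosed (W i)ᶜ := (hWo i).isClosed_compl
    exact (hcl.notMem_iff_infDist_pos (hWne i)).mp (fun h => h hx)
  -- the vertices and the paths
  have hy : ∀ i, ∃ y, y ∈ Metric.ball (c i) r \ C := fun i => (hpath (c i) r hr0).nonempty
  choose y hy using hy
  have hγ : ∀ i j, ∃ γ : ℝ → (Fin n → ℝ), Continuous γ ∧ γ 0 = y i ∧ γ 1 = y j ∧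
      (dist (c i) (c j) < 2 * r → ∀ s, γ s ∈ Metric.ball (c i) (3 * r) \ C) := by
    intro i j
    by_cases hd : dist (c i) (c j) < 2 * r
    · have h1 : y i ∈ Metric.ball (c i) (3 * r) \ C :=
        ⟨Metric.ball_subset_ball (by linarith) (hy i).1, (hy i).2⟩
      have h2 : y j ∈ Metric.ball (c i) (3 * r) \ C := by
        refine ⟨?_, (hy j).2⟩
        have h3 := (hy j).1
        rw [Metric.mem_ball] at h3 ⊢
        calc dist (y j) (c i) ≤ dist (y j) (c j) + dist (c j) (c i) := dist_triangle _ _ _
          _ < r + 2 * r := by rw [dist_comm (c j)]; linarith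
          _ = 3 * r := by ring
      have h3 := (hpath (c i) (3 * r) (by positivity)).joinedIn _ h1 _ h2
      refine ⟨h3.somePath.extend, h3.somePath.continuous_extend, ?_, ?_, fun _ s => ?_⟩
      · exact h3.somePath.extend_zero
      · exact h3.somePath.extend_one
      · obtain ⟨s', hs'⟩ := h3.somePath.extend_range ▸ mem_range_self (f := h3.somePath.extend) s
        rw [← hs']
        exact h3.somePath_mem s'
    · refine ⟨fun s => (1 - s) • y i + s • y j, ?_, by simp, by simp, fun h => absurd h hd⟩
      exact ((continuous_const.sub continuous_id).smul continuous_const).add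
        (continuous_id.smul continuous_const)
  choose γ hγc hγ0 hγ1 hγC using hγ
  set δ : Fin N → Fin N → ℝ → (Fin n → ℝ) := fun i j s =>
    γ i j s - ((1 - s) • y i + s • y j) with hδ
  have hδc : ∀ i j, Continuous (δ i j) := fun i j =>
    (hγc i j).sub (((continuous_const.sub continuous_id).smul continuous_const).add
        (continuous_id.smul continuous_const))
  have hδ0 : ∀ i j, δ i j 0 = 0 := fun i j => by simp [hδ, hγ0]
  have hδ1 : ∀ i j, δ i j 1 = 0 := fun i j => by simp [hδ, hγ1]
  set P : Finset (Fin N × Fin N) := Finset.univ.filter (fun p => p.1 < p.2) with hP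
  set term : Fin N × Fin N → (Fin n → ℝ) → (Fin n → ℝ) := fun p x =>
    (w p.1 x + w p.2 x) • δ p.1 p.2 (w p.2 x / (w p.1 x + w p.2 x)) with hterm
  have htermc : ∀ p, Continuous (term p) := fun p =>
    continuous_cone (hwc _) (hwc _) (hw0 _) (hw0 _) (hδc _ _)
  have hterm0 : ∀ p x, (w p.1 x = 0 ∨ w p.2 x = 0) → term p x = 0 := by
    intro p x h
    simp only [hterm]
    by_cases h2 : w p.2 x = 0
    · rw [h2, zero_div, hδ0, smul_zero]
    · have h1 : w p.1 x = 0 := h.resolve_right h2
      rw [h1, zero_add, div_self h2, hδ1, smul_zero]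
  set s : (Fin n → ℝ) → ℝ := fun x => ∑ i, w i x with hs
  have hsc : Continuous s := continuous_finsetSum _ fun i _ => hwc i
  have hspos : ∀ x ∈ G, 0 < s x := by
    intro x hx
    obtain ⟨i, hi⟩ := mem_iUnion.mp (hWc hx)
    exact Finset.sum_pos' (fun j _ => hw0 j x) ⟨i, Finset.mem_univ _, hwin i x hi⟩
  set α : (Fin n → ℝ) → (Fin n → ℝ) := fun x =>
    (s x)⁻¹ • ((∑ i, w i x • y i) + ∑ p ∈ P, term p x) with hα
  -- the values
  have hval : ∀ x ∈ G, ∃ i, x ∈ W i ∧ α x ∈ Metric.ball (c i) (3 * r) \ C := by
    intro x hx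
    set S : Finset (Fin N) := Finset.univ.filter (fun i => x ∈ W i) with hS
    have hScard : S.card ≤ 2 := hWord x hx S fun i hi => (Finset.mem_filter.mp hi).2
    have hSmem : ∀ i, i ∉ S → w i x = 0 := fun i hi => hwout i x fun h =>
      hi (Finset.mem_filter.mpr ⟨Finset.mem_univ _, h⟩)
    have hSne : S.Nonempty := by
      obtain ⟨i, hi⟩ := mem_iUnion.mp (hWc hx)
      exact ⟨i, Finset.mem_filter.mpr ⟨Finset.mem_univ _, hi⟩⟩
    have hcase : S.card = 1 ∨ S.card = 2 := by
      have := hSne.card_pos
      omega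
    rcases hcase with h1 | h2
    · obtain ⟨i, hi⟩ := Finset.card_eq_one.mp h1
      have hiW : x ∈ W i := by
        have : i ∈ S := by rw [hi]; simp
        exact (Finset.mem_filter.mp this).2
      have hother : ∀ j, j ≠ i → w j x = 0 := fun j hj => hSmem j (by rw [hi]; simpa using hj)
      have e1 : ∑ j, w j x • y j = w i x • y i :=
        Finset.sum_eq_single i (fun j _ hj => by rw [hother j hj, zero_smul])
          (fun h => absurd (Finset.mem_univ _) h)
      have e2 : s x = w i x :=
        Finset.sum_eq_single i (fun j _ hj => hother j hj) (fun h => absurd (Finset.mem_univ _) h)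
      have e3 : ∑ p ∈ P, term p x = 0 := by
        apply Finset.sum_eq_zero
        intro p hp
        apply hterm0
        have hlt : p.1 < p.2 := (Finset.mem_filter.mp hp).2
        by_cases h : p.1 = i
        · right; exact hother _ (fun h' => by rw [h, h'] at hlt; exact lt_irrefl _ hlt)
        · left; exact hother _ h
      have e4 : α x = y i := by
        simp only [hα]
        rw [e1, e2, e3, add_zero, smul_smul, inv_mul_cancel₀ (hwin i x hiW).ne', one_smul]
      refine ⟨i, hiW, ?_⟩
      rw [e4]
      exact ⟨Metric.ball_subset_ball (by linarith) (hy i).1, (hy i).2⟩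
    · obtain ⟨a, b, hab, hSab⟩ := Finset.card_eq_two.mp h2
      obtain ⟨i, j, hij, hSij⟩ : ∃ i j, i < j ∧ S = {i, j} := by
        rcases lt_or_gt_of_ne hab with h | h
        · exact ⟨a, b, h, hSab⟩
        · exact ⟨b, a, h, by rw [hSab, Finset.pair_comm]⟩
      have hiW : x ∈ W i := by
        have : i ∈ S := by rw [hSij]; simp
        exact (Finset.mem_filter.mp this).2
      have hjW : x ∈ W j := by
        have : j ∈ S := by rw [hSij]; simp
        exact (Finset.mem_filter.mp this).2
      have hother : ∀ l, l ≠ i → l ≠ j → w l x = 0 := fun l hl hl' =>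
        hSmem l (by rw [hSij]; simp [hl, hl'])
      have e1 : ∑ l, w l x • y l = w i x • y i + w j x • y j :=
        Finset.sum_eq_add i j hij.ne (fun l _ hl => by rw [hother l hl.1 hl.2, zero_smul])
          (fun h => absurd (Finset.mem_univ _) h) (fun h => absurd (Finset.mem_univ _) h)
      have e2 : s x = w i x + w j x :=
        Finset.sum_eq_add i j hij.ne (fun l _ hl => hother l hl.1 hl.2)
          (fun h => absurd (Finset.mem_univ _) h) (fun h => absurd (Finset.mem_univ _) h)
      have e3 : ∑ p ∈ P, term p x = term (i, j) x := by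
        apply Finset.sum_eq_single
        · intro p hp hpne
          apply hterm0
          have hlt : p.1 < p.2 := (Finset.mem_filter.mp hp).2
          by_contra hcon
          push Not at hcon
          obtain ⟨h1, h2⟩ := hcon
          have k1 : p.1 = i ∨ p.1 = j := by
            by_contra h; push Not at h; exact h1 (hother _ h.1 h.2)
          have k2 : p.2 = i ∨ p.2 = j := by
            by_contra h; push Not at h; exact h2 (hother _ h.1 h.2)
          apply hpne
          rcases k1 with k1 | k1 <;> rcases k2 with k2 | k2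
          · rw [k1, k2] at hlt; exact absurd hlt (lt_irrefl _)
          · exact Prod.ext k1 k2
          · rw [k1, k2] at hlt; exact absurd (hlt.trans hij) (lt_irrefl _)
          · rw [k1, k2] at hlt; exact absurd hlt (lt_irrefl _)
        · intro h
          exact absurd (show (i, j) ∈ P by simp [hP, hij]) h
      have hsx : 0 < w i x + w j x := by rw [← e2]; exact hspos x hx
      have e4 : α x = γ i j (w j x / (w i x + w j x)) := by
        simp only [hα]
        rw [e1, e2, e3]
        simp only [hterm, hδ]
        rw [smul_add, smul_add, smul_smul, smul_smul, smul_smul, inv_mul_cancel₀ hsx.ne', one_smul]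
        have f1 : (w i x + w j x)⁻¹ * w i x = 1 - w j x / (w i x + w j x) := by
          field_simp; ring
        have f2 : (w i x + w j x)⁻¹ * w j x = w j x / (w i x + w j x) := by
          rw [div_eq_inv_mul]
        rw [f1, f2]
        abel
      refine ⟨i, hiW, ?_⟩
      rw [e4]
      apply hγC
      have g1 := hWb i hiW
      have g2 := hWb j hjW
      rw [Metric.mem_ball] at g1 g2
      calc dist (c i) (c j) ≤ dist (c i) x + dist x (c j) := dist_triangle _ _ _
        _ < r + r := by rw [dist_comm (c i)]; linarith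
        _ = 2 * r := by ring
  refine ⟨α, ?_, fun x hx => ?_, fun x hx => ?_⟩
  · have k1 : ContinuousOn (fun x => (s x)⁻¹) G :=
      hsc.continuousOn.inv₀ fun x hx => (hspos x hx).ne'
    have k2 : Continuous (fun x => (∑ i, w i x • y i) + ∑ p ∈ P, term p x) :=
      (continuous_finsetSum _ fun i _ => (hwc i).smul continuous_const).add
        (continuous_finsetSum _ fun p _ => htermc p)
    exact k1.smul k2.continuousOn
  · obtain ⟨i, hi, hαi⟩ := hval x hx
    have h1 := hαi.1
    have h2 := hWb i hi
    rw [Metric.mem_ball] at h1 h2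
    calc dist (α x) x ≤ dist (α x) (c i) + dist (c i) x := dist_triangle _ _ _
      _ ≤ 3 * r + r := by rw [dist_comm (c i)]; linarith
      _ = ε := by rw [hr]; ring
  · obtain ⟨i, _, hαi⟩ := hval x hx
    exact hαi.2

/-- Complements of closed sets of covering dimension at most `n - 2` in balls of the sup norm. -/
theorem isPathConnected_ball_diff {m : ℕ} (hm : m < n) {C : Set (Fin n → ℝ)} (hC : IsClosed C)
    (hcov : CovLE m C) (x : Fin n → ℝ) {r : ℝ} (hr : 0 < r) :
    IsPathConnected (Metric.ball x r \ C) := by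
  set e := (EuclideanSpace.equiv (Fin n) ℝ).toHomeomorph with he
  have hconn : IsConnected (Metric.ball x r) :=
    ⟨⟨x, Metric.mem_ball_self hr⟩, (convex_ball x r).isPreconnected⟩
  have h1 := isPathConnected_diff hm (e.symm.isClosedMap _ hC) (hcov.image_homeomorph e.symm)
    (e.symm.isOpenMap _ Metric.isOpen_ball) (hconn.image e.symm e.symm.continuous.continuousOn)
  have h2 := h1.image e.continuous
  have h3 : e '' (e.symm '' Metric.ball x r \ e.symm '' C) = Metric.ball x r \ C := by
    rw [← image_sdiff e.symm.injective, ← image_comp]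
    have : (e ∘ e.symm) = id := by funext z; simp
    rw [this, image_id]
  rwa [h3] at h2

end Pool.Agent.MCP
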