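import Mathlib
import Pool.Agent.MCP.Glue
import Pool.Agent.MCP.Nerve

/-!
# Sets with path connected complement in every region
-/

set_option autoImplicit false

open Set Filter Topology

namespace Pool.Agent.MCP

/-- every region minus `Y` is path connected -/
def LPc {E : Type*} [TopologicalSpace E] (Y : Set E) : Prop :=
  ∀ U : Set E, IsOpen U → IsConnected U → IsPathConnected (U \ Y)

section
variable {E : Type*} [NormedAddCommGroup E] [NormedSpace ℝ E]

/-- It is enough to look at the regions which miss a closed set disjoint from `Y`. -/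
theorem lpc_of_closed {R Y : Set E} (hR : IsClosed R) (hRY : Disjoint R Y)
    (h : ∀ U : Set E, IsOpen U → IsConnected U → Disjoint U R → IsPathConnected (U \ Y)) :
    LPc Y := by
  intro U hU hUc
  by_cases hUR : Disjoint U R
  · exact h U hU hUc hUR
  rw [Set.not_disjoint_iff] at hUR
  obtain ⟨p, hpU, hpR⟩ := hUR
  rw [isPathConnected_iff]
  refine ⟨⟨p, hpU, fun hpY => Set.disjoint_left.mp hRY hpR hpY⟩, ?_⟩
  intro x hx y hy
  have hUpc : IsPathConnected U := (hU.isConnected_iff_isPathConnected).mp hUc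
  have hj := hUpc.joinedIn x hx.1 y hy.1
  set σ : ℝ → E := fun t => hj.somePath.extend t with hσ
  have hσc : Continuous σ := hj.somePath.continuous_extend
  have hσ0 : σ 0 = x := hj.somePath.extend_zero
  have hσ1 : σ 1 = y := hj.somePath.extend_one
  have hσU : ∀ t, σ t ∈ U := by
    intro t
    obtain ⟨s', hs'⟩ := hj.somePath.extend_range ▸ mem_range_self (f := hj.somePath.extend) t
    show hj.somePath.extend t ∈ U
    rw [← hs']
    exact hj.somePath_mem s'
  set N : Set E := R ∪ Uᶜ with hN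
  have hNc : IsClosed N := hR.union hU.isClosed_compl
  have hNne : N.Nonempty := ⟨p, Or.inl hpR⟩
  set S : Set ℝ := {t | σ t ∈ R} ∪ Iic 0 ∪ Ici 1 with hS
  have hSc : IsClosed S := ((hR.preimage hσc).union isClosed_Iic).union isClosed_Ici
  set ρ : ℝ → ℝ := fun t => Metric.infDist (σ t) N / 2 with hρ
  have hρc : Continuous ρ := ((Metric.continuous_infDist_pt N).comp hσc).div_const 2
  have hnotN : ∀ t ∉ S, σ t ∉ N := by
    rintro t ht (h1 | h1)
    · exact ht (Or.inl (Or.inl h1))
    · exact h1 (hσU t)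
  have hρpos : ∀ t ∉ S, 0 < ρ t := by
    intro t ht
    have := (hNc.notMem_iff_infDist_pos hNne).mp (hnotN t ht)
    simp only [hρ]
    linarith
  obtain ⟨τ, hτc, hτS, hτC, hτd⟩ := glue hσc hSc (fun t ht => Or.inl (Or.inr ht))
    (fun t ht => Or.inr ht) hρc hρpos (C := Y) (by
      intro t ht r hr hrρ
      apply h
      · exact Metric.isOpen_ball
      · exact ⟨⟨σ t, Metric.mem_ball_self hr⟩, (convex_ball _ _).isPreconnected⟩
      · rw [Set.disjoint_left]
        intro z hz hzR
        have h1 : Metric.infDist (σ t) N ≤ dist (σ t) z :=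
          Metric.infDist_le_dist_of_mem (Or.inl hzR)
        rw [Metric.mem_ball, dist_comm] at hz
        have h2 : ρ t = Metric.infDist (σ t) N / 2 := rfl
        have h3 := hρpos t ht
        linarith)
  have h0 : τ 0 = x := by rw [hτS 0 (Or.inl (Or.inr (mem_Iic.mpr le_rfl))), hσ0]
  have h1 : τ 1 = y := by rw [hτS 1 (Or.inr (mem_Ici.mpr le_rfl)), hσ1]
  refine JoinedIn.ofLine hτc.continuousOn h0 h1 ?_
  rintro _ ⟨t, ht, rfl⟩
  by_cases htS : t ∈ S
  · rcases htS with (h2 | h2) | h2
    · rw [hτS t (Or.inl (Or.inl h2))]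
      exact ⟨hσU t, fun h3 => Set.disjoint_left.mp hRY h2 h3⟩
    · have : t = 0 := le_antisymm h2 ht.1
      rw [this, h0]; exact hx
    · have : t = 1 := le_antisymm ht.2 h2
      rw [this, h1]; exact hy
  · refine ⟨?_, hτC t htS⟩
    by_contra hcon
    have h2 : Metric.infDist (σ t) N ≤ dist (σ t) (τ t) :=
      Metric.infDist_le_dist_of_mem (Or.inr hcon)
    have h3 := hτd t htS
    rw [dist_comm] at h3
    have h4 : ρ t = Metric.infDist (σ t) N / 2 := rfl
    have h5 := hρpos t htS
    linarith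

/-- It is enough that the balls minus a larger set are path connected. -/
theorem lpc_of_balls {C Y : Set E} (hYC : Y ⊆ C)
    (hC : ∀ x : E, ∀ r : ℝ, 0 < r → IsPathConnected (Metric.ball x r \ C)) : LPc Y := by
  intro U hU hUc
  have hne : (U \ Y).Nonempty := by
    obtain ⟨p, hp⟩ := hUc.nonempty
    obtain ⟨r, hr, hrU⟩ := Metric.isOpen_iff.mp hU p hp
    obtain ⟨q, hq⟩ := (hC p r hr).nonempty
    exact ⟨q, hrU hq.1, fun h => hq.2 (hYC h)⟩
  rw [isPathConnected_iff]
  refine ⟨hne, ?_⟩
  intro x hx y hy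
  have hUpc : IsPathConnected U := (hU.isConnected_iff_isPathConnected).mp hUc
  have hj := hUpc.joinedIn x hx.1 y hy.1
  set σ : ℝ → E := fun t => hj.somePath.extend t with hσ
  have hσc : Continuous σ := hj.somePath.continuous_extend
  have hσ0 : σ 0 = x := hj.somePath.extend_zero
  have hσ1 : σ 1 = y := hj.somePath.extend_one
  have hσU : ∀ t, σ t ∈ U := by
    intro t
    obtain ⟨s', hs'⟩ := hj.somePath.extend_range ▸ mem_range_self (f := hj.somePath.extend) t
    show hj.somePath.extend t ∈ U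
    rw [← hs']
    exact hj.somePath_mem s'
  set S : Set ℝ := Iic 0 ∪ Ici 1 with hS
  have hSc : IsClosed S := isClosed_Iic.union isClosed_Ici
  -- a continuous positive radius
  obtain ⟨ρ, hρc, hρpos, hρU⟩ : ∃ ρ : ℝ → ℝ, Continuous ρ ∧ (∀ t, 0 < ρ t) ∧
      ∀ t z, dist z (σ t) ≤ ρ t → z ∈ U := by
    by_cases hne' : (Uᶜ).Nonempty
    · have hpos : ∀ t, 0 < Metric.infDist (σ t) Uᶜ := fun t =>
        (hU.isClosed_compl.notMem_iff_infDist_pos hne').mp (fun h => h (hσU t))
      refine ⟨fun t => Metric.infDist (σ t) Uᶜ / 2,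
        ((Metric.continuous_infDist_pt _).comp hσc).div_const 2, fun t => half_pos (hpos t), ?_⟩
      intro t z hz
      by_contra hcon
      have h2 : Metric.infDist (σ t) Uᶜ ≤ dist (σ t) z := Metric.infDist_le_dist_of_mem hcon
      rw [dist_comm] at hz
      have h5 := hpos t
      linarith
    · rw [not_nonempty_iff_eq_empty, compl_empty_iff] at hne'
      exact ⟨fun _ => 1, continuous_const, fun _ => one_pos, fun t z _ => by rw [hne']; trivial⟩
  obtain ⟨τ, hτc, hτS, hτC, hτd⟩ := glue hσc hSc (fun t ht => Or.inl ht)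
    (fun t ht => Or.inr ht) hρc (fun t _ => hρpos t) (C := C)
    (fun t _ r hr _ => hC (σ t) r hr)
  have h0 : τ 0 = x := by rw [hτS 0 (Or.inl (mem_Iic.mpr le_rfl)), hσ0]
  have h1 : τ 1 = y := by rw [hτS 1 (Or.inr (mem_Ici.mpr le_rfl)), hσ1]
  refine JoinedIn.ofLine hτc.continuousOn h0 h1 ?_
  rintro _ ⟨t, ht, rfl⟩
  by_cases htS : t ∈ S
  · rcases htS with h2 | h2
    · have : t = 0 := le_antisymm h2 ht.1
      rw [this, h0]; exact hx
    · have : t = 1 := le_antisymm ht.2 h2
      rw [this, h1]; exact hy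
  · exact ⟨hρU t _ (hτd t htS), fun h => hτC t htS (hYC h)⟩

/-- Subsets of sets with path connected complement in every region. -/
theorem lpc_of_subset {K Y : Set E} (hYK : Y ⊆ K) (hK : LPc K) : LPc Y :=
  lpc_of_balls hYK fun x _r hr => hK _ Metric.isOpen_ball
    ⟨⟨x, Metric.mem_ball_self hr⟩, (convex_ball _ _).isPreconnected⟩

end

section
variable {E : Type*} [NormedAddCommGroup E] [NormedSpace ℝ E] [ProperSpace E]

omit [NormedSpace ℝ E] in
/-- maps at bounded distance from the identity are closed -/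
theorem isClosedMap_of_near {F : E → E} (hF : Continuous F) {B : ℝ} (hB : ∀ z, dist (F z) z ≤ B) :
    IsClosedMap F := by
  intro A hA
  apply IsSeqClosed.isClosed
  intro y y₀ hy hlim
  choose x hxA hx using hy
  obtain ⟨M, hM⟩ := (Metric.isBounded_range_of_tendsto y hlim).subset_closedBall (0 : E)
  have hbd : ∀ k, x k ∈ Metric.closedBall (0 : E) (M + B) := by
    intro k
    rw [Metric.mem_closedBall]
    have h1 := hB (x k)
    have h2 : dist (F (x k)) 0 ≤ M := by
      rw [hx k]; exact hM (mem_range_self k)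
    have h3 := dist_triangle (x k) (F (x k)) 0
    rw [dist_comm (x k) (F (x k))] at h3
    linarith
  obtain ⟨q, _, φ, hφ, hq⟩ := (isCompact_closedBall (0 : E) (M + B)).tendsto_subseq hbd
  refine ⟨q, hA.mem_of_tendsto hq (Eventually.of_forall fun k => hxA _), ?_⟩
  have h1 : Tendsto (fun k => F (x (φ k))) atTop (𝓝 (F q)) := (hF.tendsto q).comp hq
  have h2 : Tendsto (fun k => y (φ k)) atTop (𝓝 y₀) := hlim.comp hφ.tendsto_atTop
  refine tendsto_nhds_unique h1 (h2.congr fun k => (hx (φ k)).symm)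

/-- **Transfer**: preimages under maps which are one-to-one over a neighbourhood of `Y`. -/
theorem LPc.preimage {F : E → E} (hF : Continuous F) {B : ℝ} (hB : ∀ z, dist (F z) z ≤ B)
    {O Y : Set E} (hO : IsOpen O) (huniq : ∀ y ∈ O, ∃! z, F z = y) (hYO : Y ⊆ O) (hY : LPc Y) :
    LPc (F ⁻¹' Y) := by
  have hcl := isClosedMap_of_near hF hB
  apply lpc_of_closed (R := F ⁻¹' Oᶜ) (hO.isClosed_compl.preimage hF)
  · rw [Set.disjoint_left]
    intro z hz1 hz2
    exact hz1 (hYO hz2)
  intro U hU hUc hUR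
  have hUO : ∀ z ∈ U, F z ∈ O := by
    intro z hz
    by_contra hcon
    exact Set.disjoint_left.mp hUR hz hcon
  -- the image of `U` is open
  have himg : F '' U = O \ F '' Uᶜ := by
    ext y
    constructor
    · rintro ⟨z, hz, rfl⟩
      refine ⟨hUO z hz, ?_⟩
      rintro ⟨z', hz', hzz⟩
      have := (huniq _ (hUO z hz)).unique hzz rfl
      rw [this] at hz'
      exact hz' hz
    · rintro ⟨hy, hy2⟩
      obtain ⟨z, hz, _⟩ := huniq y hy
      refine ⟨z, ?_, hz⟩
      by_contra hcon
      exact hy2 ⟨z, hcon, hz⟩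
  have hopen : IsOpen (F '' U) := by
    rw [himg]
    exact hO.sdiff (hcl _ hU.isClosed_compl)
  have hconn : IsConnected (F '' U) := hUc.image F hF.continuousOn
  have hpc := hY _ hopen hconn
  -- the inverse
  classical
  set g : E → E := fun y => if h : ∃ z, F z = y then h.choose else y with hg
  have hgF : ∀ y ∈ O, F (g y) = y := by
    intro y hy
    obtain ⟨z, hz, _⟩ := huniq y hy
    have hex : ∃ z, F z = y := ⟨z, hz⟩
    simp only [hg, dif_pos hex]
    exact hex.choose_spec
  have hFg : ∀ z, F z ∈ O → g (F z) = z := fun z hz =>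
    (huniq _ hz).unique (hgF _ hz) rfl
  have hgc : ContinuousOn g O := by
    rw [continuousOn_iff_isClosed]
    intro t ht
    refine ⟨F '' t, hcl t ht, ?_⟩
    ext y
    constructor
    · rintro ⟨h1, h2⟩
      exact ⟨⟨g y, h1, hgF y h2⟩, h2⟩
    · rintro ⟨⟨z, hz, rfl⟩, h2⟩
      refine ⟨?_, h2⟩
      show g (F z) ∈ t
      rw [hFg z h2]; exact hz
  have himgO : F '' U \ Y ⊆ O := fun y hy => by
    obtain ⟨z, hz, rfl⟩ := hy.1
    exact hUO z hz
  have h2 := hpc.image' (hgc.mono himgO)
  have h3 : g '' (F '' U \ Y) = U \ F ⁻¹' Y := by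
    ext z
    constructor
    · rintro ⟨_, ⟨⟨w, hw, rfl⟩, hy⟩, rfl⟩
      rw [hFg w (hUO w hw)]
      exact ⟨hw, hy⟩
    · rintro ⟨hz, hzY⟩
      exact ⟨F z, ⟨⟨z, hz, rfl⟩, hzY⟩, hFg z (hUO z hz)⟩
  rwa [h3] at h2

end

end Pool.Agent.MCP
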