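import Mathlib

/-!
# General position by random linear perturbations
-/

set_option autoImplicit false

open Set Filter Topology MeasureTheory
open scoped ENNReal NNReal

namespace Pool.Agent.MCP

variable {n : ℕ}

/-- `G` has at most `C M^d` pieces of size `1/M`. -/
def NetLE (d : ℕ) (G : Set (Fin n → ℝ)) : Prop :=
  ∃ C : ℝ, 0 ≤ C ∧ ∀ M : ℕ, 1 ≤ M → ∃ T : Finset (Fin n → ℝ), (T.card : ℝ) ≤ C * (M : ℝ) ^ d ∧
    ∀ x ∈ G, ∃ t ∈ T, dist x t ≤ 1 / (M : ℝ)

/-- volume of a slab in the unit cube -/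
theorem volume_slab_le (u : Fin n → ℝ) (b ρ : ℝ) (_hρ : 0 ≤ ρ) {j₀ : Fin n} {κ : ℝ} (hκ : 0 < κ)
    (hu : κ ≤ |u j₀|) :
    volume {v : Fin n → ℝ | v ∈ Icc (0 : Fin n → ℝ) 1 ∧ |b + ∑ j, v j * u j| ≤ ρ} ≤
      ENNReal.ofReal (2 * ρ / κ) := by
  rcases n with _ | n
  · exact j₀.elim0
  set S : Set (Fin (n + 1) → ℝ) :=
    {v | v ∈ Icc (0 : Fin (n + 1) → ℝ) 1 ∧ |b + ∑ j, v j * u j| ≤ ρ} with hS
  have hSc : IsClosed S := by
    have h2 : IsClosed {v : Fin (n + 1) → ℝ | |b + ∑ j, v j * u j| ≤ ρ} :=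
      isClosed_le (continuous_const.add (continuous_finsetSum _ fun j _ =>
        (continuous_apply j).mul continuous_const)).abs continuous_const
    exact isClosed_Icc.inter h2
  have hmp := volume_preserving_piFinSuccAbove (fun _ : Fin (n + 1) => ℝ) j₀
  have hmp' := hmp.symm
  have h1 : volume S = volume ((MeasurableEquiv.piFinSuccAbove (fun _ => ℝ) j₀).symm ⁻¹' S) := by
    rw [hmp'.measure_preimage hSc.measurableSet.nullMeasurableSet]
  have hmeas : MeasurableSet ((MeasurableEquiv.piFinSuccAbove (fun _ : Fin (n+1) => ℝ) j₀).symm ⁻¹' S) :=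
    (MeasurableEquiv.measurable _) hSc.measurableSet
  rw [h1, Measure.volume_eq_prod, Measure.prod_apply_symm hmeas]
  have hslice : ∀ w : Fin n → ℝ,
      volume ((fun x : ℝ => (x, w)) ⁻¹'
        ((MeasurableEquiv.piFinSuccAbove (fun _ : Fin (n+1) => ℝ) j₀).symm ⁻¹' S)) ≤
      (Icc (0 : Fin n → ℝ) 1).indicator (fun _ => ENNReal.ofReal (2 * ρ / κ)) w := by
    intro w
    by_cases hw : w ∈ Icc (0 : Fin n → ℝ) 1
    · rw [indicator_of_mem hw]
      have hu0 : u j₀ ≠ 0 := by
        intro h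
        rw [h, abs_zero] at hu
        linarith
      set c : ℝ := -(b + ∑ j, w j * u (j₀.succAbove j)) / u j₀ with hc
      have hsub : ((fun x : ℝ => (x, w)) ⁻¹'
          ((MeasurableEquiv.piFinSuccAbove (fun _ : Fin (n+1) => ℝ) j₀).symm ⁻¹' S)) ⊆
          Icc (c - ρ / κ) (c + ρ / κ) := by
        intro x hx
        have hx2 : |b + ∑ j, (j₀.insertNth (α := fun _ => ℝ) x w) j * u j| ≤ ρ := hx.2
        rw [Fin.sum_univ_succAbove _ j₀] at hx2
        simp only [Fin.insertNth_apply_same, Fin.insertNth_apply_succAbove] at hx2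
        have h3 : b + (x * u j₀ + ∑ j, w j * u (j₀.succAbove j)) = u j₀ * (x - c) := by
          rw [hc]; field_simp; ring
        rw [h3, abs_mul] at hx2
        have h4 : κ * |x - c| ≤ ρ := le_trans (by gcongr) hx2
        have h5 : |x - c| ≤ ρ / κ := by rw [le_div_iff₀ hκ]; linarith
        have h6 := abs_le.mp h5
        constructor <;> linarith [h6.1, h6.2]
      refine (measure_mono hsub).trans ?_
      rw [Real.volume_Icc]
      apply le_of_eq
      congr 1
      ring
    · have : ((fun x : ℝ => (x, w)) ⁻¹'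
          ((MeasurableEquiv.piFinSuccAbove (fun _ : Fin (n+1) => ℝ) j₀).symm ⁻¹' S)) = ∅ := by
        rw [eq_empty_iff_forall_notMem]
        intro x hx
        apply hw
        have hx1 : (j₀.insertNth (α := fun _ => ℝ) x w) ∈ Icc (0 : Fin (n + 1) → ℝ) 1 := hx.1
        constructor
        · intro j
          have := hx1.1 (j₀.succAbove j)
          rwa [Fin.insertNth_apply_succAbove] at this
        · intro j
          have := hx1.2 (j₀.succAbove j)
          rwa [Fin.insertNth_apply_succAbove] at this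
      rw [this]; simp
  refine (lintegral_mono hslice).trans ?_
  rw [lintegral_indicator measurableSet_Icc, lintegral_const, Measure.restrict_apply_univ,
    Real.volume_Icc_pi]
  simp

/-- Volume of the set of matrices with all rows but the `i`-th in slabs. -/
theorem volume_slabs_le (i : Fin n) (u : Fin n → ℝ) (b : Fin n → ℝ) (ρ : ℝ) (hρ : 0 ≤ ρ)
    {j₀ : Fin n} {κ : ℝ} (hκ : 0 < κ) (hu : κ ≤ |u j₀|) :
    volume {V : Fin n → Fin n → ℝ | (∀ l, V l ∈ Icc (0 : Fin n → ℝ) 1) ∧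
      ∀ l, l ≠ i → |b l + ∑ j, V l j * u j| ≤ ρ} ≤ ENNReal.ofReal ((2 * ρ / κ) ^ (n - 1)) := by
  classical
  set A : Fin n → Set (Fin n → ℝ) := fun l => if l = i then Icc 0 1 else
    {v : Fin n → ℝ | v ∈ Icc (0 : Fin n → ℝ) 1 ∧ |b l + ∑ j, v j * u j| ≤ ρ} with hA
  have hsub : {V : Fin n → Fin n → ℝ | (∀ l, V l ∈ Icc (0 : Fin n → ℝ) 1) ∧
      ∀ l, l ≠ i → |b l + ∑ j, V l j * u j| ≤ ρ} ⊆ Set.pi univ A := by
    rintro V ⟨h1, h2⟩ l _
    simp only [hA]
    split_ifs with h
    · exact h1 l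
    · exact ⟨h1 l, h2 l h⟩
  refine (measure_mono hsub).trans ?_
  rw [volume_pi_pi]
  have hle : ∀ l, volume (A l) ≤ if l = i then 1 else ENNReal.ofReal (2 * ρ / κ) := by
    intro l
    simp only [hA]
    split_ifs with h
    · rw [Real.volume_Icc_pi]; simp
    · exact volume_slab_le u (b l) ρ hρ hκ hu
  refine (Finset.prod_le_prod' fun l _ => hle l).trans ?_
  rw [Finset.prod_ite, Finset.prod_const_one, one_mul, Finset.prod_const]
  have hcard : (Finset.univ.filter fun x : Fin n => ¬ x = i).card = n - 1 := by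
    have h1 : (Finset.univ.filter fun x : Fin n => ¬ x = i) = Finset.univ.erase i := by
      ext x; simp
    rw [h1, Finset.card_erase_of_mem (Finset.mem_univ i), Finset.card_univ, Fintype.card_fin]
  rw [hcard, ENNReal.ofReal_pow (by positivity)]

/-- The set of matrices for which the perturbed map `x ↦ (a x l + η (V x) l)_{l ≠ i}` is not
injective on `G` is null. -/
theorem null_of_net {d : ℕ} (hdn : 2 * d + 2 ≤ n) {G : Set (Fin n → ℝ)} (hG : NetLE d G)
    (i : Fin n) {a : (Fin n → ℝ) → (Fin n → ℝ)} {K : ℝ≥0} (ha : LipschitzWith K a) {η : ℝ}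
    (hη : 0 < η) :
    volume {V : Fin n → Fin n → ℝ | (∀ l, V l ∈ Icc (0 : Fin n → ℝ) 1) ∧
      ∃ x ∈ G, ∃ y ∈ G, x ≠ y ∧
        ∀ l, l ≠ i → a x l + η * (∑ j, V l j * x j) = a y l + η * (∑ j, V l j * y j)} = 0 := by
  classical
  have hsub : {V : Fin n → Fin n → ℝ | (∀ l, V l ∈ Icc (0 : Fin n → ℝ) 1) ∧
      ∃ x ∈ G, ∃ y ∈ G, x ≠ y ∧
        ∀ l, l ≠ i → a x l + η * (∑ j, V l j * x j) = a y l + η * (∑ j, V l j * y j)} ⊆
      ⋃ s : ℕ, {V : Fin n → Fin n → ℝ | (∀ l, V l ∈ Icc (0 : Fin n → ℝ) 1) ∧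
      ∃ x ∈ G, ∃ y ∈ G, 1 / ((s : ℝ) + 1) ≤ dist x y ∧
        ∀ l, l ≠ i → a x l + η * (∑ j, V l j * x j) = a y l + η * (∑ j, V l j * y j)} := by
    rintro V ⟨hV, x, hx, y, hy, hxy, h⟩
    obtain ⟨s, hs⟩ := exists_nat_one_div_lt (dist_pos.mpr hxy)
    exact mem_iUnion.mpr ⟨s, hV, x, hx, y, hy, hs.le, h⟩
  refine measure_mono_null hsub (measure_iUnion_null fun s => ?_)
  set ζ : ℝ := 1 / ((s : ℝ) + 1) with hζ
  have hζ0 : 0 < ζ := by positivity
  obtain ⟨C, hC0, hC⟩ := hG
  set Q : ℝ := 2 * (2 * (K + η * n)) / (η * (ζ / 2)) with hQ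
  have hQ0 : 0 ≤ Q := by positivity
  have hn1 : n - 1 = 2 * d + 1 + (n - 2 * d - 2) := by omega
  -- the main estimate
  have main : ∀ M : ℕ, 1 ≤ M → 4 / (M : ℝ) ≤ ζ →
      volume {V : Fin n → Fin n → ℝ | (∀ l, V l ∈ Icc (0 : Fin n → ℝ) 1) ∧
      ∃ x ∈ G, ∃ y ∈ G, ζ ≤ dist x y ∧
        ∀ l, l ≠ i → a x l + η * (∑ j, V l j * x j) = a y l + η * (∑ j, V l j * y j)} ≤
      ENNReal.ofReal (C ^ 2 * Q ^ (n - 1) * (1 / (M : ℝ))) := by
    intro M hM hMζ
    have hM0 : (0 : ℝ) < M := by exact_mod_cast hM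
    obtain ⟨T, hTcard, hT⟩ := hC M hM
    set ρ : ℝ := 2 * (K + η * n) / M with hρ
    have hρ0 : 0 ≤ ρ := by positivity
    set P : Finset ((Fin n → ℝ) × (Fin n → ℝ)) :=
      (T ×ˢ T).filter (fun p => ζ / 2 ≤ dist p.1 p.2) with hP
    have hsub2 : {V : Fin n → Fin n → ℝ | (∀ l, V l ∈ Icc (0 : Fin n → ℝ) 1) ∧
      ∃ x ∈ G, ∃ y ∈ G, ζ ≤ dist x y ∧
        ∀ l, l ≠ i → a x l + η * (∑ j, V l j * x j) = a y l + η * (∑ j, V l j * y j)} ⊆
        ⋃ p ∈ P, {V : Fin n → Fin n → ℝ | (∀ l, V l ∈ Icc (0 : Fin n → ℝ) 1) ∧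
          ∀ l, l ≠ i → |(a p.1 l - a p.2 l) + ∑ j, V l j * (η * (p.1 j - p.2 j))| ≤ ρ} := by
      rintro V ⟨hV, x, hx, y, hy, hxy, h⟩
      obtain ⟨t, ht, hxt⟩ := hT x hx
      obtain ⟨t', ht', hyt⟩ := hT y hy
      simp only [mem_iUnion]
      refine ⟨(t, t'), ?_, hV, fun l hl => ?_⟩
      · rw [hP, Finset.mem_filter, Finset.mem_product]
        refine ⟨⟨ht, ht'⟩, ?_⟩
        have h1 : dist x y ≤ dist x t + dist t t' + dist t' y := dist_triangle4 _ _ _ _
        rw [dist_comm t' y] at h1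
        have h2 : 1 / (M : ℝ) + 1 / (M : ℝ) = (4 / (M : ℝ)) / 2 := by ring
        simp only
        linarith
      · have h1 := h l hl
        simp only
        have hsum : ∀ z : Fin n → ℝ, ∀ z' : Fin n → ℝ, dist z z' ≤ 1 / (M : ℝ) →
            |∑ j, V l j * (z j - z' j)| ≤ n * (1 / (M : ℝ)) := by
          intro z z' hz
          refine (Finset.abs_sum_le_sum_abs _ _).trans ?_
          calc ∑ j, |V l j * (z j - z' j)| ≤ ∑ _j : Fin n, (1 / (M : ℝ)) := by
                apply Finset.sum_le_sum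
                intro j _
                rw [abs_mul]
                have e1 : |V l j| ≤ 1 := by
                  rw [abs_le]
                  have := (hV l).1 j
                  have := (hV l).2 j
                  simp only [Pi.zero_apply, Pi.one_apply] at *
                  constructor <;> linarith
                have e2 : |z j - z' j| ≤ 1 / (M : ℝ) := by
                  rw [← Real.dist_eq]
                  exact (dist_le_pi_dist z z' j).trans hz
                calc |V l j| * |z j - z' j| ≤ 1 * (1 / (M : ℝ)) := by gcongr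
                  _ = 1 / (M : ℝ) := one_mul _
            _ = n * (1 / (M : ℝ)) := by simp
        have hax : ∀ z : Fin n → ℝ, ∀ z' : Fin n → ℝ, dist z z' ≤ 1 / (M : ℝ) →
            |a z l - a z' l| ≤ K * (1 / (M : ℝ)) := by
          intro z z' hz
          rw [← Real.dist_eq]
          refine (dist_le_pi_dist (a z) (a z') l).trans ((ha.dist_le_mul z z').trans ?_)
          gcongr
        have e1 := hsum x t hxt
        have e2 := hsum y t' hyt
        have e3 := hax x t hxt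
        have e4 := hax y t' hyt
        have key : (a t l - a t' l) + ∑ j, V l j * (η * (t j - t' j)) =
            -(a x l - a t l) + (a y l - a t' l) - η * (∑ j, V l j * (x j - t j)) +
              η * (∑ j, V l j * (y j - t' j)) := by
          have e5 : ∑ j, V l j * (η * (t j - t' j)) =
              η * (∑ j, V l j * t j) - η * (∑ j, V l j * t' j) := by
            rw [← mul_sub, ← Finset.sum_sub_distrib, Finset.mul_sum]
            apply Finset.sum_congr rfl
            intro j _; ring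
          have e6 : ∀ z z' : Fin n → ℝ, ∑ j, V l j * (z j - z' j) =
              (∑ j, V l j * z j) - ∑ j, V l j * z' j := by
            intro z z'
            rw [← Finset.sum_sub_distrib]
            apply Finset.sum_congr rfl
            intro j _; ring
          rw [e5, e6, e6]
          linarith
        rw [key]
        have f1 := abs_le.mp e1
        have f2 := abs_le.mp e2
        have f3 := abs_le.mp e3
        have f4 := abs_le.mp e4
        have g1 : η * (∑ j, V l j * (x j - t j)) ≤ η * (n * (1 / (M : ℝ))) := by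
          gcongr; exact f1.2
        have g2 : η * (-(n * (1 / (M : ℝ)))) ≤ η * (∑ j, V l j * (x j - t j)) := by
          gcongr; exact f1.1
        have g3 : η * (∑ j, V l j * (y j - t' j)) ≤ η * (n * (1 / (M : ℝ))) := by
          gcongr; exact f2.2
        have g4 : η * (-(n * (1 / (M : ℝ)))) ≤ η * (∑ j, V l j * (y j - t' j)) := by
          gcongr; exact f2.1
        have hρe : ρ = K * (1 / (M : ℝ)) + K * (1 / (M : ℝ)) + η * (n * (1 / (M : ℝ))) +
            η * (n * (1 / (M : ℝ))) := by rw [hρ]; ring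
        rw [abs_le, hρe]
        constructor <;> linarith [f3.1, f3.2, f4.1, f4.2]
    refine (measure_mono hsub2).trans ((measure_biUnion_finset_le _ _).trans ?_)
    have hpair : ∀ p ∈ P, volume {V : Fin n → Fin n → ℝ | (∀ l, V l ∈ Icc (0 : Fin n → ℝ) 1) ∧
          ∀ l, l ≠ i → |(a p.1 l - a p.2 l) + ∑ j, V l j * (η * (p.1 j - p.2 j))| ≤ ρ} ≤
        ENNReal.ofReal ((2 * ρ / (η * (ζ / 2))) ^ (n - 1)) := by
      intro p hp
      have hpd : ζ / 2 ≤ dist p.1 p.2 := (Finset.mem_filter.mp hp).2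
      obtain ⟨j₀, hj₀⟩ : ∃ j₀, ζ / 2 ≤ |p.1 j₀ - p.2 j₀| := by
        by_contra hcon
        push Not at hcon
        have : dist p.1 p.2 < ζ / 2 := by
          rw [dist_pi_lt_iff (by positivity)]
          intro j
          rw [Real.dist_eq]
          exact hcon j
        linarith
      exact volume_slabs_le i (fun j => η * (p.1 j - p.2 j)) (fun l => a p.1 l - a p.2 l) ρ hρ0
        (j₀ := j₀) (κ := η * (ζ / 2)) (by positivity) (by
          rw [abs_mul, abs_of_pos hη]; gcongr)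
    refine (Finset.sum_le_sum hpair).trans ?_
    rw [Finset.sum_const, nsmul_eq_mul, ← ENNReal.ofReal_natCast,
      ← ENNReal.ofReal_mul (Nat.cast_nonneg _)]
    apply ENNReal.ofReal_le_ofReal
    have hPcard : (P.card : ℝ) ≤ (C * (M : ℝ) ^ d) ^ 2 := by
      have h1 : P.card ≤ T.card * T.card := by
        rw [← Finset.card_product]; exact Finset.card_filter_le _ _
      calc (P.card : ℝ) ≤ (T.card : ℝ) * T.card := by exact_mod_cast h1
        _ ≤ (C * (M : ℝ) ^ d) * (C * (M : ℝ) ^ d) := by gcongr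
        _ = _ := by ring
    have hρQ : 2 * ρ / (η * (ζ / 2)) = Q / M := by
      rw [hρ, hQ]; field_simp
    rw [hρQ]
    calc (P.card : ℝ) * (Q / M) ^ (n - 1) ≤ (C * (M : ℝ) ^ d) ^ 2 * (Q / M) ^ (n - 1) := by
          gcongr
      _ = C ^ 2 * Q ^ (n - 1) * ((M : ℝ) ^ (2 * d) / (M : ℝ) ^ (n - 1)) := by
          rw [div_pow, mul_pow, ← pow_mul, mul_comm d 2]; ring
      _ ≤ C ^ 2 * Q ^ (n - 1) * (1 / (M : ℝ)) := by
          apply mul_le_mul_of_nonneg_left _ (by positivity)
          rw [div_le_div_iff₀ (by positivity) hM0, one_mul, ← pow_succ]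
          apply pow_le_pow_right₀ (by exact_mod_cast hM)
          omega
  have htend : Tendsto (fun M : ℕ => ENNReal.ofReal (C ^ 2 * Q ^ (n - 1) * (1 / (M : ℝ)))) atTop
      (𝓝 0) := by
    have h1 : Tendsto (fun M : ℕ => C ^ 2 * Q ^ (n - 1) * (1 / (M : ℝ))) atTop
        (𝓝 (C ^ 2 * Q ^ (n - 1) * 0)) := tendsto_one_div_atTop_nhds_zero_nat.const_mul _
    rw [mul_zero] at h1
    have := ENNReal.tendsto_ofReal h1
    rwa [ENNReal.ofReal_zero] at this
  refine le_antisymm (ge_of_tendsto htend ?_) bot_le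
  have hev : ∀ᶠ M : ℕ in atTop, 4 / (M : ℝ) ≤ ζ := by
    have h1 : Tendsto (fun M : ℕ => 4 * (1 / (M : ℝ))) atTop (𝓝 (4 * 0)) :=
      tendsto_one_div_atTop_nhds_zero_nat.const_mul _
    rw [mul_zero] at h1
    filter_upwards [h1.eventually (gt_mem_nhds hζ0)] with M hM
    have : 4 / (M : ℝ) = 4 * (1 / (M : ℝ)) := by ring
    rw [this]; exact hM.le
  filter_upwards [hev, eventually_ge_atTop 1] with M hM1 hM2
  exact main M hM2 hM1

/-- **General position**: a single matrix works for all coordinates and all mixed maps. -/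
theorem exists_matrix {d : ℕ} (hdn : 2 * d + 2 ≤ n) {G : Set (Fin n → ℝ)} (hG : NetLE d G)
    {a : Fin n → (Fin n → ℝ) → (Fin n → ℝ)} {K : ℝ≥0} (ha : ∀ i, LipschitzWith K (a i)) {η : ℝ}
    (hη : 0 < η) :
    ∃ V : Fin n → Fin n → ℝ, (∀ l j, |V l j| ≤ 1) ∧ ∀ i, ∀ x ∈ G, ∀ y ∈ G,
      (∀ l, l ≠ i → a i x l + η * (∑ j, V l j * x j) = a i y l + η * (∑ j, V l j * y j)) →
        x = y := by
  have hnull := measure_iUnion_null fun i => null_of_net hdn hG i (ha i) hη
  have hex : ∃ V ∈ Icc (0 : Fin n → Fin n → ℝ) 1, V ∉ ⋃ i, {V : Fin n → Fin n → ℝ |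
      (∀ l, V l ∈ Icc (0 : Fin n → ℝ) 1) ∧ ∃ x ∈ G, ∃ y ∈ G, x ≠ y ∧
        ∀ l, l ≠ i → a i x l + η * (∑ j, V l j * x j) = a i y l + η * (∑ j, V l j * y j)} := by
    by_contra hcon
    push Not at hcon
    have h1 : volume (Icc (0 : Fin n → Fin n → ℝ) 1) = 0 := measure_mono_null hcon hnull
    have h2 : Icc (0 : Fin n → Fin n → ℝ) 1 = Set.pi univ fun _ => Icc (0 : Fin n → ℝ) 1 := by
      ext V
      simp only [mem_Icc, Pi.le_def, Set.mem_pi, mem_univ, true_implies]
      constructor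
      · rintro ⟨h3, h4⟩ l
        exact ⟨h3 l, h4 l⟩
      · intro h
        exact ⟨fun l => (h l).1, fun l => (h l).2⟩
    rw [h2, volume_pi_pi] at h1
    simp [Real.volume_Icc_pi] at h1
  obtain ⟨V, hV, hVn⟩ := hex
  refine ⟨V, fun l j => ?_, fun i x hx y hy h => ?_⟩
  · rw [abs_le]
    have h1 := hV.1 l j
    have h2 := hV.2 l j
    simp only [Pi.zero_apply, Pi.one_apply] at h1 h2
    constructor <;> linarith
  · by_contra hne
    apply hVn
    exact mem_iUnion.mpr ⟨i, fun l => ⟨hV.1 l, hV.2 l⟩, x, hx, y, hy, hne, h⟩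

end Pool.Agent.MCP
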