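import Mathlib

/-!
# Shears, clipped linear perturbations of the identity, Lipschitz approximation
-/

set_option autoImplicit false

open Set Filter Topology
open scoped NNReal

namespace Pool.Agent.MCP

/-! ### Lipschitz approximation -/

theorem exists_lip_real {E : Type*} [MetricSpace E] {G : Set E} (hG : IsCompact G)
    {f : E → ℝ} (hf : ContinuousOn f G) {ε : ℝ} (hε : 0 < ε) :
    ∃ (F : E → ℝ) (K : ℝ≥0), LipschitzWith K F ∧ ∀ x ∈ G, |F x - f x| ≤ ε := by
  rcases G.eq_empty_or_nonempty with h | hne
  · exact ⟨fun _ => 0, 0, LipschitzWith.const 0, fun x hx => by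
      rw [h] at hx; exact absurd hx (notMem_empty x)⟩
  have hne' : Nonempty G := hne.to_subtype
  obtain ⟨A, hA⟩ := hG.exists_bound_of_continuousOn hf
  have hA0 : 0 ≤ A := by
    obtain ⟨x, hx⟩ := hne
    exact (norm_nonneg _).trans (hA x hx)
  have huc := hG.uniformContinuousOn_of_continuous hf
  rw [Metric.uniformContinuousOn_iff] at huc
  obtain ⟨δ, hδ, huc⟩ := huc ε hε
  set N : ℝ≥0 := Real.toNNReal (2 * A / δ) with hN
  have hNr : (N : ℝ) = 2 * A / δ := Real.coe_toNNReal _ (by positivity)
  have hbdd : ∀ x : E, BddBelow (range fun y : G => f y + N * dist x y) := by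
    intro x
    refine ⟨-A, ?_⟩
    rintro _ ⟨y, rfl⟩
    have h1 := (abs_le.mp (hA y y.2)).1
    have h2 : 0 ≤ (N : ℝ) * dist x y := by positivity
    simp only
    linarith
  refine ⟨fun x => ⨅ y : G, (f y + N * dist x y), N, ?_, ?_⟩
  · apply LipschitzWith.of_le_add_mul
    intro x x'
    have h1 : ∀ y : G, (⨅ y : G, (f y + N * dist x y)) ≤ f y + N * dist x' y + N * dist x x' := by
      intro y
      refine (ciInf_le (hbdd x) y).trans ?_
      have := dist_triangle x x' (y : E)
      have h2 : (N : ℝ) * dist x y ≤ N * (dist x x' + dist x' y) := by gcongr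
      linarith
    have h2 : (⨅ y : G, (f y + N * dist x y)) - N * dist x x' ≤ ⨅ y : G, (f y + N * dist x' y) :=
      le_ciInf fun y => by linarith [h1 y]
    linarith
  · intro x hx
    have h1 : (⨅ y : G, (f y + N * dist x y)) ≤ f x := by
      have := ciInf_le (hbdd x) ⟨x, hx⟩
      simpa using this
    have h2 : f x - ε ≤ ⨅ y : G, (f y + N * dist x y) := by
      apply le_ciInf
      intro y
      by_cases hd : dist x y < δ
      · have h3 := huc x hx y y.2 hd
        rw [Real.dist_eq] at h3
        have h4 := (abs_lt.mp h3).2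
        have h5 : 0 ≤ (N : ℝ) * dist x y := by positivity
        linarith
      · push Not at hd
        have h3 : 2 * A ≤ N * dist x y := by
          calc 2 * A = 2 * A / δ * δ := by field_simp
            _ ≤ N * dist x y := by rw [hNr]; gcongr
        have h4 := (abs_le.mp (hA y y.2)).1
        have h5 := (abs_le.mp (hA x hx)).2
        linarith
    rw [abs_le]
    constructor <;> linarith

variable {n : ℕ}

theorem exists_lip {G : Set (Fin n → ℝ)} (hG : IsCompact G) {f : (Fin n → ℝ) → (Fin n → ℝ)}
    (hf : ContinuousOn f G) {ε : ℝ} (hε : 0 < ε) :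
    ∃ (F : (Fin n → ℝ) → (Fin n → ℝ)) (K : ℝ≥0), LipschitzWith K F ∧
      ∀ x ∈ G, dist (F x) (f x) ≤ ε := by
  have h : ∀ l : Fin n, ∃ (F : (Fin n → ℝ) → ℝ) (K : ℝ≥0), LipschitzWith K F ∧
      ∀ x ∈ G, |F x - f x l| ≤ ε := fun l =>
    exists_lip_real hG (f := fun x => f x l) ((continuous_apply l).comp_continuousOn hf) hε
  choose F K hF hFε using h
  refine ⟨fun x l => F l x, ∑ l, K l, ?_, fun x hx => ?_⟩
  · apply LipschitzWith.of_dist_le_mul
    intro x y
    rw [dist_pi_le_iff (by positivity)]
    intro l
    refine ((hF l).dist_le_mul x y).trans ?_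
    gcongr
    exact Finset.single_le_sum (f := K) (fun _ _ => zero_le) (Finset.mem_univ l)
  · rw [dist_pi_le_iff hε.le]
    intro l
    rw [Real.dist_eq]
    exact hFε l x hx

/-! ### Clipping -/

/-- projection onto the cube of radius `R` -/
noncomputable def clip (R : ℝ) (z : Fin n → ℝ) : Fin n → ℝ := fun j => max (-R) (min R (z j))

theorem clip_lip (R : ℝ) : LipschitzWith 1 (clip (n := n) R) := by
  apply LipschitzWith.of_dist_le_mul
  intro x y
  rw [NNReal.coe_one, one_mul, dist_pi_le_iff dist_nonneg]
  intro j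
  refine le_trans ?_ (dist_le_pi_dist x y j)
  unfold clip
  rw [Real.dist_eq, Real.dist_eq]
  have h1 : |max (-R) (min R (x j)) - max (-R) (min R (y j))| ≤ |min R (x j) - min R (y j)| := by
    have := abs_max_sub_max_le_max (-R) (min R (x j)) (-R) (min R (y j))
    simpa using this
  have h2 : |min R (x j) - min R (y j)| ≤ |x j - y j| := by
    have := abs_min_sub_min_le_max R (x j) R (y j)
    simpa using this
  exact h1.trans h2

theorem clip_mem (R : ℝ) (hR : 0 ≤ R) (z : Fin n → ℝ) : clip R z ∈ Metric.closedBall (0 : Fin n → ℝ) R := by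
  rw [mem_closedBall_zero_iff, pi_norm_le_iff_of_nonneg hR]
  intro j
  unfold clip
  rw [Real.norm_eq_abs, abs_le]
  exact ⟨le_max_left _ _, max_le (by linarith) (min_le_left _ _)⟩

theorem clip_eq {R : ℝ} {z : Fin n → ℝ} (hz : z ∈ Metric.closedBall (0 : Fin n → ℝ) R) :
    clip R z = z := by
  have hR : 0 ≤ R := (norm_nonneg _).trans (mem_closedBall_zero_iff.mp hz)
  rw [mem_closedBall_zero_iff, pi_norm_le_iff_of_nonneg hR] at hz
  funext j
  have := abs_le.mp (hz j)
  unfold clip
  rw [min_eq_right this.2, max_eq_right this.1]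

theorem uniformContinuous_comp_clip {Y : Type*} [UniformSpace Y] {f : (Fin n → ℝ) → Y}
    (hf : Continuous f) {R : ℝ} (hR : 0 ≤ R) : UniformContinuous fun z => f (clip R z) := by
  have h1 : UniformContinuousOn f (Metric.closedBall (0 : Fin n → ℝ) R) :=
    (isCompact_closedBall _ _).uniformContinuousOn_of_continuous hf.continuousOn
  have h2 : UniformContinuousOn (f ∘ clip R) univ :=
    h1.comp (clip_lip R).uniformContinuous.uniformContinuousOn (fun z _ => clip_mem R hR z)
  exact uniformContinuousOn_univ.mp h2

/-! ### Shears -/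

/-- the shear changing only the `i`-th coordinate -/
noncomputable def shear (i : Fin n) (A : (Fin n → ℝ) → ℝ) (hA : Continuous A) :
    (Fin n → ℝ) ≃ₜ (Fin n → ℝ) where
  toFun z := Function.update z i (z i + A (Function.update z i 0))
  invFun z := Function.update z i (z i - A (Function.update z i 0))
  left_inv z := by
    simp [Function.update_idem]
  right_inv z := by
    simp [Function.update_idem]
  continuous_toFun := continuous_id.update i ((continuous_apply i).add
    (hA.comp (continuous_id.update i continuous_const)))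
  continuous_invFun := continuous_id.update i ((continuous_apply i).sub
    (hA.comp (continuous_id.update i continuous_const)))

theorem shear_apply (i : Fin n) (A : (Fin n → ℝ) → ℝ) (hA : Continuous A) (z : Fin n → ℝ) :
    shear i A hA z = Function.update z i (z i + A (Function.update z i 0)) := rfl

theorem uniformContinuous_update_zero (i : Fin n) :
    UniformContinuous fun z : Fin n → ℝ => Function.update z i 0 := by
  apply LipschitzWith.uniformContinuous (K := 1)
  apply LipschitzWith.of_dist_le_mul
  intro x y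
  rw [NNReal.coe_one, one_mul, dist_pi_le_iff dist_nonneg]
  intro j
  by_cases hj : j = i
  · subst hj; simp
  · rw [Function.update_of_ne hj, Function.update_of_ne hj]
    exact dist_le_pi_dist x y j

theorem shear_uniformContinuous (i : Fin n) (A : (Fin n → ℝ) → ℝ) (hA : UniformContinuous A) :
    UniformContinuous (shear i A hA.continuous) := by
  rw [uniformContinuous_pi]
  intro j
  by_cases hj : j = i
  · subst hj
    have : (fun x : Fin n → ℝ => (shear j A hA.continuous) x j) =
        fun z => z j + A (Function.update z j 0) := by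
      funext z
      rw [shear_apply, Function.update_self]
    rw [this]
    exact (Pi.uniformContinuous_proj _ j).add (hA.comp (uniformContinuous_update_zero j))
  · have : (fun x : Fin n → ℝ => (shear i A hA.continuous) x j) = fun z => z j := by
      funext z
      rw [shear_apply, Function.update_of_ne hj]
    rw [this]
    exact Pi.uniformContinuous_proj _ j

/-! ### Clipped linear perturbation of the identity -/

/-- `z ↦ V z` with clipped entries -/
noncomputable def lin (V : Fin n → Fin n → ℝ) (z : Fin n → ℝ) : Fin n → ℝ :=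
  fun l => ∑ j, V l j * z j

theorem lin_lip {V : Fin n → Fin n → ℝ} (hV : ∀ l j, |V l j| ≤ 1) :
    LipschitzWith n (lin V) := by
  apply LipschitzWith.of_dist_le_mul
  intro x y
  rw [dist_pi_le_iff (by positivity)]
  intro l
  rw [Real.dist_eq]
  unfold lin
  rw [← Finset.sum_sub_distrib]
  refine (Finset.abs_sum_le_sum_abs _ _).trans ?_
  calc ∑ j, |V l j * x j - V l j * y j| ≤ ∑ _j : Fin n, dist x y := by
        apply Finset.sum_le_sum
        intro j _
        rw [← mul_sub, abs_mul]
        have h1 : |x j - y j| ≤ dist x y := by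
          rw [← Real.dist_eq]; exact dist_le_pi_dist x y j
        calc |V l j| * |x j - y j| ≤ 1 * dist x y := by
              gcongr
              exact hV l j
          _ = dist x y := one_mul _
    _ = (n : ℝ≥0) * dist x y := by simp

/-- the homeomorphism `z ↦ z + η V clip z` -/
theorem exists_homeo_lin {V : Fin n → Fin n → ℝ} (hV : ∀ l j, |V l j| ≤ 1) {η R : ℝ}
    (hη : 0 ≤ η) (hηn : η * n < 1) (hR : 0 ≤ R) :
    ∃ h : (Fin n → ℝ) ≃ₜ (Fin n → ℝ), UniformContinuous h ∧
      (∀ z, h z = z + η • lin V (clip R z)) ∧ ∀ z, dist (h z) z ≤ η * (n * R) := by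
  set f : (Fin n → ℝ) → (Fin n → ℝ) := fun z => z + η • lin V (clip R z) with hf
  have hlip : ∀ x y, dist (lin V (clip R x)) (lin V (clip R y)) ≤ n * dist x y := by
    intro x y
    refine ((lin_lip hV).dist_le_mul _ _).trans ?_
    have := (clip_lip (n := n) R).dist_le_mul x y
    rw [NNReal.coe_one, one_mul] at this
    rw [NNReal.coe_natCast]
    gcongr
  have happ : ApproximatesLinearOn f
      ((ContinuousLinearEquiv.refl ℝ (Fin n → ℝ) : (Fin n → ℝ) ≃L[ℝ] (Fin n → ℝ)) :
        (Fin n → ℝ) →L[ℝ] (Fin n → ℝ)) univ (Real.toNNReal (η * n)) := by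
    intro x _ y _
    have h1 : f x - f y - ((ContinuousLinearEquiv.refl ℝ (Fin n → ℝ) :
        (Fin n → ℝ) ≃L[ℝ] (Fin n → ℝ)) : (Fin n → ℝ) →L[ℝ] (Fin n → ℝ)) (x - y) =
        η • (lin V (clip R x) - lin V (clip R y)) := by
      simp only [hf, smul_sub, ContinuousLinearEquiv.coe_coe, ContinuousLinearEquiv.refl_apply]
      abel
    rw [h1, norm_smul, Real.norm_eq_abs, abs_of_nonneg hη, ← dist_eq_norm,
      Real.coe_toNNReal _ (by positivity), mul_assoc, ← dist_eq_norm]
    gcongr
    exact hlip x y
  have hc : Subsingleton (Fin n → ℝ) ∨ Real.toNNReal (η * n) <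
      ‖((ContinuousLinearEquiv.refl ℝ (Fin n → ℝ)).symm :
        (Fin n → ℝ) →L[ℝ] (Fin n → ℝ))‖₊⁻¹ := by
    rcases subsingleton_or_nontrivial (Fin n → ℝ) with h | h
    · exact Or.inl h
    · right
      have h1 : ‖((ContinuousLinearEquiv.refl ℝ (Fin n → ℝ)).symm :
        (Fin n → ℝ) →L[ℝ] (Fin n → ℝ))‖₊ = 1 := by
        rw [← NNReal.coe_inj, coe_nnnorm, NNReal.coe_one]
        exact ContinuousLinearMap.norm_id
      rw [h1, inv_one, ← NNReal.coe_lt_coe, Real.coe_toNNReal _ (by positivity), NNReal.coe_one]
      exact hηn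
  refine ⟨happ.toHomeomorph f hc, ?_, fun z => rfl, fun z => ?_⟩
  · show UniformContinuous f
    apply uniformContinuous_id.add
    have h1 : LipschitzWith (Real.toNNReal (η * n)) (fun z : Fin n → ℝ => η • lin V (clip R z)) := by
      apply LipschitzWith.of_dist_le_mul
      intro x y
      rw [dist_smul₀, Real.norm_eq_abs, abs_of_nonneg hη, Real.coe_toNNReal _ (by positivity),
        mul_assoc]
      gcongr
      exact hlip x y
    exact h1.uniformContinuous
  · show dist (z + η • lin V (clip R z)) z ≤ _
    rw [dist_eq_norm, add_sub_cancel_left, norm_smul, Real.norm_eq_abs, abs_of_nonneg hη]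
    gcongr
    have h1 := (lin_lip hV).dist_le_mul (clip R z) 0
    have h2 : lin V (0 : Fin n → ℝ) = 0 := by
      funext l; simp [lin]
    rw [h2, dist_zero_right, dist_zero_right, NNReal.coe_natCast] at h1
    refine h1.trans ?_
    gcongr
    exact mem_closedBall_zero_iff.mp (clip_mem R hR z)

end Pool.Agent.MCP
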