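import Mathlib
import Pool.Agent.MCP.GP
import Pool.Agent.MCP.Shear

/-!
# Pushing a rectifiable compactum exactly onto a prescribed continuous image

Given a compact set `G` of small box dimension and a map `α` of `G` close to the identity, there is
a map `c` of the whole space, close to the identity, equal to `α` on `G`, and one-to-one over the
complement of `α '' G`.
-/

set_option autoImplicit false

open Set Filter Topology MeasureTheory
open scoped NNReal BoundedContinuousFunction

namespace Pool.Agent.MCP

variable {n : ℕ}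

/-- general position for countably many maps at once -/
theorem exists_matrix_count {d : ℕ} (hdn : 2 * d + 2 ≤ n) {G : Set (Fin n → ℝ)} (hG : NetLE d G)
    {ι : Type*} [Countable ι] {i₀ : ι → Fin n} {a : ι → (Fin n → ℝ) → (Fin n → ℝ)}
    {K : ι → ℝ≥0} (ha : ∀ s, LipschitzWith (K s) (a s)) {η : ι → Fin n → ℝ}
    (hη : ∀ s l, 0 < η s l) :
    ∃ V : Fin n → Fin n → ℝ, (∀ l j, |V l j| ≤ 1) ∧ ∀ s, ∀ x ∈ G, ∀ y ∈ G,
      (∀ l, l ≠ i₀ s → a s x l + η s l * (∑ j, V l j * x j) =
        a s y l + η s l * (∑ j, V l j * y j)) → x = y := by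
  have ha' : ∀ s, LipschitzWith (Real.toNNReal ((∑ l, (η s l)⁻¹) * K s))
      (fun x l => (η s l)⁻¹ * a s x l) := by
    intro s
    apply LipschitzWith.of_dist_le_mul
    intro x y
    have h0 : ∀ l, 0 < (η s l)⁻¹ := fun l => inv_pos.mpr (hη s l)
    have hsum : 0 ≤ ∑ l, (η s l)⁻¹ := Finset.sum_nonneg fun l _ => (h0 l).le
    rw [Real.coe_toNNReal _ (by positivity), dist_pi_le_iff (by positivity)]
    intro l
    rw [Real.dist_eq, ← mul_sub, abs_mul, abs_of_pos (h0 l)]
    have h1 : |a s x l - a s y l| ≤ K s * dist x y := by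
      rw [← Real.dist_eq]
      exact (dist_le_pi_dist _ _ l).trans ((ha s).dist_le_mul x y)
    have h2 : (η s l)⁻¹ ≤ ∑ l, (η s l)⁻¹ :=
      Finset.single_le_sum (f := fun l => (η s l)⁻¹) (fun l _ => (h0 l).le) (Finset.mem_univ l)
    calc (η s l)⁻¹ * |a s x l - a s y l| ≤ (∑ l, (η s l)⁻¹) * (K s * dist x y) := by gcongr
      _ = _ := by ring
  have hnull := measure_iUnion_null fun s => null_of_net hdn hG (i₀ s) (ha' s) one_pos
  have hex : ∃ V ∈ Icc (0 : Fin n → Fin n → ℝ) 1, V ∉ ⋃ s, {V : Fin n → Fin n → ℝ |
      (∀ l, V l ∈ Icc (0 : Fin n → ℝ) 1) ∧ ∃ x ∈ G, ∃ y ∈ G, x ≠ y ∧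
        ∀ l, l ≠ i₀ s → (η s l)⁻¹ * a s x l + 1 * (∑ j, V l j * x j) =
          (η s l)⁻¹ * a s y l + 1 * (∑ j, V l j * y j)} := by
    by_contra hcon
    push Not at hcon
    have h1 : volume (Icc (0 : Fin n → Fin n → ℝ) 1) = 0 := measure_mono_null hcon hnull
    have h2 : Icc (0 : Fin n → Fin n → ℝ) 1 = Set.pi univ fun _ => Icc (0 : Fin n → ℝ) 1 := by
      ext V
      simp only [mem_Icc, Pi.le_def, Set.mem_pi, mem_univ, true_implies]
      constructor
      · rintro ⟨h3, h4⟩ l
        exact ⟨h3 l, h4 l⟩
      · intro h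
        exact ⟨fun l => (h l).1, fun l => (h l).2⟩
    rw [h2, volume_pi_pi] at h1
    simp [Real.volume_Icc_pi] at h1
  obtain ⟨V, hV, hVn⟩ := hex
  refine ⟨V, fun l j => ?_, fun s x hx y hy h => ?_⟩
  · rw [abs_le]
    have h1 := hV.1 l j
    have h2 := hV.2 l j
    simp only [Pi.zero_apply, Pi.one_apply] at h1 h2
    constructor <;> linarith
  · by_contra hne
    apply hVn
    refine mem_iUnion.mpr ⟨s, fun l => ⟨hV.1 l, hV.2 l⟩, x, hx, y, hy, hne, fun l hl => ?_⟩
    have h1 := h l hl
    have h2 := (hη s l).ne'
    have h3 : ∀ z : Fin n → ℝ, (η s l)⁻¹ * a s z l + 1 * (∑ j, V l j * z j) =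
        (η s l)⁻¹ * (a s z l + η s l * (∑ j, V l j * z j)) := by
      intro z
      rw [mul_add, ← mul_assoc, inv_mul_cancel₀ h2]
    rw [h3, h3, h1]

/-! ### Localised shears -/

theorem exists_shear {G : Set (Fin n → ℝ)} (hG : IsCompact G) (i : Fin n)
    {e : (Fin n → ℝ) → (Fin n → ℝ)} (he : Continuous e)
    (hinj : ∀ x ∈ G, ∀ y ∈ G, (∀ l, l ≠ i → e x l = e y l) → x = y)
    {f : (Fin n → ℝ) → ℝ} (hf : Continuous f) {a : ℝ} (ha : 0 < a) (hfa : ∀ x ∈ G, |f x| ≤ a) :
    ∃ S : (Fin n → ℝ) → (Fin n → ℝ), Continuous S ∧ Function.Injective S ∧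
      Function.Surjective S ∧ (∀ z l, l ≠ i → S z l = z l) ∧ (∀ z, |S z i - z i| ≤ a) ∧
      (∀ z, 2 * a ≤ Metric.infDist z (e '' G) → S z = z) ∧
      ∀ x ∈ G, S (e x) = Function.update (e x) i (e x i + f x) := by
  classical
  set em : G → (Fin n → ℝ) := fun x => Function.update (e x) i 0 with hem
  have hemc : Continuous em := (he.comp continuous_subtype_val).update i continuous_const
  have heminj : Function.Injective em := by
    intro x y hxy
    apply Subtype.ext
    apply hinj x x.2 y y.2
    intro l hl
    have h1 := congrFun hxy l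
    simp only [hem, Function.update_of_ne hl] at h1
    exact h1
  have : CompactSpace G := isCompact_iff_compactSpace.mp hG
  have hemb : IsClosedEmbedding em := hemc.isClosedEmbedding heminj
  set f0 : C(G, ℝ) := ⟨fun x => f x, hf.comp continuous_subtype_val⟩ with hf0
  set f1 : G →ᵇ ℝ := BoundedContinuousFunction.mkOfCompact f0 with hf1
  have hfn : ‖f1‖ ≤ a := by
    rw [BoundedContinuousFunction.norm_le ha.le]
    intro x
    exact hfa x x.2
  obtain ⟨g, hg1, hg2⟩ := BoundedContinuousFunction.exists_extension_norm_eq_of_isClosedEmbedding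
    f1 hemb
  have hga : ∀ w, |g w| ≤ a := by
    intro w
    have := g.norm_coe_le_norm w
    rw [hg1] at this
    exact this.trans hfn
  set φ : (Fin n → ℝ) → ℝ := fun z => max 0 (1 - Metric.infDist z (e '' G) / (2 * a)) with hφ
  have hφc : Continuous φ := continuous_const.max
    (continuous_const.sub ((Metric.continuous_infDist_pt _).div_const _))
  have hφ0 : ∀ z, 0 ≤ φ z := fun z => le_max_left _ _
  have hφ1 : ∀ z, φ z ≤ 1 := by
    intro z
    apply max_le zero_le_one
    have : 0 ≤ Metric.infDist z (e '' G) / (2 * a) := div_nonneg Metric.infDist_nonneg (by positivity)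
    linarith
  have hφlip : ∀ z z', |φ z - φ z'| ≤ dist z z' / (2 * a) := by
    intro z z'
    refine (abs_max_sub_max_le_max _ _ _ _).trans (max_le ?_ ?_)
    · rw [sub_self, abs_zero]; positivity
    · have h1 : (1 - Metric.infDist z (e '' G) / (2 * a)) - (1 - Metric.infDist z' (e '' G) / (2 * a)) =
          (Metric.infDist z' (e '' G) - Metric.infDist z (e '' G)) / (2 * a) := by ring
      rw [h1, abs_div, abs_of_pos (by positivity : 0 < 2 * a)]
      gcongr
      rw [abs_le]
      have h2 := Metric.infDist_le_infDist_add_dist (s := e '' G) (x := z) (y := z')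
      have h3 := Metric.infDist_le_infDist_add_dist (s := e '' G) (x := z') (y := z)
      rw [dist_comm z' z] at h3
      constructor <;> linarith
  set S : (Fin n → ℝ) → (Fin n → ℝ) := fun z =>
    Function.update z i (z i + φ z * g (Function.update z i 0)) with hS
  have hSi : ∀ z, S z i = z i + φ z * g (Function.update z i 0) := fun z => by
    simp only [hS, Function.update_self]
  have hSl : ∀ z l, l ≠ i → S z l = z l := fun z l hl => by
    simp only [hS, Function.update_of_ne hl]
  refine ⟨S, ?_, ?_, ?_, hSl, ?_, ?_, ?_⟩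
  · exact continuous_id.update i ((continuous_apply i).add
      (hφc.mul (g.continuous.comp (continuous_id.update i continuous_const))))
  · intro z z' hzz
    have h1 : ∀ l, l ≠ i → z l = z' l := fun l hl => by
      rw [← hSl z l hl, ← hSl z' l hl, hzz]
    have h2 : Function.update z i 0 = Function.update z' i 0 := by
      funext l
      by_cases hl : l = i
      · subst hl; simp
      · rw [Function.update_of_ne hl, Function.update_of_ne hl, h1 l hl]
    have h3 : z i + φ z * g (Function.update z i 0) = z' i + φ z' * g (Function.update z i 0) := by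
      have := congrFun hzz i
      rwa [hSi, hSi, ← h2] at this
    set b := g (Function.update z i 0) with hb
    have hba : |b| ≤ a := hga _
    have h4 : dist z z' ≤ |z i - z' i| := by
      rw [dist_pi_le_iff (abs_nonneg _)]
      intro l
      by_cases hl : l = i
      · subst hl; rw [Real.dist_eq]
      · rw [h1 l hl, dist_self]; exact abs_nonneg _
    have h5 : |z i - z' i| ≤ |z i - z' i| / 2 := by
      have e1 : z i - z' i = (φ z' - φ z) * b := by linarith
      calc |z i - z' i| = |φ z' - φ z| * |b| := by rw [e1, abs_mul]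
        _ ≤ (dist z' z / (2 * a)) * a := by
            gcongr
            exact hφlip z' z
        _ = dist z z' / 2 := by rw [dist_comm]; field_simp
        _ ≤ |z i - z' i| / 2 := by gcongr
    have h6 : z i = z' i := by
      have := abs_nonneg (z i - z' i)
      have h7 : |z i - z' i| = 0 := by linarith
      linarith [abs_eq_zero.mp h7]
    funext l
    by_cases hl : l = i
    · subst hl; exact h6
    · exact h1 l hl
  · intro y
    set b := g (Function.update y i 0) with hb
    have hba : |b| ≤ a := hga _
    have hb2 := abs_le.mp hba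
    set ψ : ℝ → ℝ := fun t => t + φ (Function.update y i t) * b with hψ
    have hψc : Continuous ψ := continuous_id.add
      ((hφc.comp (continuous_const.update i continuous_id)).mul continuous_const)
    have hIVT := intermediate_value_Icc (a := y i - a) (b := y i + a) (by linarith)
      hψc.continuousOn
    have hmem : y i ∈ Icc (ψ (y i - a)) (ψ (y i + a)) := by
      have q : ∀ t, |φ (Function.update y i t) * b| ≤ a := by
        intro t
        rw [abs_mul, abs_of_nonneg (hφ0 _)]
        calc φ (Function.update y i t) * |b| ≤ 1 * a := by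
              gcongr
              exact hφ1 _
          _ = a := one_mul a
      have q1 := abs_le.mp (q (y i - a))
      have q2 := abs_le.mp (q (y i + a))
      simp only [hψ]
      constructor <;> linarith [q1.1, q1.2, q2.1, q2.2]
    obtain ⟨t, _, ht⟩ := hIVT hmem
    refine ⟨Function.update y i t, ?_⟩
    have h1 : Function.update (Function.update y i t) i 0 = Function.update y i 0 := by
      rw [Function.update_idem]
    simp only [hS, h1, Function.update_self, Function.update_idem]
    have h2 : t + φ (Function.update y i t) * g (Function.update y i 0) = y i := ht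
    rw [h2, Function.update_eq_self]
  · intro z
    rw [hSi]
    have : z i + φ z * g (Function.update z i 0) - z i = φ z * g (Function.update z i 0) := by ring
    rw [this, abs_mul, abs_of_nonneg (hφ0 z)]
    calc φ z * |g (Function.update z i 0)| ≤ 1 * a := by
          gcongr
          · exact hφ1 z
          · exact hga _
      _ = a := one_mul a
  · intro z hz
    have h1 : φ z = 0 := by
      simp only [hφ]
      apply max_eq_left
      have : 1 ≤ Metric.infDist z (e '' G) / (2 * a) := by
        rw [le_div_iff₀ (by positivity)]; linarith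
      linarith
    simp only [hS, h1, zero_mul, add_zero, Function.update_eq_self]
  · intro x hx
    have h1 : φ (e x) = 1 := by
      simp only [hφ]
      rw [Metric.infDist_zero_of_mem (mem_image_of_mem e hx)]
      simp
    have h2 : g (Function.update (e x) i 0) = f x := congrFun hg2 ⟨x, hx⟩
    simp only [hS, h1, h2, one_mul]

/-- coordinates `< i` from `Q`, the others from `P` -/
noncomputable def mixx (P Q : (Fin n → ℝ) → (Fin n → ℝ)) (i : ℕ) (x : Fin n → ℝ) : Fin n → ℝ :=
  fun l => if (l : ℕ) < i then Q x l else P x l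

theorem mixx_continuous {P Q : (Fin n → ℝ) → (Fin n → ℝ)} (hP : Continuous P) (hQ : Continuous Q)
    (i : ℕ) : Continuous (mixx P Q i) := by
  rw [continuous_pi_iff]
  intro l
  unfold mixx
  split_ifs
  · exact (continuous_apply l).comp hQ
  · exact (continuous_apply l).comp hP

theorem mixx_lip {P Q : (Fin n → ℝ) → (Fin n → ℝ)} {K K' : ℝ≥0} (hP : LipschitzWith K P)
    (hQ : LipschitzWith K' Q) (i : ℕ) : LipschitzWith (max K K') (mixx P Q i) := by
  apply LipschitzWith.of_dist_le_mul
  intro x y
  rw [dist_pi_le_iff (by positivity)]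
  intro l
  unfold mixx
  split_ifs with h
  · refine ((dist_le_pi_dist (Q x) (Q y) l).trans (hQ.dist_le_mul x y)).trans ?_
    gcongr
    exact le_max_right _ _
  · refine ((dist_le_pi_dist (P x) (P y) l).trans (hP.dist_le_mul x y)).trans ?_
    gcongr
    exact le_max_left _ _

theorem exists_push_step {G : Set (Fin n → ℝ)} (hG : IsCompact G) (hne : G.Nonempty)
    {P Q α : (Fin n → ℝ) → (Fin n → ℝ)} (hP : Continuous P) (hQ : Continuous Q)
    (hinj : ∀ i : Fin n, ∀ x ∈ G, ∀ y ∈ G,
      (∀ l, l ≠ i → mixx P Q i x l = mixx P Q i y l) → x = y)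
    {a b : ℝ} (ha : 0 < a) (hPQ : ∀ x ∈ G, dist (Q x) (P x) ≤ a)
    (hPα : ∀ x ∈ G, dist (P x) (α x) ≤ b) (hQα : ∀ x ∈ G, dist (Q x) (α x) ≤ b) :
    ∃ L : (Fin n → ℝ) → (Fin n → ℝ), Continuous L ∧ Function.Injective L ∧
      Function.Surjective L ∧ (∀ z, dist (L z) z ≤ a) ∧
      (∀ z, 2 * a + b ≤ Metric.infDist z (α '' G) → L z = z) ∧ ∀ x ∈ G, L (P x) = Q x := by
  classical
  have key : ∀ i : ℕ, i ≤ n → ∃ L : (Fin n → ℝ) → (Fin n → ℝ), Continuous L ∧
      Function.Injective L ∧ Function.Surjective L ∧ (∀ z l, |L z l - z l| ≤ a) ∧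
      (∀ z (l : Fin n), i ≤ (l : ℕ) → L z l = z l) ∧
      (∀ z, 2 * a + b ≤ Metric.infDist z (α '' G) → L z = z) ∧
      ∀ x ∈ G, L (P x) = mixx P Q i x := by
    intro i
    induction i with
    | zero =>
      intro _
      refine ⟨id, continuous_id, Function.injective_id, Function.surjective_id, fun z l => ?_,
        fun z l _ => rfl, fun z _ => rfl, fun x hx => ?_⟩
      · simp [ha.le]
      · funext l
        simp [mixx]
    | succ i ih =>
      intro hi
      obtain ⟨L, hLc, hLi, hLs, hLa, hLl, hLz, hLx⟩ := ih (by omega)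
      set i' : Fin n := ⟨i, hi⟩ with hi'
      obtain ⟨S, hSc, hSi, hSs, hSl, hSa, hSz, hSx⟩ := exists_shear hG i'
        (mixx_continuous hP hQ i) (hinj i') (f := fun x => Q x i' - P x i')
        (((continuous_apply i').comp hQ).sub ((continuous_apply i').comp hP)) ha
        (fun x hx => by
          rw [← Real.dist_eq]
          exact (dist_le_pi_dist _ _ i').trans (hPQ x hx))
      refine ⟨S ∘ L, hSc.comp hLc, hSi.comp hLi, hSs.comp hLs, ?_, ?_, ?_, ?_⟩
      · intro z l
        simp only [Function.comp_apply]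
        by_cases hl : l = i'
        · subst hl
          have h1 := hLl z i' (by simp [hi'])
          have h2 := hSa (L z)
          rwa [h1] at h2
        · rw [hSl _ _ hl]
          exact hLa z l
      · intro z l hl
        simp only [Function.comp_apply]
        have hne : l ≠ i' := fun h => by
          rw [h] at hl
          simp [hi'] at hl
        rw [hSl _ _ hne]
        exact hLl z l (by omega)
      · intro z hz
        simp only [Function.comp_apply]
        rw [hLz z hz]
        apply hSz
        rw [Metric.le_infDist (hne.image _)]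
        rintro _ ⟨x, hx, rfl⟩
        have h1 : dist (α x) (mixx P Q i x) ≤ b := by
          have hb : 0 ≤ b := dist_nonneg.trans (hPα x hx)
          rw [dist_pi_le_iff hb]
          intro l
          unfold mixx
          split_ifs
          · rw [dist_comm]; exact (dist_le_pi_dist _ _ l).trans (hQα x hx)
          · rw [dist_comm]; exact (dist_le_pi_dist _ _ l).trans (hPα x hx)
        have h2 : Metric.infDist z (α '' G) ≤ dist z (α x) :=
          Metric.infDist_le_dist_of_mem (mem_image_of_mem α hx)
        have h3 := dist_triangle z (mixx P Q i x) (α x)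
        rw [dist_comm (mixx P Q i x)] at h3
        linarith
      · intro x hx
        simp only [Function.comp_apply]
        rw [hLx x hx, hSx x hx]
        funext l
        by_cases hl : l = i'
        · subst hl
          rw [Function.update_self]
          have h4 : ¬ ((i' : Fin n) : ℕ) < i := by simp [hi']
          have h5 : ((i' : Fin n) : ℕ) < i + 1 := by simp [hi']
          simp only [mixx, if_neg h4, if_pos h5]
          ring
        · rw [Function.update_of_ne hl]
          have hli : (l : ℕ) ≠ i := fun h => hl (Fin.ext h)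
          have h4 : ((l : ℕ) < i + 1) ↔ ((l : ℕ) < i) := by omega
          simp only [mixx, h4]
  obtain ⟨L, hLc, hLi, hLs, hLa, _, hLz, hLx⟩ := key n le_rfl
  refine ⟨L, hLc, hLi, hLs, fun z => ?_, hLz, fun x hx => ?_⟩
  · rw [dist_pi_le_iff ha.le]
    intro l
    rw [Real.dist_eq]
    exact hLa z l
  · rw [hLx x hx]
    funext l
    simp [mixx]

/-- **Exact push.** -/
theorem exists_pushlim {d : ℕ} (hdn : 2 * d + 2 ≤ n) {G : Set (Fin n → ℝ)} (hG : IsCompact G)
    (hne : G.Nonempty) (hnet : NetLE d G) {α : (Fin n → ℝ) → (Fin n → ℝ)}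
    (hα : ContinuousOn α G) {ε : ℝ} (hε : 0 < ε) (hαε : ∀ x ∈ G, dist (α x) x ≤ ε) :
    ∃ c : (Fin n → ℝ) → (Fin n → ℝ), Continuous c ∧ (∀ z, dist (c z) z ≤ 7 * ε) ∧
      (∀ y, ∃ z, c z = y) ∧ (∀ x ∈ G, c x = α x) ∧
      ∀ y, y ∉ α '' G → ∀ z z', c z = y → c z' = y → z = z' := by
  classical
  obtain ⟨R, hR0, hR⟩ : ∃ R : ℝ, 0 ≤ R ∧ G ⊆ Metric.closedBall 0 R := by
    obtain ⟨R, hR⟩ := hG.isBounded.subset_closedBall 0
    exact ⟨max R 0, le_max_right _ _, hR.trans (Metric.closedBall_subset_closedBall (le_max_left _ _))⟩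
  set D : ℕ → ℝ := fun j => ε * (1 / 2) ^ j with hD
  have hD0 : ∀ j, 0 < D j := fun j => by simp only [hD]; positivity
  have hDs : ∀ j, D (j + 1) = D j / 2 := fun j => by simp only [hD, pow_succ]; ring
  have hDanti : ∀ i j, i ≤ j → D j ≤ D i := by
    intro i j hij
    simp only [hD]
    gcongr ε * ?_
    exact pow_le_pow_of_le_one (by norm_num) (by norm_num) hij
  -- Lipschitz approximations
  have hF : ∀ j : ℕ, ∃ (F : (Fin n → ℝ) → (Fin n → ℝ)) (K : ℝ≥0), LipschitzWith K F ∧
      (∀ x ∈ G, dist (F x) (α x) ≤ D j) ∧ (j = 0 → F = id) := by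
    intro j
    by_cases hj : j = 0
    · subst hj
      refine ⟨id, 1, LipschitzWith.id, fun x hx => ?_, fun _ => rfl⟩
      rw [dist_comm]
      simp only [hD, pow_zero, mul_one, id]
      exact hαε x hx
    · obtain ⟨F, K, h1, h2⟩ := exists_lip hG hα (hD0 j)
      exact ⟨F, K, h1, h2, fun h => absurd h hj⟩
  choose F K hFl hFα hF0 using hF
  have hη : ∀ j : ℕ, ∃ η : ℝ, 0 < η ∧ η * n < 1 ∧ η * (n * R) ≤ D j := by
    intro j
    have hDj := hD0 j
    refine ⟨min (1 / (n + 1)) (D j / (n * R + 1)), by positivity, ?_, ?_⟩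
    · calc min (1 / ((n : ℝ) + 1)) (D j / (n * R + 1)) * n ≤ (1 / ((n : ℝ) + 1)) * n := by
            gcongr; exact min_le_left _ _
        _ < 1 := by rw [one_div, inv_mul_lt_iff₀ (by positivity)]; linarith
    · calc min (1 / ((n : ℝ) + 1)) (D j / (n * R + 1)) * (n * R) ≤ (D j / (n * R + 1)) * (n * R) := by
            gcongr; exact min_le_right _ _
        _ ≤ D j := by
          rw [div_mul_eq_mul_div, div_le_iff₀ (by positivity)]
          have : 0 ≤ (n : ℝ) * R := by positivity
          nlinarith
  choose η hη0 hη1 hη2 using hη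
  obtain ⟨V, hV1, hV2⟩ := exists_matrix_count hdn hnet (ι := ℕ × Fin n) (i₀ := fun s => s.2)
    (a := fun s => mixx (F s.1) (F (s.1 + 1)) (s.2 : ℕ))
    (fun s => mixx_lip (hFl s.1) (hFl (s.1 + 1)) (s.2 : ℕ))
    (η := fun s l => if (l : ℕ) < (s.2 : ℕ) then η (s.1 + 1) else η s.1)
    (fun s l => by
      show 0 < (if (l : ℕ) < (s.2 : ℕ) then η (s.1 + 1) else η s.1)
      split_ifs
      · exact hη0 _
      · exact hη0 _)
  set A : ℕ → (Fin n → ℝ) → (Fin n → ℝ) := fun j x => F j x + η j • lin V x with hA
  have hAc : ∀ j, Continuous (A j) := fun j =>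
    (hFl j).continuous.add ((lin_lip hV1).continuous.const_smul (η j))
  have hlinR : ∀ x ∈ G, ‖lin V x‖ ≤ n * R := by
    intro x hx
    have h1 := (lin_lip hV1).dist_le_mul x 0
    have h2 : lin V (0 : Fin n → ℝ) = 0 := by
      funext l; simp [lin]
    rw [h2, dist_zero_right, dist_zero_right, NNReal.coe_natCast] at h1
    refine h1.trans ?_
    gcongr
    exact mem_closedBall_zero_iff.mp (hR hx)
  have hAα : ∀ j, ∀ x ∈ G, dist (A j x) (α x) ≤ 2 * D j := by
    intro j x hx
    have h1 : dist (A j x) (F j x) ≤ D j := by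
      simp only [hA]
      rw [dist_eq_norm, add_sub_cancel_left, norm_smul, Real.norm_eq_abs, abs_of_pos (hη0 j)]
      refine le_trans ?_ (hη2 j)
      have := hη0 j
      gcongr
      exact hlinR x hx
    have h2 := hFα j x hx
    have h3 := dist_triangle (A j x) (F j x) (α x)
    linarith
  obtain ⟨h0, _, h0e, h0d⟩ := exists_homeo_lin hV1 (hη0 0).le (hη1 0) hR0
  -- the pushes
  have hL : ∀ j : ℕ, ∃ L : (Fin n → ℝ) → (Fin n → ℝ), Continuous L ∧ Function.Injective L ∧
      Function.Surjective L ∧ (∀ z, dist (L z) z ≤ 3 * D j) ∧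
      (∀ z, 8 * D j ≤ Metric.infDist z (α '' G) → L z = z) ∧ ∀ x ∈ G, L (A j x) = A (j + 1) x := by
    intro j
    have hDj := hD0 j
    obtain ⟨L, h1, h2, h3, h4, h5, h6⟩ := exists_push_step hG hne (hAc j) (hAc (j + 1))
      (α := α) (a := 3 * D j) (b := 2 * D j) (by
        intro i x hx y hy hxy
        apply hV2 (j, i) x hx y hy
        intro l hl
        have := hxy l hl
        simp only [mixx, hA, Pi.add_apply, Pi.smul_apply, smul_eq_mul, lin] at this ⊢
        split_ifs at this ⊢ <;> exact this) (by positivity) (by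
        intro x hx
        have e1 := hAα j x hx
        have e2 := hAα (j + 1) x hx
        rw [hDs] at e2
        have e3 := dist_triangle (A (j + 1) x) (α x) (A j x)
        rw [dist_comm (α x)] at e3
        linarith) (hAα j) (by
        intro x hx
        have e2 := hAα (j + 1) x hx
        rw [hDs] at e2
        linarith)
    refine ⟨L, h1, h2, h3, h4, fun z hz => h5 z (by linarith), h6⟩
  choose L hLc hLi hLs hLd hLz hLx using hL
  set θ : ℕ → (Fin n → ℝ) → (Fin n → ℝ) := fun j => Nat.rec (h0 : (Fin n → ℝ) → (Fin n → ℝ))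
    (fun j t => L j ∘ t) j with hθ
  have hθ0 : ∀ z, θ 0 z = h0 z := fun z => rfl
  have hθs : ∀ j z, θ (j + 1) z = L j (θ j z) := fun j z => rfl
  have hθc : ∀ j, Continuous (θ j) := by
    intro j
    induction j with
    | zero => exact h0.continuous
    | succ j ih => exact (hLc j).comp ih
  have hθi : ∀ j, Function.Injective (θ j) := by
    intro j
    induction j with
    | zero => exact h0.injective
    | succ j ih => exact (hLi j).comp ih
  have hθsurj : ∀ j, Function.Surjective (θ j) := by
    intro j
    induction j with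
    | zero => exact h0.surjective
    | succ j ih => exact (hLs j).comp ih
  have hθx : ∀ j, ∀ x ∈ G, θ j x = A j x := by
    intro j
    induction j with
    | zero =>
      intro x hx
      rw [hθ0, h0e, clip_eq (hR hx)]
      simp only [hA, hF0 0 rfl, id]
    | succ j ih =>
      intro x hx
      rw [hθs, ih x hx, hLx j x hx]
  have hθd : ∀ z j, dist (θ j z) (θ (j + 1) z) ≤ 3 * ε * (1 / 2) ^ j := by
    intro z j
    rw [hθs, dist_comm]
    refine (hLd j _).trans (le_of_eq ?_)
    simp only [hD]; ring
  have hlim : ∀ z, ∃ w, Tendsto (fun j => θ j z) atTop (𝓝 w) := fun z =>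
    cauchySeq_tendsto_of_complete
      (cauchySeq_of_le_geometric (1 / 2) (3 * ε) (by norm_num) (hθd z))
  choose c hc using hlim
  have hcd : ∀ z j, dist (θ j z) (c z) ≤ 6 * D j := by
    intro z j
    refine (dist_le_of_le_geometric_of_tendsto (1 / 2) (3 * ε) (by norm_num) (hθd z)
      (hc z) j).trans (le_of_eq ?_)
    simp only [hD]
    norm_num
    ring
  have hDtend : Tendsto (fun j => D j) atTop (𝓝 0) := by
    have h1 : Tendsto (fun j : ℕ => ε * (1 / 2 : ℝ) ^ j) atTop (𝓝 (ε * 0)) :=
      (tendsto_pow_atTop_nhds_zero_of_lt_one (by norm_num) (by norm_num)).const_mul _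
    rwa [mul_zero] at h1
  have h6D : Tendsto (fun j => 6 * D j) atTop (𝓝 0) := by
    have := hDtend.const_mul 6
    rwa [mul_zero] at this
  have hcc : Continuous c := by
    have hU : TendstoUniformly θ c atTop := by
      rw [Metric.tendstoUniformly_iff]
      intro δ hδ
      filter_upwards [h6D.eventually (gt_mem_nhds hδ)] with j hj z
      rw [dist_comm]
      exact (hcd z j).trans_lt hj
    exact hU.continuous (Frequently.of_forall fun j => hθc j)
  have hc7 : ∀ z, dist (c z) z ≤ 7 * ε := by
    intro z
    have h1 := hcd z 0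
    have h2 := h0d z
    have h3 := hη2 0
    rw [hθ0] at h1
    have h4 : D 0 = ε := by simp [hD]
    rw [h4] at h1 h3
    have h5 := dist_triangle (c z) (h0 z) z
    rw [dist_comm (c z) (h0 z)] at h5
    linarith
  refine ⟨c, hcc, hc7, ?_, ?_, ?_⟩
  · intro y
    have hch : ∀ j, ∃ z, θ j z = y := fun j => hθsurj j y
    choose z hz using hch
    have hbd : ∀ j, z j ∈ Metric.closedBall y (13 * ε) := by
      intro j
      rw [Metric.mem_closedBall]
      have h1 := hcd (z j) j
      rw [hz j] at h1
      have h2 := hc7 (z j)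
      have h3 := hDanti 0 j (Nat.zero_le j)
      have h4 : D 0 = ε := by simp [hD]
      rw [h4] at h3
      have h5 := dist_triangle (z j) (c (z j)) y
      rw [dist_comm (z j) (c (z j)), dist_comm (c (z j)) y] at h5
      linarith
    obtain ⟨q, _, φ, hφ, hq⟩ := (isCompact_closedBall y (13 * ε)).tendsto_subseq hbd
    refine ⟨q, ?_⟩
    have h1 : Tendsto (fun j => c (z (φ j))) atTop (𝓝 (c q)) := (hcc.tendsto q).comp hq
    have h2 : Tendsto (fun j => c (z (φ j))) atTop (𝓝 y) := by
      rw [tendsto_iff_dist_tendsto_zero]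
      refine squeeze_zero (fun _ => dist_nonneg) (fun j => ?_) (h6D.comp hφ.tendsto_atTop)
      have := hcd (z (φ j)) (φ j)
      rw [hz (φ j), dist_comm] at this
      exact this
    exact tendsto_nhds_unique h1 h2
  · intro x hx
    have h1 : Tendsto (fun j => θ j x) atTop (𝓝 (α x)) := by
      rw [tendsto_iff_dist_tendsto_zero]
      refine squeeze_zero (fun _ => dist_nonneg) (fun j => ?_) (by
        have := hDtend.const_mul 2
        rwa [mul_zero] at this)
      rw [hθx j x hx]
      exact hAα j x hx
    exact tendsto_nhds_unique (hc x) h1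
  · intro y hy z z' hz hz'
    -- positive distance
    have hcomp : IsCompact (α '' G) := hG.image_of_continuousOn hα
    have hr : 0 < Metric.infDist y (α '' G) :=
      (hcomp.isClosed.notMem_iff_infDist_pos (hne.image _)).mp hy
    set r := Metric.infDist y (α '' G) with hrdef
    have h14 : Tendsto (fun j => 14 * D j) atTop (𝓝 0) := by
      have := hDtend.const_mul 14
      rwa [mul_zero] at this
    obtain ⟨j, hj⟩ := (h14.eventually (gt_mem_nhds hr)).exists
    have key : ∀ w, c w = y → θ j w = y := by
      intro w hw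
      have h1 := hcd w j
      rw [hw] at h1
      have h2 : 8 * D j ≤ Metric.infDist (θ j w) (α '' G) := by
        have := Metric.infDist_le_infDist_add_dist (s := α '' G) (x := y) (y := θ j w)
        rw [dist_comm y] at this
        linarith
      have h3 : ∀ i, θ (j + i) w = θ j w := by
        intro i
        induction i with
        | zero => rfl
        | succ i ih =>
          rw [← add_assoc, hθs, ih]
          apply hLz
          have := hDanti j (j + i) (Nat.le_add_right j i)
          linarith
      have h4 : Tendsto (fun i => θ (j + i) w) atTop (𝓝 (c w)) := by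
        have := (tendsto_add_atTop_iff_nat j).mpr (hc w)
        simpa [add_comm] using this
      rw [hw] at h4
      have h5 : Tendsto (fun i => θ (j + i) w) atTop (𝓝 (θ j w)) := by
        have : (fun i => θ (j + i) w) = fun _ => θ j w := by
          funext i; exact h3 i
        rw [this]
        exact tendsto_const_nhds
      exact tendsto_nhds_unique h5 h4
    exact hθi j ((key z hz).trans (key z' hz').symm)

end Pool.Agent.MCP
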