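import Mathlib

/-!
# Infinite compositions `c 0 ∘ c 1 ∘ c 2 ∘ …` of Lipschitz maps close to the identity
-/

set_option autoImplicit false

open Set Filter Topology

namespace Pool.Agent.MCP

/-- A sequence of Lipschitz self maps, the `m`-th one moving points by at most `e m`, where
`e m` is small compared with the product `P m` of the first `m` Lipschitz constants. -/
structure Sys (E : Type*) [MetricSpace E] where
  c : ℕ → E → E
  L : ℕ → ℝ
  e : ℕ → ℝ
  P : ℕ → ℝ
  one_le_L : ∀ m, 1 ≤ L m
  e_nonneg : ∀ m, 0 ≤ e m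
  lip : ∀ m x y, dist (c m x) (c m y) ≤ L m * dist x y
  near : ∀ m x, dist (c m x) x ≤ e m
  P_zero : P 0 = 1
  P_succ : ∀ m, P (m + 1) = P m * L m
  small : ∀ m, P (m + 1) * e (m + 1) ≤ P m * e m * (1 / 8)

namespace Sys

variable {E : Type*} [MetricSpace E] (S : Sys E)

/-- `W m j = c m ∘ c (m+1) ∘ … ∘ c (m+j-1)` -/
def W : ℕ → ℕ → E → E
  | _, 0 => id
  | m, j + 1 => S.c m ∘ W (m + 1) j

theorem W_zero (m : ℕ) (z : E) : S.W m 0 z = z := rfl

theorem W_succ (m j : ℕ) (z : E) : S.W m (j + 1) z = S.c m (S.W (m + 1) j z) := rfl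

theorem W_succ' (m j : ℕ) (z : E) : S.W m (j + 1) z = S.W m j (S.c (m + j) z) := by
  induction j generalizing m with
  | zero => rfl
  | succ j ih =>
    rw [W_succ, ih (m + 1), W_succ]
    congr 3
    omega

theorem one_le_P (m : ℕ) : 1 ≤ S.P m := by
  induction m with
  | zero => rw [S.P_zero]
  | succ m ih =>
    rw [S.P_succ]
    calc (1 : ℝ) = 1 * 1 := by ring
      _ ≤ S.P m * S.L m := by
        apply mul_le_mul ih (S.one_le_L m) zero_le_one
        linarith

theorem P_mono : Monotone S.P := by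
  apply monotone_nat_of_le_succ
  intro m
  rw [S.P_succ]
  have h1 := S.one_le_P m
  have h2 := S.one_le_L m
  nlinarith

theorem P_mul_dist_W (m j : ℕ) (x y : E) :
    S.P m * dist (S.W m j x) (S.W m j y) ≤ S.P (m + j) * dist x y := by
  induction j generalizing m with
  | zero => simp [W_zero]
  | succ j ih =>
    rw [W_succ, W_succ]
    have h1 := S.lip m (S.W (m + 1) j x) (S.W (m + 1) j y)
    have h2 := ih (m + 1)
    rw [show m + (j + 1) = m + 1 + j by omega]
    have hP := S.one_le_P m
    calc S.P m * dist (S.c m (S.W (m + 1) j x)) (S.c m (S.W (m + 1) j y))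
        ≤ S.P m * (S.L m * dist (S.W (m + 1) j x) (S.W (m + 1) j y)) := by gcongr
      _ = S.P (m + 1) * dist (S.W (m + 1) j x) (S.W (m + 1) j y) := by rw [S.P_succ]; ring
      _ ≤ _ := h2

theorem dist_W_le (m j : ℕ) (x y : E) :
    dist (S.W m j x) (S.W m j y) ≤ S.P (m + j) * dist x y := by
  have h1 := S.P_mul_dist_W m j x y
  have h2 := S.one_le_P m
  have h3 : 0 ≤ dist (S.W m j x) (S.W m j y) := dist_nonneg
  nlinarith

/-- `ρ m = P m * e m` -/
def rho (m : ℕ) : ℝ := S.P m * S.e m

theorem rho_nonneg (m : ℕ) : 0 ≤ S.rho m :=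
  mul_nonneg (zero_le_one.trans (S.one_le_P m)) (S.e_nonneg m)

theorem e_le_rho (m : ℕ) : S.e m ≤ S.rho m := by
  unfold rho
  have h1 := S.one_le_P m
  have h2 := S.e_nonneg m
  nlinarith

theorem rho_add (m j : ℕ) : S.rho (m + j) ≤ S.rho m * (1 / 8) ^ j := by
  induction j with
  | zero => simp
  | succ j ih =>
    have := S.small (m + j)
    calc S.rho (m + (j + 1)) ≤ S.rho (m + j) * (1 / 8) := this
      _ ≤ S.rho m * (1 / 8) ^ j * (1 / 8) := by gcongr
      _ = S.rho m * (1 / 8) ^ (j + 1) := by ring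

theorem rho_tendsto : Tendsto S.rho atTop (𝓝 0) := by
  have h1 : Tendsto (fun m : ℕ => S.rho 0 * (1 / 8 : ℝ) ^ m) atTop (𝓝 (S.rho 0 * 0)) :=
    (tendsto_pow_atTop_nhds_zero_of_lt_one (by norm_num) (by norm_num)).const_mul _
  rw [mul_zero] at h1
  refine squeeze_zero (fun m => S.rho_nonneg m) (fun m => ?_) h1
  have := S.rho_add 0 m
  rwa [zero_add] at this

theorem dist_W_succ (m j : ℕ) (z : E) :
    dist (S.W m j z) (S.W m (j + 1) z) ≤ S.rho m * (1 / 8) ^ j := by
  rw [W_succ']
  calc dist (S.W m j z) (S.W m j (S.c (m + j) z)) ≤ S.P (m + j) * dist z (S.c (m + j) z) :=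
        S.dist_W_le m j _ _
    _ ≤ S.P (m + j) * S.e (m + j) := by
        have := S.one_le_P (m + j)
        rw [dist_comm]
        gcongr
        exact S.near _ _
    _ ≤ _ := S.rho_add m j

variable [CompleteSpace E]

theorem exists_lim (m : ℕ) (z : E) : ∃ w, Tendsto (fun j => S.W m j z) atTop (𝓝 w) :=
  cauchySeq_tendsto_of_complete
    (cauchySeq_of_le_geometric (1 / 8) (S.rho m) (by norm_num) (S.dist_W_succ m · z))

/-- the infinite composition `c m ∘ c (m+1) ∘ …` -/
noncomputable def v (m : ℕ) (z : E) : E := (S.exists_lim m z).choose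

theorem tendsto_v (m : ℕ) (z : E) : Tendsto (fun j => S.W m j z) atTop (𝓝 (S.v m z)) :=
  (S.exists_lim m z).choose_spec

theorem dist_W_v (m j : ℕ) (z : E) :
    dist (S.W m j z) (S.v m z) ≤ S.rho m * (1 / 8) ^ j / (1 - 1 / 8) :=
  dist_le_of_le_geometric_of_tendsto (1 / 8) (S.rho m) (by norm_num) (S.dist_W_succ m · z)
    (S.tendsto_v m z) j

theorem dist_v (m : ℕ) (z : E) : dist z (S.v m z) ≤ S.rho m * (8 / 7) := by
  have h := S.dist_W_v m 0 z
  rw [W_zero, pow_zero] at h
  refine h.trans (le_of_eq ?_)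
  norm_num
  ring

theorem v_eq (m : ℕ) (z : E) : S.v m z = S.c m (S.v (m + 1) z) := by
  have h1 := (tendsto_add_atTop_iff_nat 1).mpr (S.tendsto_v m z)
  have hc : Continuous (S.c m) := by
    have : LipschitzWith (Real.toNNReal (S.L m)) (S.c m) := by
      apply LipschitzWith.of_dist_le_mul
      intro x y
      rw [Real.coe_toNNReal _ (zero_le_one.trans (S.one_le_L m))]
      exact S.lip m x y
    exact this.continuous
  have h2 : Tendsto (fun j => S.c m (S.W (m + 1) j z)) atTop (𝓝 (S.c m (S.v (m + 1) z))) :=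
    (hc.tendsto _).comp (S.tendsto_v (m + 1) z)
  exact tendsto_nhds_unique h1 h2

theorem W_continuous (m j : ℕ) : Continuous (S.W m j) := by
  have : LipschitzWith (Real.toNNReal (S.P (m + j))) (S.W m j) := by
    apply LipschitzWith.of_dist_le_mul
    intro x y
    rw [Real.coe_toNNReal _ (zero_le_one.trans (S.one_le_P _))]
    exact S.dist_W_le m j x y
  exact this.continuous

theorem v_continuous (m : ℕ) : Continuous (S.v m) := by
  have hU : TendstoUniformly (fun j => S.W m j) (S.v m) atTop := by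
    rw [Metric.tendstoUniformly_iff]
    intro ε hε
    have h1 : Tendsto (fun j : ℕ => S.rho m * (1 / 8 : ℝ) ^ j / (1 - 1 / 8)) atTop
        (𝓝 (S.rho m * 0 / (1 - 1 / 8))) :=
      ((tendsto_pow_atTop_nhds_zero_of_lt_one (by norm_num) (by norm_num)).const_mul _).div_const _
    rw [mul_zero, zero_div] at h1
    filter_upwards [h1.eventually (gt_mem_nhds hε)] with j hj z
    rw [dist_comm]
    exact (S.dist_W_v m j z).trans_lt hj
  exact hU.continuous (Frequently.of_forall fun j => S.W_continuous m j)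

/-- Threads converge, and the limit recovers the thread. -/
theorem thread {x : ℕ → E} (hx : ∀ m, S.c m (x (m + 1)) = x m) :
    ∃ f : E, Tendsto x atTop (𝓝 f) ∧ (∀ m, S.v m f = x m) ∧ ∀ m, dist (x m) f ≤
      S.rho m * (8 / 7) := by
  have hd : ∀ l j, dist (x (l + j)) (x (l + (j + 1))) ≤ S.rho l / S.P l * (1 / 8) ^ j := by
    intro l j
    have h1 : dist (x (l + j)) (x (l + (j + 1))) ≤ S.e (l + j) := by
      have := S.near (l + j) (x (l + j + 1))
      rw [hx (l + j)] at this
      rw [← add_assoc]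
      exact this
    have hPl := S.one_le_P l
    have hP := S.P_mono (Nat.le_add_right l j)
    have h2 : S.P l * S.e (l + j) ≤ S.rho l * (1 / 8) ^ j :=
      le_trans (mul_le_mul_of_nonneg_right hP (S.e_nonneg _)) (S.rho_add l j)
    have h3 : S.e (l + j) ≤ S.rho l / S.P l * (1 / 8) ^ j := by
      rw [div_mul_eq_mul_div, le_div_iff₀ (by linarith)]
      linarith
    exact h1.trans h3
  have hc0 : CauchySeq x := by
    have := hd 0
    simp only [zero_add] at this
    exact cauchySeq_of_le_geometric (1 / 8) _ (by norm_num) this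
  obtain ⟨f, hf⟩ := cauchySeq_tendsto_of_complete hc0
  have hdist : ∀ l, S.P l * dist (x l) f ≤ S.rho l * (8 / 7) := by
    intro l
    have hfl : Tendsto (fun j => x (l + j)) atTop (𝓝 f) := by
      have := (tendsto_add_atTop_iff_nat l).mpr hf
      simpa [add_comm] using this
    have h1 := dist_le_of_le_geometric_of_tendsto₀ (1 / 8) (S.rho l / S.P l) (by norm_num)
      (hd l) hfl
    have hPl := S.one_le_P l
    rw [add_zero] at h1
    calc S.P l * dist (x l) f ≤ S.P l * (S.rho l / S.P l / (1 - 1 / 8)) := by gcongr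
      _ = S.rho l * (8 / 7) := by
        have : S.P l ≠ 0 := by linarith
        field_simp
        norm_num
  refine ⟨f, hf, ?_, ?_⟩
  · intro m
    have hW : ∀ j, S.W m j (x (m + j)) = x m := by
      intro j
      induction j with
      | zero => rfl
      | succ j ih =>
        rw [W_succ', ← add_assoc, hx, ih]
    have h1 : Tendsto (fun j => S.W m j f) atTop (𝓝 (x m)) := by
      rw [tendsto_iff_dist_tendsto_zero]
      have h2 : Tendsto (fun j => S.rho (m + j) * (8 / 7)) atTop (𝓝 0) := by
        have h3 : Tendsto (fun j => S.rho (m + j)) atTop (𝓝 0) := by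
          have := (tendsto_add_atTop_iff_nat m).mpr S.rho_tendsto
          simpa [add_comm] using this
        have := h3.mul_const (8 / 7 : ℝ)
        rwa [zero_mul] at this
      refine squeeze_zero (fun j => dist_nonneg) (fun j => ?_) h2
      calc dist (S.W m j f) (x m) = dist (S.W m j f) (S.W m j (x (m + j))) := by rw [hW j]
        _ ≤ S.P (m + j) * dist f (x (m + j)) := S.dist_W_le m j _ _
        _ = S.P (m + j) * dist (x (m + j)) f := by rw [dist_comm]
        _ ≤ _ := hdist (m + j)
    exact tendsto_nhds_unique (S.tendsto_v m f) h1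
  · intro m
    have h1 := hdist m
    have h2 := S.one_le_P m
    have h3 : 0 ≤ dist (x m) f := dist_nonneg
    nlinarith

end Sys

end Pool.Agent.MCP
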