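import Mathlib
import Pool.Agent.MCP.Col
import Pool.Agent.MCP.Comp

/-!
# The concrete system of collapse maps
-/

set_option autoImplicit false

open Set Filter Topology

namespace Pool.Agent.MCP

/-- the pair (scale, product of Lipschitz constants) at stage `m` -/
noncomputable def st : ℕ → ℝ × ℝ
  | 0 => (1, 1)
  | m + 1 =>
    ((st m).1 / (2 * (2 / (st m).1 ^ m)) / (8 * ((st m).2 * (3 * (2 / (st m).1 ^ m)))),
      (st m).2 * (3 * (2 / (st m).1 ^ m)))

noncomputable def eps (m : ℕ) : ℝ := (st m).1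
noncomputable def PP (m : ℕ) : ℝ := (st m).2
noncomputable def pp (m : ℕ) : ℝ := 2 / eps m ^ m

theorem eps_zero : eps 0 = 1 := rfl
theorem PP_zero : PP 0 = 1 := rfl
theorem PP_succ (m : ℕ) : PP (m + 1) = PP m * (3 * pp m) := rfl
theorem eps_succ (m : ℕ) : eps (m + 1) = eps m / (2 * pp m) / (8 * PP (m + 1)) := rfl

theorem eps_PP (m : ℕ) : 0 < eps m ∧ eps m ≤ 1 ∧ 1 ≤ PP m := by
  induction m with
  | zero => rw [eps_zero, PP_zero]; norm_num
  | succ m ih =>
    obtain ⟨h1, h2, h3⟩ := ih
    have hp : 2 ≤ pp m := by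
      unfold pp
      rw [le_div_iff₀ (by positivity)]
      have : eps m ^ m ≤ 1 := pow_le_one₀ h1.le h2
      linarith
    have hP : 1 ≤ PP (m + 1) := by rw [PP_succ]; nlinarith
    refine ⟨?_, ?_, hP⟩
    · rw [eps_succ]; positivity
    · rw [eps_succ, div_div, div_le_one (by positivity)]
      nlinarith

theorem eps_pos (m : ℕ) : 0 < eps m := (eps_PP m).1
theorem eps_le_one (m : ℕ) : eps m ≤ 1 := (eps_PP m).2.1
theorem one_le_PP (m : ℕ) : 1 ≤ PP m := (eps_PP m).2.2

theorem two_le_pp (m : ℕ) : 2 ≤ pp m := by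
  unfold pp
  have h1 := eps_pos m
  rw [le_div_iff₀ (by positivity)]
  have : eps m ^ m ≤ 1 := pow_le_one₀ h1.le (eps_le_one m)
  linarith

/-- `κ m = 1 / (2 p m)` -/
noncomputable def kap (m : ℕ) : ℝ := 1 / (2 * pp m)

theorem kap_pos (m : ℕ) : 0 < kap m := by
  have := two_le_pp m
  unfold kap; positivity

theorem kap_eq (m : ℕ) : kap m = eps m ^ m / 4 := by
  have h1 := eps_pos m
  unfold kap pp
  field_simp
  norm_num

theorem kap_le (m : ℕ) : kap m ≤ 1 := by
  have h := two_le_pp m
  unfold kap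
  rw [div_le_one (by positivity)]
  linarith

theorem PP_mul_eps_succ (m : ℕ) : PP (m + 1) * eps (m + 1) = kap m * eps m / 8 := by
  have h1 := one_le_PP (m + 1)
  have h2 := two_le_pp m
  rw [eps_succ]
  unfold kap
  field_simp

theorem eps_succ_le (m : ℕ) : eps (m + 1) ≤ eps m * (1 / 8) := by
  have h1 := one_le_PP (m + 1)
  have h2 := PP_mul_eps_succ m
  have h3 := eps_pos (m + 1)
  have h4 := kap_le m
  have h5 := eps_pos m
  have h6 : kap m * eps m ≤ 1 * eps m := by gcongr
  nlinarith

theorem eps_le_pow (m : ℕ) : eps m ≤ (1 / 8) ^ m := by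
  induction m with
  | zero => rw [eps_zero]; norm_num
  | succ m ih =>
    have := eps_succ_le m
    rw [pow_succ]
    linarith

theorem eps_tendsto : Tendsto eps atTop (𝓝 0) :=
  squeeze_zero (fun m => (eps_pos m).le) eps_le_pow
    (tendsto_pow_atTop_nhds_zero_of_lt_one (by norm_num) (by norm_num))

/-- the system of scaled collapse maps -/
noncomputable def sys {n : ℕ} (k : ℕ) (hk : k < n) : Sys (Fin n → ℝ) where
  c := fun m z => eps m • col k (pp m) ((eps m)⁻¹ • z)
  L := fun m => 3 * pp m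
  e := eps
  P := PP
  one_le_L := fun m => by linarith [two_le_pp m]
  e_nonneg := fun m => (eps_pos m).le
  lip := fun m x y => by
    have he := eps_pos m
    rw [dist_smul₀, Real.norm_eq_abs, abs_of_pos he]
    have h1 := col_lip hk (two_le_pp m) ((eps m)⁻¹ • x) ((eps m)⁻¹ • y)
    rw [dist_smul₀, Real.norm_eq_abs, abs_of_pos (inv_pos.mpr he)] at h1
    calc eps m * dist (col k (pp m) ((eps m)⁻¹ • x)) (col k (pp m) ((eps m)⁻¹ • y))
        ≤ eps m * (3 * pp m * ((eps m)⁻¹ * dist x y)) := by gcongr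
      _ = 3 * pp m * dist x y := by field_simp
  near := fun m z => by
    have he := eps_pos m
    have h1 := dist_col_le hk (two_le_pp m) ((eps m)⁻¹ • z)
    have h2 : z = eps m • ((eps m)⁻¹ • z) := by rw [smul_smul, mul_inv_cancel₀ he.ne', one_smul]
    calc dist (eps m • col k (pp m) ((eps m)⁻¹ • z)) z
        = dist (eps m • col k (pp m) ((eps m)⁻¹ • z)) (eps m • ((eps m)⁻¹ • z)) := by rw [← h2]
      _ = eps m * dist (col k (pp m) ((eps m)⁻¹ • z)) ((eps m)⁻¹ • z) := by
          rw [dist_smul₀, Real.norm_eq_abs, abs_of_pos he]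
      _ ≤ eps m * 1 := by gcongr
      _ = eps m := mul_one _
  P_zero := PP_zero
  P_succ := PP_succ
  small := fun m => by
    have h1 := PP_mul_eps_succ m
    have h2 := kap_le m
    have h3 := eps_pos m
    have h4 := one_le_PP m
    have h5 := kap_pos m
    have h6 : kap m * eps m ≤ 1 * eps m := by gcongr
    have h7 : 1 * eps m ≤ PP m * eps m := by gcongr
    rw [h1]
    linarith

section
variable {n k : ℕ} (hk : k < n)

theorem sys_c (m : ℕ) (z : Fin n → ℝ) :
    (sys k hk).c m z = eps m • col k (pp m) ((eps m)⁻¹ • z) := rfl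

theorem inv_smul_sys_c (m : ℕ) (z : Fin n → ℝ) :
    (eps m)⁻¹ • (sys k hk).c m z = col k (pp m) ((eps m)⁻¹ • z) := by
  rw [sys_c, smul_smul, inv_mul_cancel₀ (eps_pos m).ne', one_smul]

/-- existence of preimages of good points -/
theorem sys_surj {m : ℕ} {x : Fin n → ℝ} (h : 0 < gv k ((eps m)⁻¹ • x)) :
    ∃ z, (sys k hk).c m z = x := by
  obtain ⟨w, hw⟩ := col_surj hk (two_le_pp m) h
  refine ⟨eps m • w, ?_⟩
  have he := (eps_pos m).ne'
  rw [sys_c, smul_smul, inv_mul_cancel₀ he, one_smul, hw, smul_smul, mul_inv_cancel₀ he, one_smul]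

/-- uniqueness of preimages of good points -/
theorem sys_inj {m : ℕ} {z z' : Fin n → ℝ}
    (h : 0 < gv k ((eps m)⁻¹ • (sys k hk).c m z))
    (hz : (sys k hk).c m z = (sys k hk).c m z') : z = z' := by
  have h1 : col k (pp m) ((eps m)⁻¹ • z) = col k (pp m) ((eps m)⁻¹ • z') := by
    rw [← inv_smul_sys_c hk, ← inv_smul_sys_c hk, hz]
  rw [inv_smul_sys_c hk] at h
  have h2 := col_inj hk (two_le_pp m) h1 h
  exact smul_right_injective _ (inv_ne_zero (eps_pos m).ne') h2

theorem sys_aa {m : ℕ} {z : Fin n → ℝ}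
    (h : 0 < gv k ((eps m)⁻¹ • (sys k hk).c m z)) : aa (pp m) < gv k ((eps m)⁻¹ • z) := by
  rw [inv_smul_sys_c hk] at h
  exact aa_lt_of_pos hk (two_le_pp m) h

/-- a point is fully good if all its intermediate preimages are good -/
def Good (x : Fin n → ℝ) : Prop :=
  ∀ m z, (sys k hk).W 0 m z = x → 0 < gv k ((eps m)⁻¹ • z)

theorem exists_thread {x : Fin n → ℝ} (hx : Good hk x) :
    ∃ t : ℕ → Fin n → ℝ, t 0 = x ∧ (∀ m, (sys k hk).c m (t (m + 1)) = t m) ∧
      ∀ m, 0 < gv k ((eps m)⁻¹ • t m) := by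
  classical
  set next : ℕ → (Fin n → ℝ) → (Fin n → ℝ) := fun m z =>
    if h : ∃ w, (sys k hk).c m w = z then h.choose else z with hnext
  set t : ℕ → Fin n → ℝ := fun m => Nat.rec x (fun m z => next m z) m with ht
  have ht0 : t 0 = x := rfl
  have hts : ∀ m, t (m + 1) = next m (t m) := fun m => rfl
  have key : ∀ m, (sys k hk).W 0 m (t m) = x := by
    intro m
    induction m with
    | zero => rw [ht0]; rfl
    | succ m ih =>
      have hg := hx m (t m) ih
      have hex := sys_surj hk hg
      have h1 : (sys k hk).c m (t (m + 1)) = t m := by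
        rw [hts m]
        simp only [hnext]
        rw [dif_pos hex]
        exact hex.choose_spec
      rw [Sys.W_succ', zero_add, h1, ih]
  refine ⟨t, ht0, fun m => ?_, fun m => hx m (t m) (key m)⟩
  have hex := sys_surj hk (hx m (t m) (key m))
  rw [hts m]
  simp only [hnext]
  rw [dif_pos hex]
  exact hex.choose_spec

/-- The universal compactum (in the cube of radius `R`). -/
def Mset (R : ℝ) : Set (Fin n → ℝ) :=
  {z | z ∈ Metric.closedBall 0 R ∧
    ∀ m, aa (pp m) ≤ gv k ((eps m)⁻¹ • (sys k hk).v (m + 1) z)}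

include hk in
theorem gv_continuous : Continuous (gv k : (Fin n → ℝ) → ℝ) := by
  have : LipschitzWith 1 (gv k : (Fin n → ℝ) → ℝ) := by
    apply LipschitzWith.of_dist_le_mul
    intro x y
    rw [Real.dist_eq, NNReal.coe_one, one_mul]
    exact abs_gv_sub_le hk x y
  exact this.continuous

theorem isCompact_Mset (R : ℝ) : IsCompact (Mset hk R) := by
  have hcl : IsClosed {z : Fin n → ℝ |
      ∀ m, aa (pp m) ≤ gv k ((eps m)⁻¹ • (sys k hk).v (m + 1) z)} := by
    rw [Set.ofPred_forall]
    apply isClosed_iInter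
    intro m
    apply isClosed_le continuous_const
    have hv : Continuous fun z => (eps m)⁻¹ • (sys k hk).v (m + 1) z :=
      (continuous_const_smul ((eps m)⁻¹)).comp ((sys k hk).v_continuous (m + 1))
    exact (gv_continuous hk).comp hv
  exact (isCompact_closedBall (0 : Fin n → ℝ) R).inter_right hcl

/-- Good points lift uniquely to the compactum. -/
theorem exists_lift {x : Fin n → ℝ} (hx : Good hk x) {R₀ : ℝ} (hR : x ∈ Metric.closedBall 0 R₀) :
    ∃ f ∈ Mset hk (R₀ + 2), (sys k hk).v 0 f = x ∧ ∀ z, (sys k hk).v 0 z = x → z = f := by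
  obtain ⟨t, ht0, htc, htg⟩ := exists_thread hk hx
  obtain ⟨f, hf, hfv, hfd⟩ := (sys k hk).thread htc
  refine ⟨f, ⟨?_, ?_⟩, ?_, ?_⟩
  · have h1 := hfd 0
    rw [ht0] at h1
    have h2 : (sys k hk).rho 0 = 1 := by
      show PP 0 * eps 0 = 1
      rw [PP_zero, eps_zero, one_mul]
    rw [h2] at h1
    rw [Metric.mem_closedBall] at hR ⊢
    have h3 := dist_triangle f x 0
    rw [dist_comm f x] at h3
    linarith
  · intro m
    rw [hfv (m + 1)]
    have h1 := htg m
    rw [← htc m] at h1
    exact (sys_aa hk h1).le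
  · rw [hfv 0, ht0]
  · intro z hz
    have hzt : ∀ m, (sys k hk).v m z = t m := by
      intro m
      induction m with
      | zero => rw [hz, ht0]
      | succ m ih =>
        rw [Sys.v_eq] at ih
        have h1 := htg m
        rw [← ih] at h1
        exact sys_inj hk h1 (by rw [ih, htc m])
    have hlim : Tendsto t atTop (𝓝 z) := by
      rw [tendsto_iff_dist_tendsto_zero]
      have h2 : Tendsto (fun m => (sys k hk).rho m * (8 / 7)) atTop (𝓝 0) := by
        have := (sys k hk).rho_tendsto.mul_const (8 / 7 : ℝ)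
        rwa [zero_mul] at this
      refine squeeze_zero (fun m => dist_nonneg) (fun m => ?_) h2
      rw [← hzt m, dist_comm]
      exact (sys k hk).dist_v m z
    exact tendsto_nhds_unique hlim hf

end

/-- Abstract continuity of sections over points with a unique preimage. -/
theorem isEmbedding_of_unique_lift {E : Type*} [MetricSpace E] [ProperSpace E]
    {u : E → E} (hu : Continuous u) {X : Set E} {f : X → E} {z₀ : E} {R : ℝ}
    (hR : ∀ x, f x ∈ Metric.closedBall z₀ R) (huf : ∀ x, u (f x) = x)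
    (huniq : ∀ x : X, ∀ z, u z = x → z = f x) : Topology.IsEmbedding f := by
  have hcont : Continuous f := by
    rw [continuous_iff_continuousAt]
    intro x0
    rw [ContinuousAt, tendsto_nhds]
    intro O hO hx0
    have hC : IsCompact (Metric.closedBall z₀ R \ O) :=
      (isCompact_closedBall z₀ R).diff hO
    have hcl : IsClosed (u '' (Metric.closedBall z₀ R \ O)) := (hC.image hu).isClosed
    have hnot : (x0 : E) ∉ u '' (Metric.closedBall z₀ R \ O) := by
      rintro ⟨z, hz, hzx⟩
      rw [huniq x0 z hzx] at hz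
      exact hz.2 hx0
    have hopen : IsOpen ((Subtype.val : X → E) ⁻¹' (u '' (Metric.closedBall z₀ R \ O))ᶜ) :=
      hcl.isOpen_compl.preimage continuous_subtype_val
    filter_upwards [hopen.mem_nhds hnot] with x hx
    by_contra hcon
    exact hx ⟨f x, ⟨hR x, hcon⟩, huf x⟩
  refine Topology.IsEmbedding.of_comp hcont hu ?_
  have : u ∘ f = Subtype.val := by
    funext x; exact huf x
  rw [this]
  exact Topology.IsEmbedding.subtypeVal

end Pool.Agent.MCP
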