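import Mathlib
import Pool.Agent.MCP.Grid

/-!
# Generic near-homeomorphisms
-/

set_option autoImplicit false

open Set Filter Topology
open scoped NNReal BoundedContinuousFunction

namespace Pool.Agent.MCP

variable {n : ℕ}

/-- displacements of uniformly continuous homeomorphisms at bounded distance from the identity -/
def DD (n : ℕ) : Set ((Fin n → ℝ) →ᵇ (Fin n → ℝ)) :=
  {u | ∃ h : (Fin n → ℝ) ≃ₜ (Fin n → ℝ), UniformContinuous h ∧ ∀ z, h z = z + u z}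

theorem zero_mem_DD : (0 : (Fin n → ℝ) →ᵇ (Fin n → ℝ)) ∈ DD n :=
  ⟨Homeomorph.refl _, uniformContinuous_id, fun z => by simp⟩

theorem mem_DD_of {h : (Fin n → ℝ) ≃ₜ (Fin n → ℝ)} (hu : UniformContinuous h) {C : ℝ}
    (hC : ∀ z, dist (h z) z ≤ C) : ∃ u ∈ DD n, ∀ z, h z = z + u z := by
  refine ⟨BoundedContinuousFunction.ofNormedAddCommGroup (fun z => h z - z)
    (h.continuous.sub continuous_id) C (fun z => by rw [← dist_eq_norm]; exact hC z),
    ⟨h, hu, fun z => ?_⟩, fun z => ?_⟩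
  · simp
  · simp

theorem isOpen_avoid {G X : Set (Fin n → ℝ)} (hG : IsCompact G) (hX : IsClosed X) :
    IsOpen {u : (Fin n → ℝ) →ᵇ (Fin n → ℝ) | ∀ z ∈ G, z + u z ∉ X} := by
  rw [Metric.isOpen_iff]
  intro u hu
  have h1 : IsCompact ((fun z => z + u z) '' G) :=
    hG.image (continuous_id.add u.continuous)
  have h2 : Disjoint ((fun z => z + u z) '' G) X := by
    rw [Set.disjoint_left]
    rintro _ ⟨z, hz, rfl⟩ h
    exact hu z hz h
  obtain ⟨r, hr, hd⟩ := h2.exists_thickenings h1 hX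
  refine ⟨r, hr, fun v hv z hz hcon => ?_⟩
  have h3 : z + v z ∈ Metric.thickening r ((fun z => z + u z) '' G) := by
    rw [Metric.mem_thickening_iff]
    refine ⟨z + u z, mem_image_of_mem _ hz, ?_⟩
    rw [dist_add_left]
    exact (BoundedContinuousFunction.dist_coe_le_dist z).trans_lt (Metric.mem_ball.mp hv)
  exact (Set.disjoint_left.mp hd) h3 (Metric.self_subset_thickening hr X hcon)

theorem tendsto_eval {u : ℕ → (Fin n → ℝ) →ᵇ (Fin n → ℝ)} {u₀ : (Fin n → ℝ) →ᵇ (Fin n → ℝ)}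
    (hu : Tendsto u atTop (𝓝 u₀)) {z : ℕ → (Fin n → ℝ)} {z₀ : Fin n → ℝ}
    (hz : Tendsto z atTop (𝓝 z₀)) : Tendsto (fun k => z k + u k (z k)) atTop (𝓝 (z₀ + u₀ z₀)) := by
  apply hz.add
  have h1 : Tendsto (fun k => u₀ (z k)) atTop (𝓝 (u₀ z₀)) := (u₀.continuous.tendsto z₀).comp hz
  rw [tendsto_iff_dist_tendsto_zero] at hu h1 ⊢
  have h2 := hu.add h1
  rw [add_zero] at h2
  refine squeeze_zero (fun _ => dist_nonneg) (fun k => ?_) h2
  exact (dist_triangle _ (u₀ (z k)) _).trans (add_le_add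
    (BoundedContinuousFunction.dist_coe_le_dist _) le_rfl)

theorem exists_bound_of_tendsto {u : ℕ → (Fin n → ℝ) →ᵇ (Fin n → ℝ)}
    {u₀ : (Fin n → ℝ) →ᵇ (Fin n → ℝ)} (hu : Tendsto u atTop (𝓝 u₀)) :
    ∃ B : ℝ, 0 ≤ B ∧ ∀ k z, ‖u k z‖ ≤ B := by
  obtain ⟨B, hB⟩ := (Metric.isBounded_range_of_tendsto u hu).exists_norm_le
  refine ⟨max B 0, le_max_right _ _, fun k z => ?_⟩
  exact ((u k).norm_coe_le_norm z).trans ((hB _ (mem_range_self k)).trans (le_max_left _ _))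

theorem isOpen_small {X : Set (Fin n → ℝ)} (hX : IsCompact X) (ε : ℝ) :
    IsOpen {u : (Fin n → ℝ) →ᵇ (Fin n → ℝ) | ∀ z z', z + u z = z' + u z' → z + u z ∈ X →
      dist z z' < ε} := by
  rw [← isClosed_compl_iff]
  apply IsSeqClosed.isClosed
  intro u u₀ hu hlim
  have hch : ∀ k, ∃ p : (Fin n → ℝ) × (Fin n → ℝ), p.1 + u k p.1 = p.2 + u k p.2 ∧
      p.1 + u k p.1 ∈ X ∧ ε ≤ dist p.1 p.2 := by
    intro k
    have := hu k
    simp only [mem_compl_iff, mem_ofPred_eq, not_forall, not_lt] at this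
    obtain ⟨z, z', h1, h2, h3⟩ := this
    exact ⟨(z, z'), h1, h2, h3⟩
  choose p hp1 hp2 hp3 using hch
  obtain ⟨B, hB0, hB⟩ := exists_bound_of_tendsto hlim
  obtain ⟨R, hR⟩ := hX.isBounded.exists_norm_le
  have hbd : ∀ k, p k ∈ Metric.closedBall (0 : Fin n → ℝ) (R + B) ×ˢ
      Metric.closedBall (0 : Fin n → ℝ) (R + B) := by
    intro k
    have aux : ∀ z : Fin n → ℝ, z + u k z ∈ X → z ∈ Metric.closedBall (0 : Fin n → ℝ) (R + B) := by
      intro z hz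
      rw [mem_closedBall_zero_iff]
      calc ‖z‖ = ‖(z + u k z) - u k z‖ := by congr 1; abel
        _ ≤ ‖z + u k z‖ + ‖u k z‖ := norm_sub_le _ _
        _ ≤ R + B := add_le_add (hR _ hz) (hB k z)
    exact ⟨aux _ (hp2 k), aux _ (by rw [← hp1 k]; exact hp2 k)⟩
  obtain ⟨q, _, φ, hφ, hq⟩ := ((isCompact_closedBall (0 : Fin n → ℝ) (R + B)).prod
    (isCompact_closedBall (0 : Fin n → ℝ) (R + B))).tendsto_subseq hbd
  have hu' : Tendsto (fun k => u (φ k)) atTop (𝓝 u₀) := hlim.comp hφ.tendsto_atTop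
  have hq1 : Tendsto (fun k => (p (φ k)).1) atTop (𝓝 q.1) := (continuous_fst.tendsto q).comp hq
  have hq2 : Tendsto (fun k => (p (φ k)).2) atTop (𝓝 q.2) := (continuous_snd.tendsto q).comp hq
  have h1 := tendsto_eval hu' hq1
  have h2 := tendsto_eval hu' hq2
  simp only [mem_compl_iff, mem_ofPred_eq, not_forall, not_lt]
  refine ⟨q.1, q.2, ?_, ?_, ?_⟩
  · refine tendsto_nhds_unique h1 (h2.congr fun k => (hp1 (φ k)).symm)
  · exact hX.isClosed.mem_of_tendsto h1 (Eventually.of_forall fun k => hp2 (φ k))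
  · exact ge_of_tendsto (hq1.dist hq2) (Eventually.of_forall fun k => hp3 (φ k))

theorem surj_of_mem_closure {u : (Fin n → ℝ) →ᵇ (Fin n → ℝ)} (hu : u ∈ closure (DD n))
    (x : Fin n → ℝ) : ∃ z, z + u z = x := by
  obtain ⟨v, hv, hlim⟩ := mem_closure_iff_seq_limit.mp hu
  have hch : ∀ k, ∃ z, z + v k z = x := by
    intro k
    obtain ⟨h, _, hh⟩ := hv k
    exact ⟨h.symm x, by rw [← hh, h.apply_symm_apply]⟩
  choose z hz using hch
  obtain ⟨B, hB0, hB⟩ := exists_bound_of_tendsto hlim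
  have hbd : ∀ k, z k ∈ Metric.closedBall (0 : Fin n → ℝ) (‖x‖ + B) := by
    intro k
    rw [mem_closedBall_zero_iff]
    calc ‖z k‖ = ‖(z k + v k (z k)) - v k (z k)‖ := by congr 1; abel
      _ ≤ ‖z k + v k (z k)‖ + ‖v k (z k)‖ := norm_sub_le _ _
      _ ≤ ‖x‖ + B := by rw [hz k]; exact add_le_add le_rfl (hB k _)
  obtain ⟨q, _, φ, hφ, hq⟩ := (isCompact_closedBall (0 : Fin n → ℝ) (‖x‖ + B)).tendsto_subseq hbd
  refine ⟨q, ?_⟩
  have h1 := tendsto_eval (hlim.comp hφ.tendsto_atTop) hq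
  refine tendsto_nhds_unique h1 ?_
  have : (fun k => (z ∘ φ) k + (v ∘ φ) k ((z ∘ φ) k)) = fun _ => x := by
    funext k; exact hz (φ k)
  rw [this]
  exact tendsto_const_nhds

/-- **Generic near-homeomorphism.** -/
theorem exists_generic {J : Type*} [Countable J] {X : ℕ → Set (Fin n → ℝ)}
    {G : J → Set (Fin n → ℝ)} (hX : ∀ i, IsCompact (X i)) (hG : ∀ j, IsCompact (G j))
    (hpush : ∀ i j, ∀ h : (Fin n → ℝ) ≃ₜ (Fin n → ℝ), ∀ ε : ℝ, 0 < ε →
      ∃ l : (Fin n → ℝ) ≃ₜ (Fin n → ℝ), UniformContinuous l ∧ (∀ z, dist (l z) z ≤ ε) ∧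
        ∀ z ∈ G j, h (l z) ∉ X i) :
    ∃ (g : (Fin n → ℝ) → (Fin n → ℝ)), Continuous g ∧ (∀ z, dist (g z) z ≤ 1) ∧
      (∀ i j, ∀ z ∈ G j, g z ∉ X i) ∧ (∀ x, ∃ z, g z = x) ∧
      ∀ i z z', g z = g z' → g z ∈ X i → z = z' := by
  have : CompleteSpace (closure (DD n)) := isClosed_closure.completeSpace_coe
  have : Nonempty (closure (DD n)) := ⟨⟨0, subset_closure zero_mem_DD⟩⟩
  set O1 : ℕ × J → Set ((Fin n → ℝ) →ᵇ (Fin n → ℝ)) := fun p =>
    {u | ∀ z ∈ G p.2, z + u z ∉ X p.1} with hO1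
  set O2 : ℕ × ℕ → Set ((Fin n → ℝ) →ᵇ (Fin n → ℝ)) := fun p =>
    {u | ∀ z z', z + u z = z' + u z' → z + u z ∈ X p.1 → dist z z' < 1 / ((p.2 : ℝ) + 1)} with hO2
  have hO1o : ∀ p, IsOpen (O1 p) := fun p => isOpen_avoid (hG p.2) (hX p.1).isClosed
  have hO2o : ∀ p, IsOpen (O2 p) := fun p => isOpen_small (hX p.1) _
  have hdense : ∀ O : Set ((Fin n → ℝ) →ᵇ (Fin n → ℝ)),
      (∀ u ∈ DD n, ∀ ε : ℝ, 0 < ε → ∃ v ∈ DD n, v ∈ O ∧ dist v u ≤ ε) →
      Dense ((Subtype.val : closure (DD n) → _) ⁻¹' O) := by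
    intro O hO u
    rw [Metric.mem_closure_iff]
    intro ε hε
    obtain ⟨u', hu', hd⟩ := Metric.mem_closure_iff.mp u.2 (ε / 2) (by positivity)
    obtain ⟨v, hv, hvO, hvd⟩ := hO u' hu' (ε / 4) (by positivity)
    refine ⟨⟨v, subset_closure hv⟩, hvO, ?_⟩
    calc dist u ⟨v, subset_closure hv⟩ = dist (u : (Fin n → ℝ) →ᵇ (Fin n → ℝ)) v := rfl
      _ ≤ dist (u : (Fin n → ℝ) →ᵇ (Fin n → ℝ)) u' + dist u' v := dist_triangle _ _ _
      _ < ε := by rw [dist_comm u' v]; linarith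
  have hO1d : ∀ p, Dense ((Subtype.val : closure (DD n) → _) ⁻¹' (O1 p)) := by
    intro p
    apply hdense
    rintro u ⟨h, hhu, hh⟩ ε hε
    obtain ⟨δ, hδ, hδε⟩ := Metric.uniformContinuous_iff.mp hhu (ε / 2) (by positivity)
    obtain ⟨l, hlu, hld, hl⟩ := hpush p.1 p.2 h (min (δ / 2) (ε / 2)) (by positivity)
    have hld1 : ∀ z, dist (l z) z < δ := fun z =>
      ((hld z).trans (min_le_left _ _)).trans_lt (by linarith)
    have hcomp : ∀ z, dist ((l.trans h) z) (h z) ≤ ε / 2 := fun z => (hδε (hld1 z)).le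
    have hhd : ∀ z, dist (h z) z ≤ ‖u‖ := by
      intro z
      rw [hh z, dist_eq_norm, add_sub_cancel_left]
      exact u.norm_coe_le_norm z
    obtain ⟨v, hv, hve⟩ := mem_DD_of (h := l.trans h) (hhu.comp hlu) (C := ε / 2 + ‖u‖)
      (fun z => (dist_triangle _ (h z) _).trans (add_le_add (hcomp z) (hhd z)))
    refine ⟨v, hv, fun z hz => ?_, ?_⟩
    · rw [← hve z]
      exact hl z hz
    · rw [BoundedContinuousFunction.dist_le hε.le]
      intro z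
      have h1 := hcomp z
      rw [hve z, hh z, dist_add_left] at h1
      linarith
  have hO2d : ∀ p, Dense ((Subtype.val : closure (DD n) → _) ⁻¹' (O2 p)) := by
    intro p
    apply hdense
    rintro u ⟨h, hhu, hh⟩ ε hε
    refine ⟨u, ⟨h, hhu, hh⟩, ?_, by rw [dist_self]; exact hε.le⟩
    intro z z' hzz _
    rw [← hh, ← hh] at hzz
    rw [h.injective hzz, dist_self]
    positivity
  have hd3 := dense_iInter_of_isOpen (f := fun b : (ℕ × J) ⊕ (ℕ × ℕ) =>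
    (Subtype.val : closure (DD n) → _) ⁻¹' (Sum.elim O1 O2 b))
    (by
      rintro (p | p)
      · exact (hO1o p).preimage continuous_subtype_val
      · exact (hO2o p).preimage continuous_subtype_val)
    (by
      rintro (p | p)
      · exact hO1d p
      · exact hO2d p)
  obtain ⟨u, hu, hu1⟩ := hd3.exists_mem_open (U := Metric.ball
    (⟨0, subset_closure zero_mem_DD⟩ : closure (DD n)) 1) Metric.isOpen_ball
    ⟨_, Metric.mem_ball_self one_pos⟩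
  rw [mem_iInter] at hu
  have hun : ‖(u : (Fin n → ℝ) →ᵇ (Fin n → ℝ))‖ ≤ 1 := by
    have h1 : dist (u : (Fin n → ℝ) →ᵇ (Fin n → ℝ)) 0 < 1 := hu1
    rw [dist_zero_right] at h1
    exact h1.le
  refine ⟨fun z => z + (u : (Fin n → ℝ) →ᵇ (Fin n → ℝ)) z, ?_, ?_, ?_, ?_, ?_⟩
  · exact continuous_id.add (u : (Fin n → ℝ) →ᵇ (Fin n → ℝ)).continuous
  · intro z
    rw [dist_eq_norm, add_sub_cancel_left]
    exact ((u : (Fin n → ℝ) →ᵇ (Fin n → ℝ)).norm_coe_le_norm z).trans hun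
  · intro i j z hz
    exact hu (Sum.inl (i, j)) z hz
  · exact surj_of_mem_closure u.2
  · intro i z z' h1 h2
    by_contra hne
    obtain ⟨s, hs⟩ := exists_nat_one_div_lt (dist_pos.mpr hne)
    have := hu (Sum.inr (i, s)) z z' h1 h2
    linarith

/-- The resulting re-embedding. -/
theorem exists_reembedding {J : Type*} [Countable J] {X : ℕ → Set (Fin n → ℝ)}
    {G : J → Set (Fin n → ℝ)} (hX : ∀ i, IsCompact (X i)) (hG : ∀ j, IsCompact (G j))
    (hpush : ∀ i j, ∀ h : (Fin n → ℝ) ≃ₜ (Fin n → ℝ), ∀ ε : ℝ, 0 < ε →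
      ∃ l : (Fin n → ℝ) ≃ₜ (Fin n → ℝ), UniformContinuous l ∧ (∀ z, dist (l z) z ≤ ε) ∧
        ∀ z ∈ G j, h (l z) ∉ X i)
    {Y : Set (Fin n → ℝ)} (hY : Y ⊆ ⋃ i, X i) {R : ℝ} (hR : ∀ y ∈ Y, ‖y‖ ≤ R) :
    ∃ f : Y → (Fin n → ℝ), Topology.IsEmbedding f ∧ (∀ y, ‖f y‖ ≤ R + 1) ∧
      ∀ y j, f y ∉ G j := by
  obtain ⟨g, hgc, hgB, hgG, hgs, hgi⟩ := exists_generic hX hG hpush
  choose f hf using fun y : Y => hgs y
  have hbd : ∀ y, ‖f y‖ ≤ R + 1 := by
    intro y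
    have h1 := hgB (f y)
    rw [hf y, dist_eq_norm] at h1
    calc ‖f y‖ = ‖(y : Fin n → ℝ) - ((y : Fin n → ℝ) - f y)‖ := by congr 1; abel
      _ ≤ ‖(y : Fin n → ℝ)‖ + ‖(y : Fin n → ℝ) - f y‖ := norm_sub_le _ _
      _ ≤ R + 1 := add_le_add (hR y y.2) h1
  refine ⟨f, ?_, hbd, ?_⟩
  · refine isEmbedding_of_unique_lift hgc (z₀ := 0) (R := R + 1)
      (fun y => mem_closedBall_zero_iff.mpr (hbd y)) hf ?_
    intro y z hz
    obtain ⟨i, hi⟩ := mem_iUnion.mp (hY y.2)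
    exact hgi i z (f y) (by rw [hz, hf y]) (by rw [hz]; exact hi)
  · intro y j hj
    obtain ⟨i, hi⟩ := mem_iUnion.mp (hY y.2)
    exact hgG i j (f y) hj (by rw [hf y]; exact hi)

end Pool.Agent.MCP
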