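import Mathlib
import Pool.Agent.MCP.GP
import Pool.Agent.MCP.Shear

/-!
# The push lemma (Klee's trick with rectifiable sets)
-/

set_option autoImplicit false

open Set Filter Topology
open scoped NNReal BoundedContinuousFunction

namespace Pool.Agent.MCP

variable {n : ℕ}

/-- the mixed map: coordinates `< i` from `F`, the others from the identity -/
noncomputable def mix (F : (Fin n → ℝ) → (Fin n → ℝ)) (i : ℕ) (x : Fin n → ℝ) : Fin n → ℝ :=
  fun l => if (l : ℕ) < i then F x l else x l

theorem mix_lip {F : (Fin n → ℝ) → (Fin n → ℝ)} {K : ℝ≥0} (hF : LipschitzWith K F) (i : ℕ) :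
    LipschitzWith (max K 1) (mix F i) := by
  apply LipschitzWith.of_dist_le_mul
  intro x y
  rw [dist_pi_le_iff (by positivity)]
  intro l
  unfold mix
  split_ifs with h
  · refine ((dist_le_pi_dist (F x) (F y) l).trans (hF.dist_le_mul x y)).trans ?_
    gcongr
    exact le_max_left _ _
  · refine (dist_le_pi_dist x y l).trans ?_
    calc dist x y = (1 : ℝ≥0) * dist x y := by simp
      _ ≤ _ := by
        gcongr
        exact le_max_right _ _

theorem exists_push_homeo {d : ℕ} (hdn : 2 * d + 2 ≤ n) {G : Set (Fin n → ℝ)} (hG : IsCompact G)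
    (hnet : NetLE d G) {F : (Fin n → ℝ) → (Fin n → ℝ)} {K : ℝ≥0} (hF : LipschitzWith K F)
    {ε δ : ℝ} (hε : 0 ≤ ε) (hδ : 0 < δ) (hFε : ∀ x ∈ G, dist (F x) x ≤ ε) :
    ∃ h : (Fin n → ℝ) ≃ₜ (Fin n → ℝ), UniformContinuous h ∧ (∀ z, dist (h z) z ≤ ε + δ) ∧
      ∀ x ∈ G, dist (h x) (F x) ≤ δ := by
  classical
  obtain ⟨R, hR0, hR⟩ : ∃ R : ℝ, 0 ≤ R ∧ G ⊆ Metric.closedBall 0 R := by
    obtain ⟨R, hR⟩ := hG.isBounded.subset_closedBall 0
    exact ⟨max R 0, le_max_right _ _, hR.trans (Metric.closedBall_subset_closedBall (le_max_left _ _))⟩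
  obtain ⟨η, hη0, hη1, hη2⟩ : ∃ η : ℝ, 0 < η ∧ η * n < 1 ∧ η * (n * R) ≤ δ := by
    refine ⟨min (1 / (n + 1)) (δ / (n * R + 1)), by positivity, ?_, ?_⟩
    · calc min (1 / ((n : ℝ) + 1)) (δ / (n * R + 1)) * n ≤ (1 / ((n : ℝ) + 1)) * n := by
            gcongr; exact min_le_left _ _
        _ < 1 := by rw [one_div, inv_mul_lt_iff₀ (by positivity)]; linarith
    · calc min (1 / ((n : ℝ) + 1)) (δ / (n * R + 1)) * (n * R) ≤ (δ / (n * R + 1)) * (n * R) := by
            gcongr; exact min_le_right _ _
        _ ≤ δ := by
          rw [div_mul_eq_mul_div, div_le_iff₀ (by positivity)]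
          have : 0 ≤ (n : ℝ) * R := by positivity
          nlinarith
  obtain ⟨V, hV1, hV2⟩ := exists_matrix hdn hnet (a := fun i => mix F (i : ℕ))
    (fun i => mix_lip hF i) hη0
  obtain ⟨h0, h0u, h0e, h0d⟩ := exists_homeo_lin hV1 hη0.le hη1 hR0
  -- the intermediate maps
  set H : ℕ → (Fin n → ℝ) → (Fin n → ℝ) := fun i x => mix F i x + η • lin V x with hH
  have hHc : ∀ i, Continuous (H i) := fun i =>
    ((mix_lip hF i).continuous).add ((lin_lip hV1).continuous.const_smul η)
  have key : ∀ i : ℕ, i ≤ n → ∃ h : (Fin n → ℝ) ≃ₜ (Fin n → ℝ), UniformContinuous h ∧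
      (∀ z l, |h z l - z l| ≤ δ + if (l : ℕ) < i then ε else 0) ∧ ∀ x ∈ G, h x = H i x := by
    intro i
    induction i with
    | zero =>
      intro _
      refine ⟨h0, h0u, fun z l => ?_, fun x hx => ?_⟩
      · simp only [Nat.not_lt_zero, if_false, add_zero]
        rw [← Real.dist_eq]
        exact (dist_le_pi_dist (h0 z) z l).trans ((h0d z).trans hη2)
      · rw [h0e, clip_eq (hR hx)]
        simp only [hH]
        congr 1
    | succ i ih =>
      intro hi
      obtain ⟨h, hu, hd, he⟩ := ih (by omega)
      set i' : Fin n := ⟨i, hi⟩ with hi'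
      -- the embedding of `G`
      set e : G → (Fin n → ℝ) := fun x => Function.update (H i x) i' 0 with hedef
      have hec : Continuous e :=
        ((hHc i).comp continuous_subtype_val).update i' continuous_const
      have heinj : Function.Injective e := by
        intro x y hxy
        apply Subtype.ext
        apply hV2 i' x x.2 y y.2
        intro l hl
        have h1 := congrFun hxy l
        simp only [hedef, Function.update_of_ne hl] at h1
        exact h1
      have : CompactSpace G := isCompact_iff_compactSpace.mp hG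
      have hemb : IsClosedEmbedding e := hec.isClosedEmbedding heinj
      set f0 : C(G, ℝ) := ⟨fun x => F x i' - (x : Fin n → ℝ) i',
        ((continuous_apply i').comp (hF.continuous.comp continuous_subtype_val)).sub
          ((continuous_apply i').comp continuous_subtype_val)⟩ with hf0
      set f : G →ᵇ ℝ := BoundedContinuousFunction.mkOfCompact f0 with hf
      have hfn : ‖f‖ ≤ ε := by
        rw [BoundedContinuousFunction.norm_le hε]
        intro x
        have h1 : ‖f x‖ = dist (F x i') ((x : Fin n → ℝ) i') := by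
          rw [Real.dist_eq]; rfl
        rw [h1]
        exact (dist_le_pi_dist _ _ i').trans (hFε x x.2)
      obtain ⟨g, hg1, hg2⟩ := BoundedContinuousFunction.exists_extension_norm_eq_of_isClosedEmbedding
        f hemb
      obtain ⟨R', hR'0, hR'⟩ : ∃ R' : ℝ, 0 ≤ R' ∧ range e ⊆ Metric.closedBall 0 R' := by
        obtain ⟨R', hR'⟩ := (isCompact_range hec).isBounded.subset_closedBall 0
        exact ⟨max R' 0, le_max_right _ _,
          hR'.trans (Metric.closedBall_subset_closedBall (le_max_left _ _))⟩
      set A : (Fin n → ℝ) → ℝ := fun z => g (clip R' z) with hA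
      have hAu : UniformContinuous A := uniformContinuous_comp_clip g.continuous hR'0
      refine ⟨h.trans (shear i' A hAu.continuous), ?_, ?_, ?_⟩
      · exact (shear_uniformContinuous i' A hAu).comp hu
      · intro z l
        have h1 : (h.trans (shear i' A hAu.continuous)) z l =
            Function.update (h z) i' (h z i' + A (Function.update (h z) i' 0)) l := rfl
        rw [h1]
        by_cases hl : l = i'
        · subst hl
          rw [Function.update_self]
          have h2 := hd z i'
          have h3 : ¬ ((i' : Fin n) : ℕ) < i := by simp [hi']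
          rw [if_neg h3, add_zero] at h2
          have h4 : ((i' : Fin n) : ℕ) < i + 1 := by simp [hi']
          rw [if_pos h4]
          have h5 : |A (Function.update (h z) i' 0)| ≤ ε := by
            have := (g.norm_coe_le_norm (clip R' (Function.update (h z) i' 0)))
            rw [hg1] at this
            exact this.trans hfn
          calc |h z i' + A (Function.update (h z) i' 0) - z i'|
              = |(h z i' - z i') + A (Function.update (h z) i' 0)| := by congr 1; ring
            _ ≤ |h z i' - z i'| + |A (Function.update (h z) i' 0)| := abs_add_le _ _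
            _ ≤ δ + ε := add_le_add h2 h5
        · rw [Function.update_of_ne hl]
          refine (hd z l).trans ?_
          have hli : (l : ℕ) ≠ i := fun h => hl (Fin.ext h)
          have h2 : ((l : ℕ) < i + 1) ↔ ((l : ℕ) < i) := by omega
          simp only [h2]
          exact le_rfl
      · intro x hx
        have h1 : (h.trans (shear i' A hAu.continuous)) x =
            Function.update (h x) i' (h x i' + A (Function.update (h x) i' 0)) := rfl
        rw [h1, he x hx]
        have h2 : Function.update (H i x) i' 0 = e ⟨x, hx⟩ := rfl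
        have h3 : A (Function.update (H i x) i' 0) = F x i' - x i' := by
          rw [h2]
          simp only [hA]
          rw [clip_eq (hR' (mem_range_self _))]
          have := congrFun hg2 ⟨x, hx⟩
          exact this
        rw [h3]
        funext l
        by_cases hl : l = i'
        · subst hl
          rw [Function.update_self]
          have h4 : ¬ ((i' : Fin n) : ℕ) < i := by simp [hi']
          have h5 : ((i' : Fin n) : ℕ) < i + 1 := by simp [hi']
          simp only [hH, Pi.add_apply, mix, if_neg h4, if_pos h5]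
          ring
        · rw [Function.update_of_ne hl]
          have hli : (l : ℕ) ≠ i := fun h => hl (Fin.ext h)
          have h4 : ((l : ℕ) < i + 1) ↔ ((l : ℕ) < i) := by omega
          simp only [hH, Pi.add_apply, mix, h4]
  obtain ⟨h, hu, hd, he⟩ := key n le_rfl
  refine ⟨h, hu, fun z => ?_, fun x hx => ?_⟩
  · rw [dist_pi_le_iff (by positivity)]
    intro l
    rw [Real.dist_eq]
    have := hd z l
    rw [if_pos l.2] at this
    linarith
  · rw [he x hx]
    have h1 : mix F n x = F x := by
      funext l; simp [mix]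
    simp only [hH]
    rw [h1, dist_eq_norm, add_sub_cancel_left]
    have h2 := h0d x
    rw [h0e, clip_eq (hR hx), dist_eq_norm, add_sub_cancel_left] at h2
    exact h2.trans hη2

/-- **Push lemma.** -/
theorem exists_push {d : ℕ} (hdn : 2 * d + 2 ≤ n) {G : Set (Fin n → ℝ)} (hG : IsCompact G)
    (hnet : NetLE d G) {X : Set (Fin n → ℝ)} (hX : IsClosed X) {α : (Fin n → ℝ) → (Fin n → ℝ)}
    (hα : ContinuousOn α G) {ε : ℝ} (hε : 0 < ε) (hαε : ∀ x ∈ G, dist (α x) x ≤ ε)
    (hαX : ∀ x ∈ G, α x ∉ X) :
    ∃ h : (Fin n → ℝ) ≃ₜ (Fin n → ℝ), UniformContinuous h ∧ (∀ z, dist (h z) z ≤ 3 * ε) ∧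
      ∀ x ∈ G, h x ∉ X := by
  -- a positive distance
  obtain ⟨r, hr, hrX⟩ : ∃ r : ℝ, 0 < r ∧ ∀ x ∈ G, Metric.ball (α x) r ∩ X = ∅ := by
    have h1 : IsCompact (α '' G) := hG.image_of_continuousOn hα
    have h2 : Disjoint (α '' G) X := by
      rw [Set.disjoint_left]
      rintro _ ⟨x, hx, rfl⟩ h
      exact hαX x hx h
    obtain ⟨r, hr, hd⟩ := h2.exists_thickenings h1 hX
    refine ⟨r, hr, fun x hx => ?_⟩
    rw [← Set.disjoint_iff_inter_eq_empty]
    refine hd.mono ?_ (Metric.self_subset_thickening hr X)
    intro z hz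
    exact Metric.mem_thickening_iff.mpr ⟨α x, mem_image_of_mem α hx, hz⟩
  set δ : ℝ := min ε (r / 4) with hδ
  have hδ0 : 0 < δ := lt_min hε (by positivity)
  obtain ⟨F, K, hF, hFα⟩ := exists_lip hG hα hδ0
  obtain ⟨h, hu, hd, hh⟩ := exists_push_homeo hdn hG hnet hF (ε := ε + δ) (δ := δ) (by positivity)
    hδ0 (fun x hx => (dist_triangle _ (α x) _).trans (by
      have := hFα x hx
      have := hαε x hx
      linarith))
  refine ⟨h, hu, fun z => (hd z).trans ?_, fun x hx hcon => ?_⟩
  · have : δ ≤ ε := min_le_left _ _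
    linarith
  · have h1 : dist (h x) (α x) < r := by
      have h2 := dist_triangle (h x) (F x) (α x)
      have h3 := hh x hx
      have h4 := hFα x hx
      have h5 : δ ≤ r / 4 := min_le_right _ _
      linarith
    have h2 : h x ∈ Metric.ball (α x) r ∩ X := ⟨h1, hcon⟩
    rw [hrX x hx] at h2
    exact h2

end Pool.Agent.MCP
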