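import Mathlib
import Pool.Agent.MCP.Grid

/-!
# The compactum has Hausdorff dimension at most `k`
-/

set_option autoImplicit false

open Set Filter Topology MeasureTheory
open scoped ENNReal NNReal

namespace Pool.Agent.MCP

section
variable {n k : ℕ} (hk : k < n)

/-- spacing of the covering grid -/
noncomputable def hh (m : ℕ) (J : Finset (Fin n)) (i : Fin n) : ℝ :=
  if i ∈ J then kap m * eps m else eps m

/-- number of half cells -/
noncomputable def BB (R : ℝ) (m : ℕ) (J : Finset (Fin n)) (i : Fin n) : ℕ :=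
  ⌈(R + 1) / hh m J i⌉₊ + 1

/-- index set of the cover -/
abbrev Idx (k : ℕ) (R : ℝ) (m : ℕ) : Type :=
  Σ J : {J : Finset (Fin n) // J.card = k}, ((i : Fin n) → Fin (2 * BB R m J.1 i + 1))

/-- covering sets -/
noncomputable def cov (R : ℝ) (m : ℕ) (b : Idx (n := n) k R m) : Set (Fin n → ℝ) :=
  {z | z ∈ Mset hk R ∧ ∀ i, |(sys k hk).v (m + 1) z i -
    hh m b.1.1 i * (((b.2 i : ℕ) : ℝ) - BB R m b.1.1 i)| ≤ kap m * eps m}

theorem hh_pos (m : ℕ) (J : Finset (Fin n)) (i : Fin n) : 0 < hh m J i := by
  unfold hh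
  have h1 := kap_pos m
  have h2 := eps_pos m
  split_ifs
  · positivity
  · exact h2

theorem hh_le_one (m : ℕ) (J : Finset (Fin n)) (i : Fin n) : hh m J i ≤ 1 := by
  unfold hh
  have h1 := kap_pos m
  have h2 := eps_pos m
  have h3 := kap_le m
  have h4 := eps_le_one m
  split_ifs
  · calc kap m * eps m ≤ 1 * 1 := by gcongr
      _ = 1 := one_mul 1
  · exact h4

theorem dist_v_succ (m : ℕ) (z : Fin n → ℝ) :
    dist z ((sys k hk).v (m + 1) z) ≤ kap m * eps m / 2 := by
  have h1 := (sys k hk).dist_v (m + 1) z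
  have h2 : (sys k hk).rho (m + 1) = kap m * eps m / 8 := PP_mul_eps_succ m
  rw [h2] at h1
  have h3 : 0 < kap m * eps m := mul_pos (kap_pos m) (eps_pos m)
  linarith

theorem Mset_subset_cov {R : ℝ} (m : ℕ) :
    Mset hk R ⊆ ⋃ b : Idx (n := n) k R m, cov hk R m b := by
  classical
  intro z hz
  set w := (sys k hk).v (m + 1) z with hw
  have he := eps_pos m
  have hkap := kap_pos m
  -- the far coordinates
  set F : Finset (Fin n) := Finset.univ.filter fun i => tt (((eps m)⁻¹ • w) i) < aa (pp m) with hF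
  have hFcard : F.card ≤ k := by
    by_contra hcon
    push Not at hcon
    obtain ⟨S, hSF, hS⟩ := Finset.exists_subset_card_eq (s := F) (n := k + 1) (by omega)
    obtain ⟨i, hi, hi2⟩ := (le_ost_iff hk).mp (hz.2 m) S hS
    have := hSF hi
    rw [hF, Finset.mem_filter] at this
    linarith [this.2]
  obtain ⟨J, hFJ, hJ⟩ := Finset.exists_superset_card_eq (s := F) hFcard
    (by rw [Fintype.card_fin]; omega)
  have hwR : ∀ i, |w i| ≤ R + 1 := by
    intro i
    have h1 : ‖z‖ ≤ R := by simpa using hz.1
    have h2 := dist_v_succ hk m z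
    have h3 : ‖w‖ ≤ ‖z‖ + dist z w := by
      have := norm_sub_le z (z - w)
      rw [sub_sub_cancel] at this
      rwa [dist_eq_norm]
    have h4 : |w i| ≤ ‖w‖ := by
      rw [← Real.norm_eq_abs]; exact norm_le_pi_norm w i
    have h5 : kap m * eps m ≤ 1 * 1 := by
      have := kap_le m
      have := eps_le_one m
      gcongr
    linarith
  -- the coordinates
  have hround : ∀ i, |(round (w i / hh m J i) : ℝ)| ≤ BB R m J i := by
    intro i
    have hhp := hh_pos m J i
    have h1 := abs_sub_round (w i / hh m J i)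
    have h2 : |w i / hh m J i| ≤ (R + 1) / hh m J i := by
      rw [abs_div, abs_of_pos hhp]
      gcongr
      exact hwR i
    have h3 : (R + 1) / hh m J i ≤ ⌈(R + 1) / hh m J i⌉₊ := Nat.le_ceil _
    have h4 : |(round (w i / hh m J i) : ℝ)| ≤ |w i / hh m J i| + 1 / 2 := by
      have := abs_sub_abs_le_abs_sub (round (w i / hh m J i) : ℝ) (w i / hh m J i)
      rw [abs_sub_comm] at h1
      linarith
    unfold BB
    push_cast
    linarith
  have hidx : ∀ i, ∃ a : Fin (2 * BB R m J i + 1),
      ((a : ℕ) : ℝ) = round (w i / hh m J i) + BB R m J i := by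
    intro i
    have h1 := abs_le.mp (hround i)
    have h2 : (0 : ℤ) ≤ round (w i / hh m J i) + BB R m J i := by
      have : (0 : ℝ) ≤ round (w i / hh m J i) + BB R m J i := by linarith [h1.1]
      exact_mod_cast this
    have h3 : round (w i / hh m J i) + BB R m J i ≤ (2 * BB R m J i : ℕ) := by
      have : (round (w i / hh m J i) : ℝ) + BB R m J i ≤ (2 * BB R m J i : ℕ) := by
        push_cast; linarith [h1.2]
      exact_mod_cast this
    refine ⟨⟨(round (w i / hh m J i) + BB R m J i).toNat, ?_⟩, ?_⟩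
    · omega
    · have : (((round (w i / hh m J i) + BB R m J i).toNat : ℤ) : ℝ) =
          ((round (w i / hh m J i) + BB R m J i : ℤ) : ℝ) := by
        rw [Int.toNat_of_nonneg h2]
      rw [Int.cast_natCast] at this
      simp only
      rw [this]
      push_cast
      ring
  choose a ha using hidx
  refine mem_iUnion.mpr ⟨⟨⟨J, hJ⟩, a⟩, hz, fun i => ?_⟩
  simp only
  rw [ha i, add_sub_cancel_right, ← hw]
  have hhp := hh_pos m J i
  have e1 : w i - hh m J i * round (w i / hh m J i) =
      hh m J i * (w i / hh m J i - round (w i / hh m J i)) := by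
    field_simp
  rw [e1, abs_mul, abs_of_pos hhp]
  by_cases hi : i ∈ J
  · have e2 : hh m J i = kap m * eps m := by unfold hh; rw [if_pos hi]
    have h1 := abs_sub_round (w i / hh m J i)
    rw [e2] at h1 ⊢
    have : 0 < kap m * eps m := mul_pos hkap he
    nlinarith
  · have e2 : hh m J i = eps m := by unfold hh; rw [if_neg hi]
    have hiF : i ∉ F := fun h => hi (hFJ h)
    rw [hF, Finset.mem_filter, not_and] at hiF
    have h1 := not_lt.mp (hiF (Finset.mem_univ i))
    have e3 : ((eps m)⁻¹ • w) i = w i / eps m := by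
      simp [div_eq_inv_mul]
    rw [e3, tt_eq] at h1
    unfold aa at h1
    rw [e2]
    have h2 : |w i / eps m - round (w i / eps m)| ≤ kap m := by
      unfold kap; linarith
    calc eps m * |w i / eps m - round (w i / eps m)| ≤ eps m * kap m := by gcongr
      _ = kap m * eps m := mul_comm _ _

theorem ediam_cov_le (R : ℝ) (m : ℕ) (b : Idx (n := n) k R m) :
    Metric.ediam (cov hk R m b) ≤ ENNReal.ofReal (3 * (kap m * eps m)) := by
  apply Metric.ediam_le
  intro z hz z' hz'
  rw [edist_dist]
  apply ENNReal.ofReal_le_ofReal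
  have h1 := dist_v_succ hk m z
  have h2 := dist_v_succ hk m z'
  have hpos : 0 < kap m * eps m := mul_pos (kap_pos m) (eps_pos m)
  have h3 : dist ((sys k hk).v (m + 1) z) ((sys k hk).v (m + 1) z') ≤ 2 * (kap m * eps m) := by
    rw [dist_pi_le_iff (by positivity)]
    intro i
    rw [Real.dist_eq]
    have e1 := abs_le.mp (hz.2 i)
    have e2 := abs_le.mp (hz'.2 i)
    rw [abs_le]
    constructor <;> linarith [e1.1, e1.2, e2.1, e2.2]
  calc dist z z' ≤ dist z ((sys k hk).v (m + 1) z) +
        dist ((sys k hk).v (m + 1) z) ((sys k hk).v (m + 1) z') +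
        dist ((sys k hk).v (m + 1) z') z' := dist_triangle4 _ _ _ _
    _ ≤ kap m * eps m / 2 + 2 * (kap m * eps m) + kap m * eps m / 2 := by
        rw [dist_comm _ z']
        gcongr
    _ = 3 * (kap m * eps m) := by ring

include hk in
theorem card_Idx_le {R : ℝ} (hR : 0 ≤ R) (m : ℕ) :
    (Fintype.card (Idx (n := n) k R m) : ℝ) ≤
      2 ^ n * (((2 * R + 7) / (kap m * eps m)) ^ k * ((2 * R + 7) / eps m) ^ n) := by
  classical
  have he := eps_pos m
  have hkap := kap_pos m
  have hle1 := eps_le_one m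
  set C : ℝ := 2 * R + 7 with hC
  have hC1 : 1 ≤ C := by rw [hC]; linarith
  have hN : ∀ (J : Finset (Fin n)) (i : Fin n), ((2 * BB R m J i + 1 : ℕ) : ℝ) ≤ C / hh m J i := by
    intro J i
    have hhp := hh_pos m J i
    have hh1 := hh_le_one m J i
    unfold BB
    push_cast
    have h3 : (⌈(R + 1) / hh m J i⌉₊ : ℝ) ≤ (R + 1) / hh m J i + 1 :=
      (Nat.ceil_lt_add_one (by positivity)).le
    have h4 : 1 ≤ 1 / hh m J i := by rw [le_div_iff₀ hhp]; linarith
    have h5 : C / hh m J i = 2 * ((R + 1) / hh m J i) + 5 * (1 / hh m J i) := by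
      rw [hC]; field_simp; ring
    rw [h5]
    linarith
  have hprod : ∀ J : {J : Finset (Fin n) // J.card = k},
      (∏ i : Fin n, ((2 * BB R m J.1 i + 1 : ℕ) : ℝ)) ≤
        (C / (kap m * eps m)) ^ k * (C / eps m) ^ n := by
    rintro ⟨J, hJ⟩
    calc (∏ i : Fin n, ((2 * BB R m J i + 1 : ℕ) : ℝ)) ≤ ∏ i : Fin n, C / hh m J i := by
          apply Finset.prod_le_prod
          · intro i _; positivity
          · intro i _; exact hN J i
      _ = ∏ i : Fin n, (if i ∈ J then C / (kap m * eps m) else C / eps m) := by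
          apply Finset.prod_congr rfl
          intro i _
          unfold hh
          split_ifs <;> rfl
      _ = (C / (kap m * eps m)) ^ k * (C / eps m) ^ (n - k) := by
          rw [Finset.prod_ite]
          simp only [Finset.prod_const]
          congr 2
          · simp [hJ]
          · have : (Finset.univ.filter fun i => i ∉ J) = Jᶜ := by
              ext i; simp
            rw [this, Finset.card_compl, Fintype.card_fin, hJ]
      _ ≤ (C / (kap m * eps m)) ^ k * (C / eps m) ^ n := by
          have h1 : 1 ≤ C / eps m := by rw [le_div_iff₀ he]; linarith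
          gcongr
          omega
  have hcard : (Fintype.card (Idx (n := n) k R m) : ℝ) =
      ∑ J : {J : Finset (Fin n) // J.card = k}, ∏ i : Fin n, ((2 * BB R m J.1 i + 1 : ℕ) : ℝ) := by
    rw [Fintype.card_sigma]
    push_cast
    apply Finset.sum_congr rfl
    intro J _
    rw [Fintype.card_pi]
    push_cast
    apply Finset.prod_congr rfl
    intro i _
    rw [Fintype.card_fin]
    push_cast
    ring
  rw [hcard]
  calc ∑ J : {J : Finset (Fin n) // J.card = k}, ∏ i : Fin n, ((2 * BB R m J.1 i + 1 : ℕ) : ℝ)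
      ≤ ∑ J : {J : Finset (Fin n) // J.card = k},
          (C / (kap m * eps m)) ^ k * (C / eps m) ^ n := Finset.sum_le_sum fun J _ => hprod J
    _ = (Fintype.card {J : Finset (Fin n) // J.card = k} : ℝ) *
          ((C / (kap m * eps m)) ^ k * (C / eps m) ^ n) := by
        rw [Finset.sum_const, Finset.card_univ, nsmul_eq_mul]
    _ ≤ 2 ^ n * ((C / (kap m * eps m)) ^ k * (C / eps m) ^ n) := by
        have h1 : (Fintype.card {J : Finset (Fin n) // J.card = k} : ℝ) ≤ 2 ^ n := by
          have h2 : Fintype.card {J : Finset (Fin n) // J.card = k} ≤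
              Fintype.card (Finset (Fin n)) := Fintype.card_subtype_le _
          rw [Fintype.card_finset, Fintype.card_fin] at h2
          exact_mod_cast h2
        gcongr

/-- The Hausdorff measures of dimension larger than `k` vanish. -/
theorem hausdorffMeasure_Mset {R : ℝ} (hR : 0 ≤ R) {s : ℝ} (hs : 0 < s) :
    μH[(k : ℝ) + s] (Mset hk R) = 0 := by
  classical
  set C : ℝ := 2 * R + 7 with hC
  have hC1 : 1 ≤ C := by rw [hC]; linarith
  -- the upper bound sequence
  set A : ℝ := 2 ^ n * C ^ k * C ^ n * 3 ^ k * (3 : ℝ) ^ s with hA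
  have hA0 : 0 ≤ A := by positivity
  have hbound : ∀ m : ℕ, (n : ℝ) + 1 ≤ m * s →
      2 ^ n * ((C / (kap m * eps m)) ^ k * (C / eps m) ^ n) *
        (3 * (kap m * eps m)) ^ ((k : ℝ) + s) ≤ A * eps m := by
    intro m hm
    have he := eps_pos m
    have hkap := kap_pos m
    have hle1 := eps_le_one m
    have hpos : 0 < kap m * eps m := mul_pos hkap he
    rw [Real.rpow_add (by positivity), Real.rpow_natCast, Real.mul_rpow (by norm_num) hpos.le]
    have h1 : (kap m * eps m) ^ s ≤ eps m ^ ((m : ℝ) * s) := by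
      have h2 : kap m * eps m ≤ eps m ^ m := by
        rw [kap_eq]
        have : 0 < eps m ^ m := by positivity
        nlinarith
      calc (kap m * eps m) ^ s ≤ (eps m ^ m) ^ s := Real.rpow_le_rpow hpos.le h2 hs.le
        _ = eps m ^ ((m : ℝ) * s) := by
          rw [← Real.rpow_natCast, ← Real.rpow_mul he.le]
    have h3 : (1 / eps m) ^ n * eps m ^ ((m : ℝ) * s) ≤ eps m := by
      have h4 : (1 / eps m) ^ n = eps m ^ (-(n : ℝ)) := by
        rw [Real.rpow_neg he.le, Real.rpow_natCast, one_div, inv_pow]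
      rw [h4, ← Real.rpow_add he]
      calc eps m ^ (-(n : ℝ) + (m : ℝ) * s) ≤ eps m ^ (1 : ℝ) :=
            Real.rpow_le_rpow_of_exponent_ge he hle1 (by linarith)
        _ = eps m := Real.rpow_one _
    have h5 : 2 ^ n * ((C / (kap m * eps m)) ^ k * (C / eps m) ^ n) *
        ((3 * (kap m * eps m)) ^ k * ((3 : ℝ) ^ s * (kap m * eps m) ^ s)) =
        A * ((1 / eps m) ^ n * (kap m * eps m) ^ s) := by
      rw [hA, div_pow, div_pow, mul_pow 3, one_div, inv_pow]
      field_simp
    rw [h5]
    have h6 : (1 / eps m) ^ n * (kap m * eps m) ^ s ≤ eps m :=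
      (mul_le_mul_of_nonneg_left h1 (by positivity)).trans h3
    gcongr
  have hle := Measure.hausdorffMeasure_le_liminf_sum ((k : ℝ) + s) (Mset hk R)
    (l := atTop) (fun m : ℕ => ENNReal.ofReal (3 * (kap m * eps m)))
    (by
      have h1 : Tendsto (fun m : ℕ => 3 * (kap m * eps m)) atTop (𝓝 0) := by
        have h2 : Tendsto (fun m : ℕ => 3 * eps m) atTop (𝓝 (3 * 0)) :=
          eps_tendsto.const_mul 3
        rw [mul_zero] at h2
        refine squeeze_zero (fun m => ?_) (fun m => ?_) h2
        · have := mul_pos (kap_pos m) (eps_pos m); positivity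
        · have := kap_le m
          have := eps_pos m
          nlinarith
      have := ENNReal.tendsto_ofReal h1
      rwa [ENNReal.ofReal_zero] at this)
    (fun m (b : Idx (n := n) k R m) => cov hk R m b)
    (Eventually.of_forall fun m b => ediam_cov_le hk R m b)
    (Eventually.of_forall fun m => Mset_subset_cov hk m)
  refine le_antisymm (hle.trans ?_) bot_le
  have hd : 0 ≤ (k : ℝ) + s := by positivity
  have hterm : ∀ m : ℕ, (n : ℝ) + 1 ≤ m * s →
      ∑ b : Idx (n := n) k R m, Metric.ediam (cov hk R m b) ^ ((k : ℝ) + s) ≤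
        ENNReal.ofReal (A * eps m) := by
    intro m hm
    have hpos : 0 < kap m * eps m := mul_pos (kap_pos m) (eps_pos m)
    calc ∑ b : Idx (n := n) k R m, Metric.ediam (cov hk R m b) ^ ((k : ℝ) + s)
        ≤ ∑ _b : Idx (n := n) k R m, ENNReal.ofReal ((3 * (kap m * eps m)) ^ ((k : ℝ) + s)) := by
          apply Finset.sum_le_sum
          intro b _
          rw [← ENNReal.ofReal_rpow_of_nonneg (by positivity) hd]
          exact ENNReal.rpow_le_rpow (ediam_cov_le hk R m b) hd
      _ = ENNReal.ofReal ((Fintype.card (Idx (n := n) k R m) : ℝ) *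
            (3 * (kap m * eps m)) ^ ((k : ℝ) + s)) := by
          rw [Finset.sum_const, Finset.card_univ, nsmul_eq_mul,
            ENNReal.ofReal_mul (by positivity), ENNReal.ofReal_natCast]
      _ ≤ ENNReal.ofReal (A * eps m) := by
          apply ENNReal.ofReal_le_ofReal
          refine le_trans ?_ (hbound m hm)
          gcongr
          exact card_Idx_le hk hR m
  have hev : ∀ᶠ m : ℕ in atTop, (n : ℝ) + 1 ≤ m * s := by
    obtain ⟨m0, hm0⟩ := exists_nat_ge (((n : ℝ) + 1) / s)
    filter_upwards [eventually_ge_atTop m0] with m hm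
    have : (m0 : ℝ) ≤ m := by exact_mod_cast hm
    rw [div_le_iff₀ hs] at hm0
    nlinarith
  have hlim : Tendsto (fun m => ENNReal.ofReal (A * eps m)) atTop (𝓝 0) := by
    have h1 : Tendsto (fun m => A * eps m) atTop (𝓝 (A * 0)) := eps_tendsto.const_mul A
    rw [mul_zero] at h1
    have := ENNReal.tendsto_ofReal h1
    rwa [ENNReal.ofReal_zero] at this
  have htend : Tendsto (fun m => ∑ b : Idx (n := n) k R m,
      Metric.ediam (cov hk R m b) ^ ((k : ℝ) + s)) atTop (𝓝 0) :=
    tendsto_of_tendsto_of_tendsto_of_le_of_le' tendsto_const_nhds hlim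
      (Eventually.of_forall fun m => bot_le) (hev.mono fun m hm => hterm m hm)
  exact htend.liminf_eq.le

theorem dimH_Mset_le {R : ℝ} (hR : 0 ≤ R) : dimH (Mset hk R) ≤ k := by
  apply dimH_le
  intro d hd
  by_contra hcon
  push Not at hcon
  have h1 : (k : ℝ) < d := by
    have : ((k : ℝ≥0) : ℝ≥0∞) < d := by exact_mod_cast hcon
    have h2 : (k : ℝ≥0) < d := by exact_mod_cast this
    exact_mod_cast h2
  have h3 := hausdorffMeasure_Mset hk hR (s := d - k) (by linarith)
  rw [add_sub_cancel] at h3
  rw [h3] at hd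
  exact ENNReal.zero_ne_top hd

end

end Pool.Agent.MCP
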