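import Mathlib
import Pool.Agent.MCP.Ind

/-!
# Szpilrajn's inequality: `H^{k+1}(A) = 0` implies `ind A ≤ k`
-/

set_option autoImplicit false

open MeasureTheory Set Filter Topology
open scoped ENNReal NNReal

namespace Pool.Agent.MCP

section
variable {T : Type*} [MetricSpace T] [MeasurableSpace T] [BorelSpace T]

theorem exists_cover {d : ℝ} {s : Set T} (h : μH[d] s = 0) {r ε : ℝ≥0∞} (hr : 0 < r)
    (hε : 0 < ε) :
    ∃ t : ℕ → Set T, s ⊆ ⋃ n, t n ∧ (∀ n, Metric.ediam (t n) ≤ r) ∧
      ∑' n, ⨆ _ : (t n).Nonempty, Metric.ediam (t n) ^ d < ε := by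
  rw [Measure.hausdorffMeasure_apply] at h
  have h1 := ENNReal.iSup_eq_zero.mp h r
  have h2 := ENNReal.iSup_eq_zero.mp h1 hr
  have h3 : (⨅ (t : ℕ → Set T) (_ : s ⊆ ⋃ n, t n) (_ : ∀ n, Metric.ediam (t n) ≤ r),
          ∑' n, ⨆ _ : (t n).Nonempty, Metric.ediam (t n) ^ d) < ε := by
    rw [h2]; exact hε
  simp only [iInf_lt_iff] at h3
  obtain ⟨t, ht1, ht2, ht3⟩ := h3
  exact ⟨t, ht1, ht2, ht3⟩

/-- Eilenberg's inequality for null sets. -/
theorem ae_slice_null {N : ℕ} {A : Set T} (h : μH[((N + 1 : ℕ) : ℝ)] A = 0) (x : T) :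
    ∀ᵐ r : ℝ, μH[(N : ℝ)] (A ∩ Metric.sphere x r) = 0 := by
  classical
  rcases Nat.eq_zero_or_pos N with hN | hN
  · subst hN
    have h1 : μH[(1 : ℝ)] ((fun y => dist y x) '' A) = 0 := by
      have hL : LipschitzWith 1 (fun y : T => dist y x) := LipschitzWith.dist_left x
      have := hL.hausdorffMeasure_image_le (d := 1) zero_le_one A
      simp only [zero_add, Nat.cast_one] at h
      rw [h, mul_zero] at this
      exact le_antisymm this bot_le
    rw [hausdorffMeasure_real] at h1
    have h2 : ∀ᵐ r : ℝ, r ∉ (fun y => dist y x) '' A := measure_eq_zero_iff_ae_notMem.mp h1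
    filter_upwards [h2] with r hr
    have : A ∩ Metric.sphere x r = ∅ := by
      ext y
      simp only [mem_inter_iff, Metric.mem_sphere, mem_empty_iff_false, iff_false, not_and]
      intro hy hyr
      exact hr ⟨y, hy, hyr⟩
    rw [this]; simp
  · -- covers
    have hcov : ∀ j : ℕ, ∃ t : ℕ → Set T, A ⊆ ⋃ n, t n ∧
        (∀ n, Metric.ediam (t n) ≤ (2⁻¹ : ℝ≥0∞) ^ j) ∧
        ∑' n, ⨆ _ : (t n).Nonempty, Metric.ediam (t n) ^ ((N + 1 : ℕ) : ℝ) <
          (2⁻¹ : ℝ≥0∞) ^ j := by
      intro j
      exact exists_cover h (ENNReal.pow_pos (by simp) j) (ENNReal.pow_pos (by simp) j)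
    choose t ht1 ht2 ht3 using hcov
    have hdiam_ne : ∀ j n, Metric.ediam (t j n) ≠ ∞ := fun j n =>
      ne_top_of_le_ne_top (ENNReal.pow_ne_top (by simp)) (ht2 j n)
    -- centres
    have hc : ∀ j n, ∃ c : ℝ, ∀ y ∈ t j n, dist y x ∈
        Metric.closedBall c (Metric.ediam (t j n)).toReal := by
      intro j n
      rcases (t j n).eq_empty_or_nonempty with he | ⟨y0, hy0⟩
      · exact ⟨0, fun y hy => by rw [he] at hy; exact absurd hy (notMem_empty _)⟩
      · refine ⟨dist y0 x, fun y hy => ?_⟩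
        rw [Metric.mem_closedBall, Real.dist_eq]
        calc |dist y x - dist y0 x| ≤ dist y y0 := abs_dist_sub_le y y0 x
          _ = (edist y y0).toReal := by rw [edist_dist, ENNReal.toReal_ofReal dist_nonneg]
          _ ≤ (Metric.ediam (t j n)).toReal :=
            ENNReal.toReal_mono (hdiam_ne j n) (Metric.edist_le_ediam_of_mem hy hy0)
    choose c hc using hc
    set I : ℕ → ℕ → Set ℝ := fun j n =>
      if (t j n).Nonempty then Metric.closedBall (c j n) (Metric.ediam (t j n)).toReal else ∅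
      with hI
    have hImeas : ∀ j n, MeasurableSet (I j n) := by
      intro j n
      simp only [hI]
      split_ifs
      · exact Metric.isClosed_closedBall.measurableSet
      · exact MeasurableSet.empty
    set φ : ℕ → ℝ → ℝ≥0∞ := fun j r =>
      ∑' n, (I j n).indicator (fun _ => Metric.ediam (t j n) ^ (N : ℝ)) r with hφ
    have hφmeas : ∀ j, Measurable (φ j) := by
      intro j
      exact Measurable.tsum fun n => measurable_const.indicator (hImeas j n)
    have hint : ∀ j, ∫⁻ r, φ j r ≤ 2 * (2⁻¹ : ℝ≥0∞) ^ j := by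
      intro j
      simp only [hφ]
      rw [lintegral_tsum (fun n => (measurable_const.indicator (hImeas j n)).aemeasurable)]
      have : ∀ n, ∫⁻ r, (I j n).indicator (fun _ => Metric.ediam (t j n) ^ (N : ℝ)) r ≤
          2 * ⨆ _ : (t j n).Nonempty, Metric.ediam (t j n) ^ ((N + 1 : ℕ) : ℝ) := by
        intro n
        rw [lintegral_indicator_const (hImeas j n)]
        by_cases hne : (t j n).Nonempty
        · simp only [hI, hne, if_true, ciSup_pos]
          rw [Real.volume_closedBall, ENNReal.ofReal_mul zero_le_two,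
            ENNReal.ofReal_toReal (hdiam_ne j n), Nat.cast_add, Nat.cast_one,
            ENNReal.rpow_add_of_nonneg _ _ (Nat.cast_nonneg _) zero_le_one, ENNReal.rpow_one,
            ENNReal.ofReal_ofNat]
          apply le_of_eq; ring
        · simp [hI, hne]
      calc ∑' n, ∫⁻ r, (I j n).indicator (fun _ => Metric.ediam (t j n) ^ (N : ℝ)) r
          ≤ ∑' n, 2 * ⨆ _ : (t j n).Nonempty, Metric.ediam (t j n) ^ ((N + 1 : ℕ) : ℝ) :=
            ENNReal.tsum_le_tsum this
        _ = 2 * ∑' n, ⨆ _ : (t j n).Nonempty, Metric.ediam (t j n) ^ ((N + 1 : ℕ) : ℝ) :=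
            ENNReal.tsum_mul_left
        _ ≤ 2 * (2⁻¹ : ℝ≥0∞) ^ j := by gcongr; exact (ht3 j).le
    have hsum : ∫⁻ r, ∑' j, φ j r < ∞ := by
      rw [lintegral_tsum (fun j => (hφmeas j).aemeasurable)]
      calc ∑' j, ∫⁻ r, φ j r ≤ ∑' j, 2 * (2⁻¹ : ℝ≥0∞) ^ j := ENNReal.tsum_le_tsum hint
        _ = 2 * ∑' j, (2⁻¹ : ℝ≥0∞) ^ j := ENNReal.tsum_mul_left
        _ < ∞ := by
          rw [ENNReal.tsum_geometric, ENNReal.one_sub_inv_two, inv_inv]
          exact ENNReal.mul_lt_top (by simp) (by simp)
    have hae : ∀ᵐ r : ℝ, ∑' j, φ j r < ∞ :=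
      ae_lt_top (Measurable.tsum hφmeas) hsum.ne
    filter_upwards [hae] with r hr
    have htend : Tendsto (fun j => φ j r) atTop (𝓝 0) :=
      ENNReal.tendsto_atTop_zero_of_tsum_ne_top hr.ne
    have hNpos : (0 : ℝ) < N := by exact_mod_cast hN
    have hle := Measure.hausdorffMeasure_le_liminf_tsum (N : ℝ) (A ∩ Metric.sphere x r)
      (l := atTop) (fun j : ℕ => (2⁻¹ : ℝ≥0∞) ^ j)
      (ENNReal.tendsto_pow_atTop_nhds_zero_of_lt_one (by simp))
      (fun j n => if r ∈ I j n then t j n else ∅) (Eventually.of_forall fun j n => by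
        split_ifs
        · exact ht2 j n
        · simp) (Eventually.of_forall fun j y hy => by
          obtain ⟨n, hn⟩ := mem_iUnion.mp (ht1 j hy.1)
          refine mem_iUnion.mpr ⟨n, ?_⟩
          have hr' : r ∈ I j n := by
            have hne : (t j n).Nonempty := ⟨y, hn⟩
            simp only [hI, hne, if_true]
            have := hc j n y hn
            rw [Metric.mem_sphere.mp hy.2] at this
            exact this
          simp only [hr', if_true]
          exact hn)
    refine le_antisymm (hle.trans ?_) bot_le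
    have hEq : (fun j => ∑' n, Metric.ediam (if r ∈ I j n then t j n else ∅) ^ (N : ℝ)) =
        fun j => φ j r := by
      funext j
      simp only [hφ]
      congr 1
      funext n
      by_cases hmem : r ∈ I j n
      · simp [hmem]
      · simp [hmem, hN.ne']
    rw [hEq, htend.liminf_eq]

/-- **Szpilrajn**: a set with `H^N(A) = 0` has small inductive dimension at most `N - 1`. -/
theorem indLE_of_hausdorffMeasure_zero (N : ℕ) :
    ∀ {A : Set T}, μH[(N : ℝ)] A = 0 → IndLE ((N : ℤ) - 1) A := by
  induction N with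
  | zero =>
    intro A h
    have : A = ∅ := by
      by_contra hne
      have h1 := Measure.one_le_hausdorffMeasure_zero_of_nonempty
        (nonempty_iff_ne_empty.mpr hne)
      simp only [Nat.cast_zero] at h
      rw [h] at h1
      exact absurd h1 (by simp)
    rw [this]
    exact indLE_empty (by simp)
  | succ N ih =>
    intro A h
    apply IndLE.intro
    refine Or.inr ⟨by push_cast; omega, fun x hx U hU hxU => ?_⟩
    obtain ⟨r0, hr0, hball⟩ := Metric.isOpen_iff.mp hU x hxU
    have hae := ae_slice_null h x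
    have : ∃ r ∈ Ioo 0 r0, μH[(N : ℝ)] (A ∩ Metric.sphere x r) = 0 := by
      by_contra hcon
      push Not at hcon
      have h1 : Ioo (0:ℝ) r0 ⊆ {r | ¬ μH[(N : ℝ)] (A ∩ Metric.sphere x r) = 0} :=
        fun r hr => hcon r hr
      have h2 : volume (Ioo (0:ℝ) r0) = 0 := measure_mono_null h1 hae
      rw [Real.volume_Ioo] at h2
      simp only [sub_zero, ENNReal.ofReal_eq_zero] at h2
      linarith
    obtain ⟨r, hr, hnull⟩ := this
    refine ⟨Metric.ball x r, Metric.isOpen_ball, Metric.mem_ball_self hr.1,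
      (Metric.ball_subset_ball hr.2.le).trans hball, ?_⟩
    have hsub : (closure (Metric.ball x r ∩ A) ∩ A) \ Metric.ball x r ⊆
        A ∩ Metric.sphere x r := by
      rintro y ⟨⟨hy1, hy2⟩, hy3⟩
      refine ⟨hy2, ?_⟩
      have h1 : y ∈ Metric.closedBall x r := by
        have : closure (Metric.ball x r ∩ A) ⊆ Metric.closedBall x r :=
          closure_minimal (inter_subset_left.trans Metric.ball_subset_closedBall)
            Metric.isClosed_closedBall
        exact this hy1
      rw [Metric.mem_sphere]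
      rw [Metric.mem_closedBall] at h1
      rw [Metric.mem_ball, not_lt] at hy3
      linarith
    have hnull' := measure_mono_null hsub hnull
    have := ih hnull'
    have he : (((N + 1 : ℕ) : ℤ) - 1 - 1) = (N : ℤ) - 1 := by push_cast; ring
    rw [he]
    exact this

end

end Pool.Agent.MCP
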