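import Mathlib
import Pool.Agent.MCP.Slice

/-!
# Generic translations push an `H^N`-null set off a Lipschitz image of `ℝ^(n-N)`
-/

set_option autoImplicit false

open MeasureTheory Set Filter Topology
open scoped ENNReal NNReal

namespace Pool.Agent.MCP

variable {n : ℕ} {ι : Type*} [Fintype ι]

/-- Volume bound for one covering set of diameter at most `R`. -/
theorem volume_piece_le {K : ℝ≥0} {φ : (ι → ℝ) → (Fin n → ℝ)} (hφ : LipschitzWith K φ)
    {t : Set (Fin n → ℝ)} {R : ℝ} (hR0 : 0 < R) (hR1 : R ≤ 1)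
    (ht : ∀ x ∈ t, ∀ x' ∈ t, dist x x' ≤ R) :
    volume {τ : Fin n → ℝ | ∃ x ∈ t, ∃ y : ι → ℝ, (∀ j, 0 ≤ y j ∧ y j ≤ 1) ∧ φ y = x + τ} ≤
      ENNReal.ofReal ((2 / R) ^ Fintype.card ι * (2 * ((K + 1) * R)) ^ n) := by
  classical
  set M : ℕ := ⌊1 / R⌋₊ + 1 with hM
  set V : (ι → Fin M) → Set (Fin n → ℝ) := fun b =>
    {τ | ∃ x ∈ t, ∃ y : ι → ℝ, (∀ j, 0 ≤ y j ∧ ⌊y j / R⌋₊ = (b j : ℕ)) ∧ φ y = x + τ} with hV
  have hsub : {τ : Fin n → ℝ | ∃ x ∈ t, ∃ y : ι → ℝ, (∀ j, 0 ≤ y j ∧ y j ≤ 1) ∧ φ y = x + τ} ⊆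
      ⋃ b, V b := by
    rintro τ ⟨x, hx, y, hy, hxy⟩
    have hb : ∀ j, ⌊y j / R⌋₊ < M := by
      intro j
      rw [hM, Nat.lt_succ_iff]
      exact Nat.floor_le_floor (div_le_div_of_nonneg_right (hy j).2 hR0.le)
    exact mem_iUnion.mpr ⟨fun j => ⟨⌊y j / R⌋₊, hb j⟩, x, hx, y, fun j => ⟨(hy j).1, rfl⟩, hxy⟩
  have hVb : ∀ b, volume (V b) ≤ ENNReal.ofReal ((2 * ((K + 1) * R)) ^ n) := by
    intro b
    rcases (V b).eq_empty_or_nonempty with he | ⟨τ0, hτ0⟩
    · rw [he]; simp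
    · have hball : V b ⊆ Metric.closedBall τ0 ((K + 1) * R) := by
        intro τ hτ
        obtain ⟨x, hx, y, hy, hxy⟩ := hτ
        obtain ⟨x0, hx0, y0, hy0, hxy0⟩ := hτ0
        rw [Metric.mem_closedBall]
        have h1 : τ = φ y - x := by rw [hxy]; abel
        have h2 : τ0 = φ y0 - x0 := by rw [hxy0]; abel
        have hyy : dist y y0 ≤ R := by
          rw [dist_pi_le_iff hR0.le]
          intro j
          have e1 := Nat.floor_le (div_nonneg (hy j).1 hR0.le)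
          have e2 := Nat.lt_floor_add_one (y j / R)
          have e3 := Nat.floor_le (div_nonneg (hy0 j).1 hR0.le)
          have e4 := Nat.lt_floor_add_one (y0 j / R)
          rw [(hy j).2] at e1 e2
          rw [(hy0 j).2] at e3 e4
          rw [Real.dist_eq, abs_le]
          have f1 : y j / R - y0 j / R ≤ 1 := by linarith
          have f2 : -1 ≤ y j / R - y0 j / R := by linarith
          rw [← sub_div] at f1 f2
          rw [div_le_one hR0] at f1
          rw [le_div_iff₀ hR0] at f2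
          constructor <;> linarith
        calc dist τ τ0 = ‖(φ y - φ y0) - (x - x0)‖ := by
              rw [dist_eq_norm, h1, h2]; congr 1; abel
          _ ≤ ‖φ y - φ y0‖ + ‖x - x0‖ := norm_sub_le _ _
          _ = dist (φ y) (φ y0) + dist x x0 := by rw [dist_eq_norm, dist_eq_norm]
          _ ≤ K * dist y y0 + R := add_le_add (hφ.dist_le_mul y y0) (ht x hx x0 hx0)
          _ ≤ K * R + R := by gcongr
          _ = (K + 1) * R := by ring
      calc volume (V b) ≤ volume (Metric.closedBall τ0 ((K + 1) * R)) := measure_mono hball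
        _ = ENNReal.ofReal ((2 * ((K + 1) * R)) ^ n) := by
          rw [Real.volume_pi_closedBall _ (by positivity)]; simp
  calc volume {τ : Fin n → ℝ | ∃ x ∈ t, ∃ y : ι → ℝ, (∀ j, 0 ≤ y j ∧ y j ≤ 1) ∧ φ y = x + τ}
      ≤ volume (⋃ b, V b) := measure_mono hsub
    _ ≤ ∑' b, volume (V b) := measure_iUnion_le V
    _ ≤ ∑' _ : ι → Fin M, ENNReal.ofReal ((2 * ((K + 1) * R)) ^ n) := ENNReal.tsum_le_tsum hVb
    _ = ENNReal.ofReal ((M : ℝ) ^ Fintype.card ι * (2 * ((K + 1) * R)) ^ n) := by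
        rw [tsum_fintype, Finset.sum_const, Finset.card_univ, Fintype.card_fun, Fintype.card_fin,
          nsmul_eq_mul, ENNReal.ofReal_mul (by positivity)]
        congr 1
        rw [ENNReal.ofReal_pow (by positivity), ENNReal.ofReal_natCast, Nat.cast_pow]
    _ ≤ ENNReal.ofReal ((2 / R) ^ Fintype.card ι * (2 * ((K + 1) * R)) ^ n) := by
        apply ENNReal.ofReal_le_ofReal
        apply mul_le_mul_of_nonneg_right _ (by positivity)
        apply pow_le_pow_left₀ (by positivity)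
        rw [hM]
        push_cast
        have h1 : (⌊1 / R⌋₊ : ℝ) ≤ 1 / R := Nat.floor_le (by positivity)
        have h2 : 1 ≤ 1 / R := by rw [le_div_iff₀ hR0]; linarith
        have h3 : 2 / R = 1 / R + 1 / R := by ring
        linarith

/-- The unit box version. -/
theorem translate_null_box {N : ℕ} (hn : Fintype.card ι + N = n) (hN : 0 < N) {K : ℝ≥0}
    {φ : (ι → ℝ) → (Fin n → ℝ)} (hφ : LipschitzWith K φ) {X : Set (Fin n → ℝ)}
    (hX : μH[(N : ℝ)] X = 0) :
    volume {τ : Fin n → ℝ | ∃ x ∈ X, ∃ y : ι → ℝ, (∀ j, 0 ≤ y j ∧ y j ≤ 1) ∧ φ y = x + τ} = 0 := by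
  classical
  set C : ℝ := 2 ^ Fintype.card ι * (2 * (K + 1)) ^ n with hC
  have hC0 : 0 ≤ C := by positivity
  have main : ∀ ε : ℝ≥0∞, 0 < ε →
      volume {τ : Fin n → ℝ | ∃ x ∈ X, ∃ y : ι → ℝ, (∀ j, 0 ≤ y j ∧ y j ≤ 1) ∧ φ y = x + τ} ≤
        ENNReal.ofReal C * (ε + ε) := by
    intro ε hε
    obtain ⟨t, ht1, ht2, ht3⟩ := exists_cover hX (r := 1) one_pos hε
    obtain ⟨s, hs0, hs1⟩ := ENNReal.exists_pos_sum_of_countable (ε := min ε 1)
      (by positivity) ℕ
    have hs_le : ∀ i, (s i : ℝ) ≤ 1 := by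
      intro i
      have h1 : (s i : ℝ≥0∞) ≤ ∑' i, (s i : ℝ≥0∞) := ENNReal.le_tsum i
      have h2 : (s i : ℝ≥0∞) ≤ 1 := h1.trans (hs1.le.trans (min_le_right _ _))
      exact_mod_cast h2
    have hdiam_ne : ∀ i, Metric.ediam (t i) ≠ ∞ := fun i =>
      ne_top_of_le_ne_top ENNReal.one_ne_top (ht2 i)
    set R : ℕ → ℝ := fun i => max (Metric.ediam (t i)).toReal (s i) with hR
    have hR0 : ∀ i, 0 < R i := fun i => lt_max_of_lt_right (by exact_mod_cast hs0 i)
    have hR1 : ∀ i, R i ≤ 1 := by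
      intro i
      apply max_le _ (hs_le i)
      have := ENNReal.toReal_mono ENNReal.one_ne_top (ht2 i)
      simpa using this
    have hsub : {τ : Fin n → ℝ | ∃ x ∈ X, ∃ y : ι → ℝ, (∀ j, 0 ≤ y j ∧ y j ≤ 1) ∧ φ y = x + τ} ⊆
        ⋃ i, {τ : Fin n → ℝ | ∃ x ∈ t i, ∃ y : ι → ℝ, (∀ j, 0 ≤ y j ∧ y j ≤ 1) ∧
          φ y = x + τ} := by
      rintro τ ⟨x, hx, y, hy, hxy⟩
      obtain ⟨i, hi⟩ := mem_iUnion.mp (ht1 hx)
      exact mem_iUnion.mpr ⟨i, x, hi, y, hy, hxy⟩
    have hpiece : ∀ i, volume {τ : Fin n → ℝ | ∃ x ∈ t i, ∃ y : ι → ℝ,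
        (∀ j, 0 ≤ y j ∧ y j ≤ 1) ∧ φ y = x + τ} ≤
        ENNReal.ofReal C * ((⨆ _ : (t i).Nonempty, Metric.ediam (t i) ^ (N : ℝ)) + s i) := by
      intro i
      rcases (t i).eq_empty_or_nonempty with he | hne
      · have : {τ : Fin n → ℝ | ∃ x ∈ t i, ∃ y : ι → ℝ,
            (∀ j, 0 ≤ y j ∧ y j ≤ 1) ∧ φ y = x + τ} = ∅ := by
          rw [he]; ext τ; simp
        rw [this]; simp
      · have h1 := volume_piece_le hφ (hR0 i) (hR1 i) (t := t i) (by
          intro x hx x' hx'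
          refine le_trans ?_ (le_max_left _ _)
          have h2 := Metric.edist_le_ediam_of_mem hx hx'
          have h3 := ENNReal.toReal_mono (hdiam_ne i) h2
          rwa [edist_dist, ENNReal.toReal_ofReal dist_nonneg] at h3)
        refine h1.trans ?_
        have h2 : (2 / R i) ^ Fintype.card ι * (2 * ((K + 1) * R i)) ^ n = C * R i ^ N := by
          have hRi := (hR0 i).ne'
          rw [hC, ← hn, div_pow, show (2 * (((K : ℝ) + 1) * R i)) = (2 * (K + 1)) * R i by ring,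
            mul_pow _ (R i), pow_add (R i)]
          field_simp
        rw [h2, ENNReal.ofReal_mul hC0]
        gcongr
        rw [iSup_pos hne]
        have h3 : R i ^ N ≤ (Metric.ediam (t i)).toReal ^ N + s i := by
          simp only [hR]
          rcases le_total (Metric.ediam (t i)).toReal (s i : ℝ) with hle | hle
          · rw [max_eq_right hle]
            have : (s i : ℝ) ^ N ≤ s i := by
              calc (s i : ℝ) ^ N ≤ (s i : ℝ) ^ 1 :=
                    pow_le_pow_of_le_one (by positivity) (hs_le i) hN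
                _ = s i := pow_one _
            have h0 : 0 ≤ (Metric.ediam (t i)).toReal ^ N := by positivity
            linarith
          · rw [max_eq_left hle]
            have : (0 : ℝ) ≤ s i := by positivity
            linarith
        calc ENNReal.ofReal (R i ^ N)
            ≤ ENNReal.ofReal ((Metric.ediam (t i)).toReal ^ N + s i) :=
              ENNReal.ofReal_le_ofReal h3
          _ = ENNReal.ofReal ((Metric.ediam (t i)).toReal ^ N) + ENNReal.ofReal (s i) :=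
              ENNReal.ofReal_add (by positivity) (by positivity)
          _ = Metric.ediam (t i) ^ (N : ℝ) + s i := by
              rw [ENNReal.ofReal_pow ENNReal.toReal_nonneg, ENNReal.ofReal_toReal (hdiam_ne i),
                ENNReal.ofReal_coe_nnreal, ENNReal.rpow_natCast]
    calc volume {τ : Fin n → ℝ | ∃ x ∈ X, ∃ y : ι → ℝ, (∀ j, 0 ≤ y j ∧ y j ≤ 1) ∧ φ y = x + τ}
        ≤ volume (⋃ i, {τ : Fin n → ℝ | ∃ x ∈ t i, ∃ y : ι → ℝ, (∀ j, 0 ≤ y j ∧ y j ≤ 1) ∧
          φ y = x + τ}) := measure_mono hsub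
      _ ≤ ∑' i, volume {τ : Fin n → ℝ | ∃ x ∈ t i, ∃ y : ι → ℝ, (∀ j, 0 ≤ y j ∧ y j ≤ 1) ∧
          φ y = x + τ} := measure_iUnion_le _
      _ ≤ ∑' i, ENNReal.ofReal C *
            ((⨆ _ : (t i).Nonempty, Metric.ediam (t i) ^ (N : ℝ)) + s i) :=
          ENNReal.tsum_le_tsum hpiece
      _ = ENNReal.ofReal C * ((∑' i, ⨆ _ : (t i).Nonempty, Metric.ediam (t i) ^ (N : ℝ)) +
            ∑' i, (s i : ℝ≥0∞)) := by
          rw [ENNReal.tsum_mul_left, ENNReal.tsum_add]
      _ ≤ ENNReal.ofReal C * (ε + ε) := by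
          gcongr
          exact hs1.le.trans (min_le_left _ _)
  have htend : Tendsto (fun m : ℕ => ENNReal.ofReal C * ((2⁻¹ : ℝ≥0∞) ^ m + (2⁻¹ : ℝ≥0∞) ^ m))
      atTop (𝓝 0) := by
    have h1 : Tendsto (fun m : ℕ => (2⁻¹ : ℝ≥0∞) ^ m) atTop (𝓝 0) :=
      ENNReal.tendsto_pow_atTop_nhds_zero_of_lt_one (by simp)
    have h2 := h1.add h1
    have h3 := ENNReal.Tendsto.const_mul h2 (Or.inr (ENNReal.ofReal_ne_top (r := C)))
    simpa using h3
  refine le_antisymm (ge_of_tendsto' htend fun m => main _ (ENNReal.pow_pos (by simp) m)) bot_le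

/-- **Generic translations**: if `H^N(X) = 0` and `φ : ℝ^(n-N) → ℝ^n` is Lipschitz then for almost
every `τ` the translate `X + τ` misses the image of `φ`. -/
theorem translate_null {N : ℕ} (hn : Fintype.card ι + N = n) (hN : 0 < N) {K : ℝ≥0}
    {φ : (ι → ℝ) → (Fin n → ℝ)} (hφ : LipschitzWith K φ) {X : Set (Fin n → ℝ)}
    (hX : μH[(N : ℝ)] X = 0) :
    volume {τ : Fin n → ℝ | ∃ x ∈ X, ∃ y : ι → ℝ, φ y = x + τ} = 0 := by
  have hsub : {τ : Fin n → ℝ | ∃ x ∈ X, ∃ y : ι → ℝ, φ y = x + τ} ⊆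
      ⋃ a : ι → ℤ, {τ : Fin n → ℝ | ∃ x ∈ X, ∃ y : ι → ℝ, (∀ j, 0 ≤ y j ∧ y j ≤ 1) ∧
        (fun y : ι → ℝ => φ (y + fun j => (a j : ℝ))) y = x + τ} := by
    rintro τ ⟨x, hx, y, hxy⟩
    refine mem_iUnion.mpr ⟨fun j => ⌊y j⌋, x, hx, fun j => Int.fract (y j),
      fun j => ⟨Int.fract_nonneg _, (Int.fract_lt_one _).le⟩, ?_⟩
    simp only
    rw [← hxy]
    congr 1
    funext j
    simp [Int.fract_add_floor]
  refine measure_mono_null hsub (measure_iUnion_null fun a => ?_)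
  refine translate_null_box hn hN (K := K) ?_ hX
  have h1 : LipschitzWith 1 (fun y : ι → ℝ => y + fun j => (a j : ℝ)) := by
    apply LipschitzWith.of_dist_le_mul
    intro y y'
    rw [dist_add_right]; simp
  have := hφ.comp h1
  simpa [Function.comp_def] using this

end Pool.Agent.MCP
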