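import Mathlib
import Pool.Agent.MCP.Dim
import Pool.Agent.MCP.Null

/-!
# Every `H^{k+1}`-null subset of `ℝ^n` embeds in the compactum
-/

set_option autoImplicit false

open Set Filter Topology MeasureTheory
open scoped ENNReal NNReal

namespace Pool.Agent.MCP

section
variable {n k : ℕ} (hk : k < n)

/-- parametrisation of the plane `{z | z i = w i for i ∈ S}` -/
noncomputable def psi (S : Finset (Fin n)) (w : Fin n → ℝ) (y : {i : Fin n // i ∉ S} → ℝ) :
    Fin n → ℝ := fun i => if h : i ∈ S then w i else y ⟨i, h⟩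

theorem psi_lip (S : Finset (Fin n)) (w : Fin n → ℝ) : LipschitzWith 1 (psi S w) := by
  apply LipschitzWith.of_dist_le_mul
  intro y y'
  rw [NNReal.coe_one, one_mul, dist_pi_le_iff dist_nonneg]
  intro i
  unfold psi
  split_ifs with h
  · simp
  · exact dist_le_pi_dist y y' ⟨i, h⟩

include hk in
theorem exists_translation {X : Set (Fin n → ℝ)} (hX : μH[((k + 1 : ℕ) : ℝ)] X = 0) :
    ∃ τ : Fin n → ℝ, (∀ i, |τ i| ≤ 1) ∧ ∀ x ∈ X, Good hk (x + τ) := by
  classical
  set B : ℕ → {S : Finset (Fin n) // S.card = k + 1} → (Fin n → ℤ) → Set (Fin n → ℝ) :=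
    fun m S q => {τ | ∃ x ∈ X, ∃ y : {i : Fin n // i ∉ S.1} → ℝ,
      (sys k hk).W 0 m (psi S.1 (fun i => eps m * (q i + 1 / 2)) y) = x + τ} with hB
  have hBnull : ∀ m S q, volume (B m S q) = 0 := by
    intro m S q
    have hcard : Fintype.card {i : Fin n // i ∉ S.1} + (k + 1) = n := by
      have h1 : Fintype.card {i : Fin n // i ∉ S.1} = n - (k + 1) := by
        rw [Fintype.card_subtype]
        have : (Finset.univ.filter fun i => i ∉ S.1) = S.1ᶜ := by
          ext i; simp
        rw [this, Finset.card_compl, Fintype.card_fin, S.2]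
      rw [h1]; omega
    have hW : LipschitzWith (Real.toNNReal ((sys k hk).P (0 + m))) ((sys k hk).W 0 m) := by
      apply LipschitzWith.of_dist_le_mul
      intro x y
      rw [Real.coe_toNNReal _ (zero_le_one.trans ((sys k hk).one_le_P _))]
      exact (sys k hk).dist_W_le 0 m x y
    exact translate_null hcard (by omega) (hW.comp (psi_lip S.1 _)) hX
  have hnull : volume (⋃ m, ⋃ S, ⋃ q, B m S q) = 0 :=
    measure_iUnion_null fun m => measure_iUnion_null fun S => measure_iUnion_null fun q =>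
      hBnull m S q
  have hex : ∃ τ ∈ Icc (0 : Fin n → ℝ) 1, τ ∉ ⋃ m, ⋃ S, ⋃ q, B m S q := by
    by_contra hcon
    push Not at hcon
    have h1 : volume (Icc (0 : Fin n → ℝ) 1) = 0 := measure_mono_null hcon hnull
    rw [Real.volume_Icc_pi] at h1
    simp at h1
  obtain ⟨τ, hτ, hτB⟩ := hex
  refine ⟨τ, fun i => ?_, fun x hx m z hz => ?_⟩
  · rw [abs_le]
    have h1 := hτ.1 i
    have h2 := hτ.2 i
    simp only [Pi.zero_apply, Pi.one_apply] at h1 h2
    constructor <;> linarith
  · by_contra hcon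
    obtain ⟨S, hS, q, hq⟩ := exists_half hk hcon
    apply hτB
    refine mem_iUnion.mpr ⟨m, mem_iUnion.mpr ⟨⟨S, hS⟩, mem_iUnion.mpr ⟨q, x, hx,
      fun i => z i.1, ?_⟩⟩⟩
    rw [← hz]
    congr 1
    funext i
    unfold psi
    split_ifs with h
    · have h1 := hq i h
      simp only [Pi.smul_apply, smul_eq_mul] at h1
      show eps m * ((q i : ℝ) + 1 / 2) = z i
      rw [← h1, ← mul_assoc, mul_inv_cancel₀ (eps_pos m).ne', one_mul]
    · rfl

/-- embedding of bounded null sets in the cube -/
theorem exists_embedding {X : Set (Fin n → ℝ)} (hX : μH[((k + 1 : ℕ) : ℝ)] X = 0) {R : ℝ}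
    (hR : ∀ x ∈ X, ‖x‖ ≤ R) :
    ∃ f : X → (Fin n → ℝ), Topology.IsEmbedding f ∧ ∀ x, f x ∈ Mset hk (R + 3) := by
  obtain ⟨τ, hτ, hgood⟩ := exists_translation hk hX
  have hball : ∀ x : X, (x : Fin n → ℝ) + τ ∈ Metric.closedBall (0 : Fin n → ℝ) (R + 1) := by
    intro x
    rw [mem_closedBall_zero_iff]
    refine (norm_add_le _ _).trans (add_le_add (hR x x.2) ?_)
    rw [pi_norm_le_iff_of_nonneg zero_le_one]
    exact hτ
  have hlift := fun x : X => exists_lift hk (hgood x x.2) (hball x)
  choose f hfM hfv hfu using hlift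
  refine ⟨f, ?_, fun x => ?_⟩
  · refine isEmbedding_of_unique_lift (u := fun z => (sys k hk).v 0 z - τ) (z₀ := 0)
      (R := R + 1 + 2) ?_ (fun x => (hfM x).1) ?_ ?_
    · exact ((sys k hk).v_continuous 0).sub continuous_const
    · intro x
      rw [hfv x]; abel
    · intro x z hz
      apply hfu x z
      rw [← hz]; abel
  · have := hfM x
    rwa [show R + 1 + 2 = R + 3 by ring] at this

end

/-! ### Euclidean space -/

section
variable {n : ℕ}

/-- coordinatewise arctangent -/
noncomputable def atn (x : EuclideanSpace ℝ (Fin n)) : Fin n → ℝ := fun i => Real.arctan (x i)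

theorem abs_arctan_sub_le (a b : ℝ) : |Real.arctan a - Real.arctan b| ≤ |a - b| := by
  have h : LipschitzWith 1 Real.arctan := by
    apply lipschitzWith_of_nnnorm_deriv_le Real.differentiable_arctan
    intro x
    rw [Real.deriv_arctan]
    rw [← NNReal.coe_le_coe, coe_nnnorm, Real.norm_eq_abs, NNReal.coe_one, abs_of_nonneg
      (by positivity), div_le_one (by positivity)]
    nlinarith [sq_nonneg x]
  have := h.dist_le_mul a b
  rwa [Real.dist_eq, Real.dist_eq, NNReal.coe_one, one_mul] at this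

theorem atn_lip : LipschitzWith 1 (atn (n := n)) := by
  apply LipschitzWith.of_dist_le_mul
  intro x y
  rw [NNReal.coe_one, one_mul, dist_pi_le_iff dist_nonneg]
  intro i
  rw [Real.dist_eq]
  refine (abs_arctan_sub_le _ _).trans ?_
  have h1 : |x i - y i| = ‖(x - y) i‖ := by simp
  rw [h1, dist_eq_norm]
  exact PiLp.norm_apply_le (x - y) i

theorem arctan_isEmbedding : Topology.IsEmbedding Real.arctan := by
  apply Real.arctan_strictMono.isEmbedding_of_ordConnected
  rw [Real.range_arctan]
  exact ordConnected_Ioo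

theorem atn_isEmbedding : Topology.IsEmbedding (atn (n := n)) := by
  have h1 : Topology.IsEmbedding (fun (y : Fin n → ℝ) i => Real.arctan (y i)) :=
    Topology.IsEmbedding.piMap (fun _ => arctan_isEmbedding)
  have h2 := h1.comp (EuclideanSpace.equiv (Fin n) ℝ).toHomeomorph.isEmbedding
  exact h2

theorem norm_atn_le (x : EuclideanSpace ℝ (Fin n)) : ‖atn x‖ ≤ 2 := by
  rw [pi_norm_le_iff_of_nonneg (by norm_num)]
  intro i
  unfold atn
  rw [Real.norm_eq_abs, abs_le]
  have h1 := Real.neg_pi_div_two_lt_arctan (x i)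
  have h2 := Real.arctan_lt_pi_div_two (x i)
  have h3 := Real.pi_lt_four
  constructor <;> linarith

/-- The universal compactum in Euclidean space. -/
theorem exists_universal (k : ℕ) (hk : k < n) :
    ∃ M : Set (EuclideanSpace ℝ (Fin n)), IsCompact M ∧ dimH M ≤ k ∧
      ∀ X : Set (EuclideanSpace ℝ (Fin n)), μH[((k + 1 : ℕ) : ℝ)] X = 0 →
        ∃ f : X → EuclideanSpace ℝ (Fin n), Topology.IsEmbedding f ∧ ∀ x, f x ∈ M := by
  set e := EuclideanSpace.equiv (Fin n) ℝ with he
  refine ⟨e.symm '' Mset hk 5, (isCompact_Mset hk 5).image e.symm.continuous, ?_, ?_⟩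
  · rw [ContinuousLinearEquiv.dimH_image]
    exact dimH_Mset_le hk (by norm_num)
  · intro X hX
    have h1 : μH[((k + 1 : ℕ) : ℝ)] (atn '' X) = 0 := by
      have := atn_lip.hausdorffMeasure_image_le (d := ((k + 1 : ℕ) : ℝ)) (Nat.cast_nonneg _) X
      rw [hX, mul_zero] at this
      exact le_antisymm this bot_le
    obtain ⟨f, hf, hfM⟩ := exists_embedding hk h1 (R := 2) (by
      rintro _ ⟨x, _, rfl⟩
      exact norm_atn_le x)
    have hg : Topology.IsEmbedding (fun x : X => (⟨atn x.1, mem_image_of_mem _ x.2⟩ : atn '' X)) := by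
      refine Topology.IsEmbedding.of_comp ?_ continuous_subtype_val ?_
      · exact (atn_lip.continuous.comp continuous_subtype_val).subtype_mk _
      · exact atn_isEmbedding.comp Topology.IsEmbedding.subtypeVal
    refine ⟨fun x => e.symm (f ⟨atn x.1, mem_image_of_mem _ x.2⟩), ?_, ?_⟩
    · exact e.symm.toHomeomorph.isEmbedding.comp (hf.comp hg)
    · intro x
      have := hfM ⟨atn x.1, mem_image_of_mem _ x.2⟩
      rw [show (2 : ℝ) + 3 = 5 by norm_num] at this
      exact mem_image_of_mem _ this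

end

end Pool.Agent.MCP
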