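import Mathlib
import Pool.Agent.MCP.Univ
import Pool.Agent.MCP.Near
import Pool.Agent.MCP.Nerve
import Pool.Agent.MCP.Push

/-!
# σ-compact sets of codimension two embed in the compactum
-/

set_option autoImplicit false

open Set Filter Topology MeasureTheory
open scoped ENNReal NNReal

namespace Pool.Agent.MCP

variable {n : ℕ}

/-! ### Lipschitz images of cubes -/

theorem netLE_image {ι : Type*} [Fintype ι] {φ : (ι → ℝ) → (Fin n → ℝ)} {K : ℝ≥0}
    (hφ : LipschitzWith K φ) (a : ι → ℝ) : NetLE (Fintype.card ι) (φ '' Icc a (a + 1)) := by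
  classical
  set N0 : ℕ := ⌈(K : ℝ)⌉₊ + 1 with hN0
  have hKN : (K : ℝ) ≤ N0 := by
    rw [hN0]; push_cast
    linarith [Nat.le_ceil (K : ℝ)]
  refine ⟨((N0 : ℝ) + 1) ^ Fintype.card ι, by positivity, fun M hM => ?_⟩
  have hM0 : (0 : ℝ) < M := by exact_mod_cast hM
  set L : ℕ := N0 * M with hL
  have hN0pos : (0 : ℝ) < N0 := by rw [hN0]; positivity
  have hLpos : (0 : ℝ) < L := by rw [hL]; push_cast; positivity
  refine ⟨Finset.univ.image (fun v : ι → Fin (L + 1) => φ (fun i => a i + ((v i : ℕ) : ℝ) / L)),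
    ?_, ?_⟩
  · have h1 : ((Finset.univ.image (fun v : ι → Fin (L + 1) =>
        φ (fun i => a i + ((v i : ℕ) : ℝ) / L))).card : ℝ) ≤ ((L + 1 : ℕ) : ℝ) ^ Fintype.card ι := by
      have h2 := Finset.card_image_le (s := (Finset.univ : Finset (ι → Fin (L + 1))))
        (f := fun v : ι → Fin (L + 1) => φ (fun i => a i + ((v i : ℕ) : ℝ) / L))
      rw [Finset.card_univ, Fintype.card_fun, Fintype.card_fin] at h2
      exact_mod_cast h2
    refine h1.trans ?_
    rw [← mul_pow]
    apply pow_le_pow_left₀ (by positivity)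
    rw [hL]
    push_cast
    have : (1 : ℝ) ≤ M := by exact_mod_cast hM
    nlinarith
  · rintro _ ⟨y, hy, rfl⟩
    have hyL : ∀ i, 0 ≤ (y i - a i) * L := fun i =>
      mul_nonneg (sub_nonneg.mpr (hy.1 i)) hLpos.le
    have hv : ∀ i, ⌊(y i - a i) * L⌋₊ < L + 1 := by
      intro i
      rw [Nat.lt_succ_iff]
      have h1 : (y i - a i) * L ≤ L := by
        have := hy.2 i
        simp only [Pi.add_apply, Pi.one_apply] at this
        nlinarith
      have h2 := Nat.floor_le_floor h1
      rwa [Nat.floor_natCast] at h2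
    refine ⟨φ (fun i => a i + (((⟨⌊(y i - a i) * L⌋₊, hv i⟩ : Fin (L + 1)) : ℕ) : ℝ) / L),
      Finset.mem_image.mpr ⟨fun i => ⟨⌊(y i - a i) * L⌋₊, hv i⟩, Finset.mem_univ _, rfl⟩, ?_⟩
    refine (hφ.dist_le_mul _ _).trans ?_
    have h1 : dist y (fun i => a i + (((⟨⌊(y i - a i) * L⌋₊, hv i⟩ : Fin (L + 1)) : ℕ) : ℝ) / L) ≤
        1 / L := by
      rw [dist_pi_le_iff (by positivity)]
      intro i
      rw [Real.dist_eq]
      have e1 := Nat.floor_le (hyL i)
      have e2 := Nat.lt_floor_add_one ((y i - a i) * L)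
      have e3 : (⌊(y i - a i) * L⌋₊ : ℝ) / L ≤ y i - a i := by
        rw [div_le_iff₀ hLpos]; exact e1
      have e4 : y i - a i ≤ (⌊(y i - a i) * L⌋₊ : ℝ) / L + 1 / L := by
        rw [← add_div, le_div_iff₀ hLpos]; exact e2.le
      rw [abs_le]
      simp only
      constructor <;> linarith
    calc (K : ℝ) * dist y (fun i => a i + (((⟨⌊(y i - a i) * L⌋₊, hv i⟩ : Fin (L + 1)) : ℕ) : ℝ) / L)
        ≤ N0 * (1 / L) := by gcongr
      _ = 1 / M := by
        rw [hL]; push_cast
        field_simp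

theorem isCompact_image_box {ι : Type*} [Fintype ι] {φ : (ι → ℝ) → (Fin n → ℝ)} {K : ℝ≥0}
    (hφ : LipschitzWith K φ) (a : ι → ℝ) : IsCompact (φ '' Icc a (a + 1)) :=
  isCompact_Icc.image hφ.continuous

theorem covLE_image {ι : Type*} [Fintype ι] {φ : (ι → ℝ) → (Fin n → ℝ)} {K : ℝ≥0}
    (hφ : LipschitzWith K φ) (a : ι → ℝ) : CovLE (Fintype.card ι + 1) (φ '' Icc a (a + 1)) := by
  apply CovLE.of_indLE _ (isCompact_image_box hφ a)
  apply indLE_of_hausdorffMeasure_zero
  have h1 : dimH (φ '' Icc a (a + 1)) < ((Fintype.card ι + 1 : ℕ) : NNReal) := by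
    have h2 : dimH (φ '' Icc a (a + 1)) ≤ Fintype.card ι := by
      refine (hφ.dimH_image_le _).trans ((dimH_mono (subset_univ _)).trans ?_)
      rw [Real.dimH_univ_pi]
    refine lt_of_le_of_lt h2 ?_
    push_cast
    exact ENNReal.lt_add_right (ENNReal.natCast_ne_top _) one_ne_zero
  have h2 := hausdorffMeasure_of_dimH_lt h1
  exact_mod_cast h2

/-! ### Good points embed -/

section
variable {k : ℕ} (hk : k < n)

theorem exists_embedding_of_good {X : Set (Fin n → ℝ)} (hX : ∀ x ∈ X, Good hk x) {R : ℝ}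
    (hR : ∀ x ∈ X, ‖x‖ ≤ R) :
    ∃ f : X → (Fin n → ℝ), Topology.IsEmbedding f ∧ ∀ x, f x ∈ Mset hk (R + 2) := by
  have hball : ∀ x : X, (x : Fin n → ℝ) ∈ Metric.closedBall (0 : Fin n → ℝ) R := fun x =>
    mem_closedBall_zero_iff.mpr (hR x x.2)
  have hlift := fun x : X => exists_lift hk (hX x x.2) (hball x)
  choose f hfM hfv hfu using hlift
  exact ⟨f, isEmbedding_of_unique_lift ((sys k hk).v_continuous 0) (fun x => (hfM x).1) hfv hfu,
    hfM⟩

/-- the index set of the bad curves -/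
abbrev JJ (n k : ℕ) : Type :=
  ℕ × {S : Finset (Fin n) // S.card = k + 1} × (Fin n → ℤ) × (Fin n → ℤ)

/-- the parametrised bad sets -/
noncomputable def curve (j : JJ n k) (y : {i : Fin n // i ∉ j.2.1.1} → ℝ) : Fin n → ℝ :=
  (sys k hk).W 0 j.1 (psi j.2.1.1 (fun i => eps j.1 * (j.2.2.1 i + 1 / 2)) y)

theorem curve_lip (j : JJ n k) :
    LipschitzWith (Real.toNNReal ((sys k hk).P (0 + j.1)) * 1) (curve hk j) := by
  have hW : LipschitzWith (Real.toNNReal ((sys k hk).P (0 + j.1))) ((sys k hk).W 0 j.1) := by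
    apply LipschitzWith.of_dist_le_mul
    intro x y
    rw [Real.coe_toNNReal _ (zero_le_one.trans ((sys k hk).one_le_P _))]
    exact (sys k hk).dist_W_le 0 j.1 x y
  exact hW.comp (psi_lip _ _)

/-- the bad compact sets -/
noncomputable def bad (j : JJ n k) : Set (Fin n → ℝ) :=
  curve hk j '' Icc (fun i => (j.2.2.2 i.1 : ℝ)) ((fun i => (j.2.2.2 i.1 : ℝ)) + 1)

theorem good_of_avoid {x : Fin n → ℝ} (hx : ∀ j, x ∉ bad hk j) : Good hk x := by
  intro m z hz
  by_contra hcon
  obtain ⟨S, hS, q, hq⟩ := exists_half hk hcon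
  apply hx (m, ⟨S, hS⟩, q, fun i => ⌊z i⌋)
  refine ⟨fun i => z i.1, ⟨fun i => Int.floor_le _, fun i => ?_⟩, ?_⟩
  · simp only [Pi.add_apply, Pi.one_apply]
    exact (Int.lt_floor_add_one _).le
  · rw [← hz]
    unfold curve
    congr 1
    funext i
    unfold psi
    split_ifs with h
    · have h1 := hq i h
      simp only [Pi.smul_apply, smul_eq_mul] at h1
      show eps m * ((q i : ℝ) + 1 / 2) = z i
      rw [← h1, ← mul_assoc, mul_inv_cancel₀ (eps_pos m).ne', one_mul]
    · rfl

end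

/-- **Main embedding theorem**, codimension two. -/
theorem exists_embedding_sigma (hn : 4 ≤ n) (hk : n - 2 < n) {X : ℕ → Set (Fin n → ℝ)}
    (hX : ∀ i, IsCompact (X i)) (hI : ∀ i, IndLE ((n : ℤ) - 2) (X i)) {Y : Set (Fin n → ℝ)}
    (hY : Y ⊆ ⋃ i, X i) {R : ℝ} (hR : ∀ y ∈ Y, ‖y‖ ≤ R) :
    ∃ f : Y → (Fin n → ℝ), Topology.IsEmbedding f ∧ ∀ x, f x ∈ Mset hk (R + 3) := by
  have hcard : ∀ j : JJ n (n - 2), Fintype.card {i : Fin n // i ∉ j.2.1.1} = 1 := by
    intro j
    have h1 : Fintype.card {i : Fin n // i ∉ j.2.1.1} = n - (n - 2 + 1) := by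
      rw [Fintype.card_subtype]
      have : (Finset.univ.filter fun i => i ∉ j.2.1.1) = (j.2.1.1)ᶜ := by
        ext i; simp
      rw [this, Finset.card_compl, Fintype.card_fin, j.2.1.2]
    rw [h1]; omega
  have hbc : ∀ j : JJ n (n - 2), IsCompact (bad hk j) := fun j =>
    isCompact_image_box (curve_lip hk j) _
  have hpush : ∀ (i : ℕ) (j : JJ n (n - 2)), ∀ h : (Fin n → ℝ) ≃ₜ (Fin n → ℝ), ∀ ε : ℝ, 0 < ε →
      ∃ l : (Fin n → ℝ) ≃ₜ (Fin n → ℝ), UniformContinuous l ∧ (∀ z, dist (l z) z ≤ ε) ∧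
        ∀ z ∈ bad hk j, h (l z) ∉ X i := by
    intro i j h ε hε
    have hC : IsCompact (h ⁻¹' X i) := h.isCompact_preimage.mpr (hX i)
    have hCI : IndLE ((n : ℤ) - 2) (h ⁻¹' X i) := by
      refine (hI i).of_embedding (fun x => h x.1) ?_ (fun x => x.2)
      exact h.isEmbedding.comp Topology.IsEmbedding.subtypeVal
    have hCcov : CovLE (n - 1) (h ⁻¹' X i) := by
      apply CovLE.of_indLE _ hC
      have : (((n - 1 : ℕ) : ℤ) - 1) = (n : ℤ) - 2 := by
        rw [Nat.cast_sub (by omega)]; push_cast; ring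
      rw [this]
      exact hCI
    have hcov : CovLE 2 (bad hk j) := by
      have := covLE_image (curve_lip hk j) (fun i => (j.2.2.2 i.1 : ℝ))
      rwa [hcard j] at this
    have hnet : NetLE 1 (bad hk j) := by
      have := netLE_image (curve_lip hk j) (fun i => (j.2.2.2 i.1 : ℝ))
      rwa [hcard j] at this
    obtain ⟨α, hα, hαε, hαC⟩ := exists_avoid (by omega) (hbc j) hcov
      (fun x r hr => isPathConnected_ball_diff (by omega) hC.isClosed hCcov x hr)
      (ε := ε / 3) (by positivity)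
    obtain ⟨l, hl1, hl2, hl3⟩ := exists_push (d := 1) (by omega) (hbc j) hnet hC.isClosed hα
      (by positivity) hαε hαC
    exact ⟨l, hl1, fun z => (hl2 z).trans (by linarith), fun z hz => hl3 z hz⟩
  obtain ⟨f, hf, hfR, hfG⟩ := exists_reembedding hX hbc hpush hY hR
  obtain ⟨g, hg, hgM⟩ := exists_embedding_of_good hk (X := range f) (by
      rintro _ ⟨y, rfl⟩
      exact good_of_avoid hk fun j => hfG y j) (R := R + 1) (by
      rintro _ ⟨y, rfl⟩
      exact hfR y)
  refine ⟨fun y => g ⟨f y, mem_range_self y⟩, ?_, fun y => ?_⟩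
  · apply hg.comp
    refine Topology.IsEmbedding.of_comp (hf.continuous.subtype_mk _) continuous_subtype_val ?_
    exact hf
  · have := hgM ⟨f y, mem_range_self y⟩
    rwa [show R + 1 + 2 = R + 3 by ring] at this

/-- The universal compactum for codimension two. -/
theorem exists_universal_two (hn : 4 ≤ n) :
    ∃ M : Set (EuclideanSpace ℝ (Fin n)), IsCompact M ∧ dimH M ≤ ((n - 2 : ℕ) : ℝ≥0∞) ∧
      (∀ X : Set (EuclideanSpace ℝ (Fin n)), μH[((n - 1 : ℕ) : ℝ)] X = 0 →
        ∃ f : X → EuclideanSpace ℝ (Fin n), Topology.IsEmbedding f ∧ ∀ x, f x ∈ M) ∧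
      ∀ X : Set (EuclideanSpace ℝ (Fin n)),
        (∃ C : ℕ → Set (EuclideanSpace ℝ (Fin n)),
          (∀ i, IsCompact (C i) ∧ IndLE ((n : ℤ) - 2) (C i)) ∧ X ⊆ ⋃ i, C i) →
        ∃ f : X → EuclideanSpace ℝ (Fin n), Topology.IsEmbedding f ∧ ∀ x, f x ∈ M := by
  have hk : n - 2 < n := by omega
  set e := EuclideanSpace.equiv (Fin n) ℝ with he
  have hback : ∀ (X : Set (EuclideanSpace ℝ (Fin n))) (f : atn '' X → (Fin n → ℝ)),
      Topology.IsEmbedding f → (∀ x, f x ∈ Mset hk (2 + 3)) →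
      ∃ f : X → EuclideanSpace ℝ (Fin n), Topology.IsEmbedding f ∧
        ∀ x, f x ∈ e.symm '' Mset hk 5 := by
    intro X f hf hfM
    have hg : Topology.IsEmbedding (fun x : X => (⟨atn x.1, mem_image_of_mem _ x.2⟩ : atn '' X)) := by
      refine Topology.IsEmbedding.of_comp ?_ continuous_subtype_val ?_
      · exact (atn_lip.continuous.comp continuous_subtype_val).subtype_mk _
      · exact atn_isEmbedding.comp Topology.IsEmbedding.subtypeVal
    refine ⟨fun x => e.symm (f ⟨atn x.1, mem_image_of_mem _ x.2⟩), ?_, ?_⟩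
    · exact e.symm.toHomeomorph.isEmbedding.comp (hf.comp hg)
    · intro x
      have := hfM ⟨atn x.1, mem_image_of_mem _ x.2⟩
      rw [show (2 : ℝ) + 3 = 5 by norm_num] at this
      exact mem_image_of_mem _ this
  refine ⟨e.symm '' Mset hk 5, (isCompact_Mset hk 5).image e.symm.continuous, ?_, ?_, ?_⟩
  · rw [ContinuousLinearEquiv.dimH_image]
    exact dimH_Mset_le hk (by norm_num)
  · intro X hX
    have h1 : μH[((n - 1 : ℕ) : ℝ)] (atn '' X) = 0 := by
      have := atn_lip.hausdorffMeasure_image_le (d := ((n - 1 : ℕ) : ℝ)) (Nat.cast_nonneg _) X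
      rw [hX, mul_zero] at this
      exact le_antisymm this bot_le
    have h2 : n - 1 = n - 2 + 1 := by omega
    rw [h2] at h1
    obtain ⟨f, hf, hfM⟩ := exists_embedding hk h1 (R := 2) (by
      rintro _ ⟨x, _, rfl⟩
      exact norm_atn_le x)
    exact hback X f hf hfM
  · rintro X ⟨C, hC, hXC⟩
    obtain ⟨f, hf, hfM⟩ := exists_embedding_sigma hn hk (X := fun i => atn '' C i)
      (fun i => (hC i).1.image atn_lip.continuous) (fun i => by
        have hemb : Topology.IsEmbedding (fun x : C i => atn x.1) :=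
          atn_isEmbedding.comp Topology.IsEmbedding.subtypeVal
        have hrange : range (fun x : C i => atn x.1) = atn '' C i := by
          ext z; simp
        refine (hC i).2.of_embedding
          (fun z : atn '' C i => (z.2.choose : EuclideanSpace ℝ (Fin n))) ?_
          (fun z => z.2.choose_spec.1)
        have h1 : Topology.IsEmbedding (fun z : atn '' C i =>
            (z.2.choose : EuclideanSpace ℝ (Fin n))) := by
          have hcomp : atn ∘ (fun z : atn '' C i =>
            (z.2.choose : EuclideanSpace ℝ (Fin n))) = Subtype.val := by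
            funext z; exact z.2.choose_spec.2
          have hind : Topology.IsInducing (atn ∘ (fun z : atn '' C i =>
            (z.2.choose : EuclideanSpace ℝ (Fin n)))) := by
            rw [hcomp]; exact Topology.IsInducing.subtypeVal
          have hcont : Continuous (fun z : atn '' C i =>
            (z.2.choose : EuclideanSpace ℝ (Fin n))) :=
            atn_isEmbedding.isInducing.continuous_iff.mpr (by rw [hcomp]; exact continuous_subtype_val)
          exact ⟨hind.of_comp hcont atn_lip.continuous |> id, fun a b hab => Subtype.ext (by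
            rw [← a.2.choose_spec.2, ← b.2.choose_spec.2]
            exact congrArg atn hab)⟩
        exact h1)
      (Y := atn '' X) (by
        rintro _ ⟨x, hx, rfl⟩
        obtain ⟨i, hi⟩ := mem_iUnion.mp (hXC hx)
        exact mem_iUnion.mpr ⟨i, mem_image_of_mem _ hi⟩) (R := 2) (by
        rintro _ ⟨x, _, rfl⟩
        exact norm_atn_le x)
    exact hback X f hf hfM

end Pool.Agent.MCP
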