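import Mathlib
import Pool.Agent.MCP.Dim2
import Pool.Agent.MCP.LP
import Pool.Agent.MCP.PushLim
import Pool.Agent.MCP.Sigma

/-!
# Sets with path connected complement in every region embed in compacta of codimension two
-/

set_option autoImplicit false

open Set Filter Topology MeasureTheory
open scoped ENNReal NNReal

namespace Pool.Agent.MCP

variable {n : ℕ}

theorem NetLE.biUnion {d : ℕ} {κ : Type*} (s : Finset κ) {A : κ → Set (Fin n → ℝ)}
    (hA : ∀ i ∈ s, NetLE d (A i)) : NetLE d (⋃ i ∈ s, A i) := by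
  classical
  induction s using Finset.induction_on with
  | empty => exact ⟨0, le_rfl, fun M _ => ⟨∅, by simp, fun x hx => by simp at hx⟩⟩
  | insert a s ha ih =>
    rw [Finset.set_biUnion_insert]
    obtain ⟨C1, h1, g1⟩ := hA a (Finset.mem_insert_self a s)
    obtain ⟨C2, h2, g2⟩ := ih (fun i hi => hA i (Finset.mem_insert_of_mem hi))
    refine ⟨C1 + C2, add_nonneg h1 h2, fun M hM => ?_⟩
    obtain ⟨T1, a1, b1⟩ := g1 M hM
    obtain ⟨T2, a2, b2⟩ := g2 M hM
    refine ⟨T1 ∪ T2, ?_, ?_⟩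
    · have h3 : ((T1 ∪ T2).card : ℝ) ≤ T1.card + T2.card := by
        exact_mod_cast Finset.card_union_le _ _
      calc ((T1 ∪ T2).card : ℝ) ≤ T1.card + T2.card := h3
        _ ≤ C1 * (M : ℝ) ^ d + C2 * (M : ℝ) ^ d := add_le_add a1 a2
        _ = (C1 + C2) * (M : ℝ) ^ d := by ring
    · rintro x (hx | hx)
      · obtain ⟨t, ht, hd⟩ := b1 x hx
        exact ⟨t, Finset.mem_union_left _ ht, hd⟩
      · obtain ⟨t, ht, hd⟩ := b2 x hx
        exact ⟨t, Finset.mem_union_right _ ht, hd⟩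

/-- A compact piece of the one-dimensional grid. -/
theorem exists_grid (hn : 2 ≤ n) {e : ℝ} (he : 0 < e) (R : ℝ) :
    ∃ G : Set (Fin n → ℝ), IsCompact G ∧ G.Nonempty ∧ NetLE 1 G ∧ CovLE 2 G ∧
      ∀ z ∈ Metric.closedBall (0 : Fin n → ℝ) R, ¬ 0 < gv (n - 2) (e⁻¹ • z) → z ∈ G := by
  classical
  have hk : n - 2 < n := by omega
  obtain ⟨N, hN⟩ := exists_nat_ge (max (R / e + 1) (R + 1))
  have hN1 : R / e + 1 ≤ N := (le_max_left _ _).trans hN
  have hN2 : R + 1 ≤ N := (le_max_right _ _).trans hN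
  have henc : ∀ j : ℤ, ∃ t : Fin (2 * N + 1), |j| ≤ N → ((t : ℕ) : ℤ) - N = j := by
    intro j
    by_cases hj : |j| ≤ N
    · have h1 := abs_le.mp hj
      refine ⟨⟨(j + N).toNat, by omega⟩, fun _ => ?_⟩
      simp only
      omega
    · exact ⟨0, fun h => absurd h hj⟩
  choose enc henc using henc
  set q : (Fin n → Fin (2 * N + 1)) → Fin n → ℤ := fun b i => ((b i : ℕ) : ℤ) - N with hq
  set A : {S : Finset (Fin n) // S.card = n - 2 + 1} × (Fin n → Fin (2 * N + 1)) ×
      (Fin n → Fin (2 * N + 1)) → Set (Fin n → ℝ) := fun t =>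
    psi t.1.1 (fun i => e * ((q t.2.1 i : ℝ) + 1 / 2)) ''
      Icc (fun i => (q t.2.2 i.1 : ℝ)) ((fun i => (q t.2.2 i.1 : ℝ)) + 1) with hA
  have hcard : ∀ S : {S : Finset (Fin n) // S.card = n - 2 + 1},
      Fintype.card {i : Fin n // i ∉ S.1} = 1 := by
    intro S
    have h1 : Fintype.card {i : Fin n // i ∉ S.1} = n - (n - 2 + 1) := by
      rw [Fintype.card_subtype]
      have : (Finset.univ.filter fun i => i ∉ S.1) = (S.1)ᶜ := by
        ext i; simp
      rw [this, Finset.card_compl, Fintype.card_fin, S.2]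
    rw [h1]; omega
  have hAc : ∀ t, IsCompact (A t) := fun t => isCompact_image_box (psi_lip _ _) _
  refine ⟨⋃ t ∈ (Finset.univ : Finset ({S : Finset (Fin n) // S.card = n - 2 + 1} ×
    (Fin n → Fin (2 * N + 1)) × (Fin n → Fin (2 * N + 1)))), A t, ?_, ?_, ?_, ?_, ?_⟩
  · exact Finset.univ.isCompact_biUnion fun t _ => hAc t
  · obtain ⟨S⟩ := nonempty_index hk
    refine ⟨psi S.1 (fun i => e * ((q (fun _ => 0) i : ℝ) + 1 / 2)) (fun i => (q (fun _ => 0) i.1 : ℝ)), ?_⟩
    refine mem_biUnion (x := (S, (fun _ => 0), (fun _ => 0))) (Finset.mem_coe.mpr (Finset.mem_univ _)) ?_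
    refine ⟨_, ⟨le_rfl, ?_⟩, rfl⟩
    intro i
    simp
  · apply NetLE.biUnion
    intro t _
    have := netLE_image (psi_lip t.1.1 (fun i => e * ((q t.2.1 i : ℝ) + 1 / 2)))
      (fun i => (q t.2.2 i.1 : ℝ))
    rwa [hcard t.1] at this
  · apply CovLE.biUnion
    · intro t _
      have := covLE_image (psi_lip t.1.1 (fun i => e * ((q t.2.1 i : ℝ) + 1 / 2)))
        (fun i => (q t.2.2 i.1 : ℝ))
      rwa [hcard t.1] at this
    · intro t _
      exact (hAc t).isClosed
  · intro z hz hgv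
    obtain ⟨S, hS, q0, hq0⟩ := exists_half hk hgv
    have hzR : ∀ i, |z i| ≤ R := by
      intro i
      have h1 := mem_closedBall_zero_iff.mp hz
      have h2 := norm_le_pi_norm z i
      rw [Real.norm_eq_abs] at h2
      linarith
    have hq0N : ∀ i ∈ S, |q0 i| ≤ (N : ℤ) := by
      intro i hi
      have h1 := hq0 i hi
      simp only [Pi.smul_apply, smul_eq_mul] at h1
      have h2 : |e⁻¹ * z i| ≤ R / e := by
        rw [abs_mul, abs_of_pos (inv_pos.mpr he), div_eq_inv_mul]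
        gcongr
        exact hzR i
      rw [h1] at h2
      have h3 := abs_le.mp h2
      have h4 : |(q0 i : ℝ)| ≤ N := by
        rw [abs_le]
        constructor <;> linarith [h3.1, h3.2]
      exact_mod_cast h4
    have hfN : ∀ i, |⌊z i⌋| ≤ (N : ℤ) := by
      intro i
      have h1 := abs_le.mp (hzR i)
      have h2 := Int.floor_le (z i)
      have h3 := Int.lt_floor_add_one (z i)
      have h4 : |(⌊z i⌋ : ℝ)| ≤ N := by
        rw [abs_le]
        constructor <;> linarith [h1.1, h1.2]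
      exact_mod_cast h4
    refine mem_biUnion (x := (⟨S, hS⟩, (fun i => enc (q0 i)), (fun i => enc ⌊z i⌋)))
      (Finset.mem_coe.mpr (Finset.mem_univ _)) ?_
    have hfl : ∀ i, q (fun i => enc ⌊z i⌋) i = ⌊z i⌋ := fun i => henc _ (hfN i)
    refine ⟨fun i => z i.1, ⟨fun i => ?_, fun i => ?_⟩, ?_⟩
    · simp only
      rw [hfl]
      exact Int.floor_le _
    · simp only [Pi.add_apply, Pi.one_apply]
      rw [hfl]
      exact (Int.lt_floor_add_one _).le
    · funext i
      unfold psi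
      split_ifs with h
      · have h1 := hq0 i h
        have h2 : q (fun i => enc (q0 i)) i = q0 i := henc _ (hq0N i h)
        simp only [Pi.smul_apply, smul_eq_mul] at h1
        simp only
        rw [h2, ← h1, ← mul_assoc, mul_inv_cancel₀ he.ne', one_mul]
      · rfl

/-- **The step.** -/
theorem exists_step (hn : 4 ≤ n) {Y : Set (Fin n → ℝ)} {R : ℝ}
    (hYR : Y ⊆ Metric.closedBall 0 R) (hY : LPc Y) {e : ℝ} (he : 0 < e) (he1 : e ≤ 1) (m : ℕ) :
    ∃ C : (Fin n → ℝ) → (Fin n → ℝ), Continuous C ∧ (∀ z, dist (C z) z ≤ 8 * e) ∧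
      (∀ y ∈ Y, ∃! z, C z = y) ∧ LPc (C ⁻¹' Y) ∧
      ∀ z, C z ∈ Y → aa (2 / e ^ m) ≤ gv (n - 2) (e⁻¹ • z) := by
  classical
  have hk : n - 2 < n := by omega
  obtain ⟨G, hG, hGne, hGnet, hGcov, hGgv⟩ := exists_grid (n := n) (by omega) he (R + 7)
  obtain ⟨α, hαc, hαd, hαY⟩ := exists_avoid (by omega) hG hGcov
    (fun x r hr => hY _ Metric.isOpen_ball
      ⟨⟨x, Metric.mem_ball_self hr⟩, (convex_ball _ _).isPreconnected⟩) he
  obtain ⟨c, hcc, hcd, hcs, hcG, hcu⟩ := exists_pushlim (d := 1) (by omega) hG hGne hGnet hαc he hαd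
  set p : ℝ := 2 / e ^ m with hp
  have hp2 : 2 ≤ p := by
    rw [hp, le_div_iff₀ (by positivity)]
    have : e ^ m ≤ 1 := pow_le_one₀ he.le he1
    linarith
  set κ : (Fin n → ℝ) → (Fin n → ℝ) := fun z => e • col (n - 2) p (e⁻¹ • z) with hκ
  have hinv : ∀ z, e⁻¹ • κ z = col (n - 2) p (e⁻¹ • z) := fun z => by
    simp only [hκ]
    rw [smul_smul, inv_mul_cancel₀ he.ne', one_smul]
  have hκc : Continuous κ := by
    have hcol : LipschitzWith (Real.toNNReal (3 * p)) (col (n := n) (n - 2) p) := by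
      apply LipschitzWith.of_dist_le_mul
      intro x y
      rw [Real.coe_toNNReal _ (by linarith)]
      exact col_lip hk hp2 x y
    exact (hcol.continuous.comp (continuous_const_smul e⁻¹)).const_smul e
  have hκd : ∀ z, dist (κ z) z ≤ e := by
    intro z
    have h1 := dist_col_le hk hp2 (e⁻¹ • z)
    have h2 : z = e • (e⁻¹ • z) := by rw [smul_smul, mul_inv_cancel₀ he.ne', one_smul]
    calc dist (κ z) z = dist (e • col (n - 2) p (e⁻¹ • z)) (e • (e⁻¹ • z)) := by rw [← h2]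
      _ = e * dist (col (n - 2) p (e⁻¹ • z)) (e⁻¹ • z) := by
          rw [dist_smul₀, Real.norm_eq_abs, abs_of_pos he]
      _ ≤ e * 1 := by gcongr
      _ = e := mul_one _
  set De : Set (Fin n → ℝ) := {z | ¬ 0 < gv (n - 2) (e⁻¹ • z)} with hDe
  have hDec : IsClosed De := by
    have h1 : Continuous fun z : Fin n → ℝ => gv (n - 2) (e⁻¹ • z) :=
      (gv_continuous hk).comp (continuous_const_smul e⁻¹)
    have h2 : De = (fun z : Fin n → ℝ => gv (n - 2) (e⁻¹ • z)) ⁻¹' Iic 0 := by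
      ext z; simp [hDe]
    rw [h2]
    exact isClosed_Iic.preimage h1
  have hccl : IsClosedMap c := isClosedMap_of_near hcc hcd
  set O : Set (Fin n → ℝ) := (α '' G ∪ c '' De)ᶜ with hO
  have hOo : IsOpen O :=
    ((hG.image_of_continuousOn hαc).isClosed.union (hccl _ hDec)).isOpen_compl
  have hYO : Y ⊆ O := by
    rintro y hy (⟨x, hx, hxy⟩ | ⟨w, hw, hwy⟩)
    · exact hαY x hx (by rw [hxy]; exact hy)
    · have h1 := hcd w
      rw [hwy] at h1
      have h2 : w ∈ Metric.closedBall (0 : Fin n → ℝ) (R + 7) := by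
        rw [Metric.mem_closedBall]
        have h3 := Metric.mem_closedBall.mp (hYR hy)
        have h4 := dist_triangle w y 0
        rw [dist_comm w y] at h4
        linarith
      have h3 := hGgv w h2 hw
      have h4 := hcG w h3
      exact hαY w h3 (by rw [← h4, hwy]; exact hy)
  have hDe' : ∀ w, c w ∈ O → 0 < gv (n - 2) (e⁻¹ • w) := by
    intro w hw
    by_contra hcon
    exact hw (Or.inr ⟨w, hcon, rfl⟩)
  have huniq : ∀ y ∈ O, ∃! z, (c ∘ κ) z = y := by
    intro y hy
    obtain ⟨w, hw⟩ := hcs y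
    have hwpos := hDe' w (by rw [hw]; exact hy)
    obtain ⟨u, hu⟩ := col_surj hk hp2 hwpos
    have hκu : κ (e • u) = w := by
      simp only [hκ]
      rw [smul_smul, inv_mul_cancel₀ he.ne', one_smul, hu, smul_smul, mul_inv_cancel₀ he.ne',
        one_smul]
    refine ⟨e • u, ?_, ?_⟩
    · simp only [Function.comp_apply]
      rw [hκu, hw]
    · intro z' hz'
      have h1 : κ z' = w := hcu y (fun h => hy (Or.inl h)) _ _ hz' hw
      have h2 : col (n - 2) p (e⁻¹ • z') = col (n - 2) p (e⁻¹ • (e • u)) := by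
        rw [← hinv, ← hinv, h1, hκu]
      have h3 := col_inj hk hp2 h2 (by rw [← hinv, h1]; exact hwpos)
      exact smul_right_injective _ (inv_ne_zero he.ne') h3
  have hCd : ∀ z, dist ((c ∘ κ) z) z ≤ 8 * e := by
    intro z
    simp only [Function.comp_apply]
    have h1 := hcd (κ z)
    have h2 := hκd z
    have h3 := dist_triangle (c (κ z)) (κ z) z
    linarith
  refine ⟨c ∘ κ, hcc.comp hκc, hCd, fun y hy => huniq y (hYO hy), ?_, ?_⟩
  · exact LPc.preimage (hcc.comp hκc) hCd hOo huniq hYO hY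
  · intro z hz
    have h1 := hDe' (κ z) (hYO hz)
    rw [hinv] at h1
    exact (aa_lt_of_pos hk hp2 h1).le

/-- the invariants of the construction -/
def GoodF (X : Set (Fin n → ℝ)) (R : ℝ) (m : ℕ) (F : (Fin n → ℝ) → (Fin n → ℝ)) (e : ℝ) : Prop :=
  Continuous F ∧ (∃ B, ∀ z, dist (F z) z ≤ B) ∧ (∀ x ∈ X, ∃! z, F z = x) ∧ LPc (F ⁻¹' X) ∧
    0 < e ∧ e ≤ 1 ∧ ∀ u ∈ Metric.closedBall (0 : Fin n → ℝ) R,
      ∀ v ∈ Metric.closedBall (0 : Fin n → ℝ) R, dist u v ≤ 16 * e →
        dist (F u) (F v) ≤ (1 / 2) ^ m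

theorem exists_next (hn : 4 ≤ n) {X : Set (Fin n → ℝ)} {R₀ R : ℝ}
    (hXR : X ⊆ Metric.closedBall 0 R₀) {m : ℕ}
    {F : (Fin n → ℝ) → (Fin n → ℝ)} {e : ℝ} (h : GoodF X R m F e) :
    ∃ (F' : (Fin n → ℝ) → (Fin n → ℝ)) (e' : ℝ) (C : (Fin n → ℝ) → (Fin n → ℝ)), F' = F ∘ C ∧
      (∀ z, dist (C z) z ≤ 8 * e) ∧
      (∀ z, F' z ∈ X → aa (2 / e ^ m) ≤ gv (n - 2) (e⁻¹ • z)) ∧ e' ≤ e / 2 ∧
      64 * e' ≤ e ^ m / 4 * e ∧ GoodF X R (m + 1) F' e' := by
  obtain ⟨hFc, ⟨B, hB⟩, hFu, hFl, he, he1, hFm⟩ := h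
  have hYR : F ⁻¹' X ⊆ Metric.closedBall 0 (R₀ + B) := by
    intro z hz
    rw [Metric.mem_closedBall]
    have h1 := Metric.mem_closedBall.mp (hXR hz)
    have h2 := hB z
    have h3 := dist_triangle z (F z) 0
    rw [dist_comm z (F z)] at h3
    linarith
  obtain ⟨C, hCc, hCd, hCu, hCl, hCa⟩ := exists_step hn hYR hFl he he1 m
  have hF'c : Continuous (F ∘ C) := hFc.comp hCc
  have huc := (isCompact_closedBall (0 : Fin n → ℝ) R).uniformContinuousOn_of_continuous
    hF'c.continuousOn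
  rw [Metric.uniformContinuousOn_iff] at huc
  obtain ⟨δ, hδ, hδF⟩ := huc ((1 / 2) ^ (m + 1)) (by positivity)
  refine ⟨F ∘ C, min (min (e / 2) (e ^ m / 4 * e / 64)) (δ / 32), C, rfl, hCd, hCa, ?_, ?_,
    hF'c, ⟨B + 8 * e, fun z => ?_⟩, ?_, hCl, by positivity, ?_, ?_⟩
  · exact (min_le_left _ _).trans (min_le_left _ _)
  · have : min (min (e / 2) (e ^ m / 4 * e / 64)) (δ / 32) ≤ e ^ m / 4 * e / 64 :=
      (min_le_left _ _).trans (min_le_right _ _)
    linarith
  · have h1 := hB (C z)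
    have h2 := hCd z
    have h3 := dist_triangle (F (C z)) (C z) z
    simp only [Function.comp_apply]
    linarith
  · intro x hx
    obtain ⟨w, hw, hwu⟩ := hFu x hx
    obtain ⟨z, hz, hzu⟩ := hCu w (by show F w ∈ X; rw [hw]; exact hx)
    refine ⟨z, ?_, ?_⟩
    · simp only [Function.comp_apply]
      rw [hz, hw]
    · intro z' hz'
      exact hzu z' (hwu _ hz')
  · have : min (min (e / 2) (e ^ m / 4 * e / 64)) (δ / 32) ≤ e / 2 :=
      (min_le_left _ _).trans (min_le_left _ _)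
    linarith
  · intro u hu v hv huv
    have h1 : min (min (e / 2) (e ^ m / 4 * e / 64)) (δ / 32) ≤ δ / 32 := min_le_right _ _
    exact (hδF u hu v hv (by linarith)).le

/-- **Main embedding theorem** for sets with path connected complement in every region. -/
theorem exists_embedding_lp (hn : 4 ≤ n) {X : Set (Fin n → ℝ)} {R : ℝ}
    (hXR : X ⊆ Metric.closedBall 0 R) (hX : LPc X) :
    ∃ (K : Set (Fin n → ℝ)) (f : X → (Fin n → ℝ)), IsCompact K ∧
      dimH K ≤ ((n - 2 : ℕ) : ℝ≥0∞) ∧ Topology.IsEmbedding f ∧ ∀ x, f x ∈ K := by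
  classical
  have hk : n - 2 < n := by omega
  set R' : ℝ := |R| + 16 with hR'
  have hRR : R ≤ |R| := le_abs_self R
  have hR0 : 0 ≤ |R| := abs_nonneg R
  have hnext : ∀ (m : ℕ) (s : ((Fin n → ℝ) → (Fin n → ℝ)) × ℝ),
      ∃ (s' : ((Fin n → ℝ) → (Fin n → ℝ)) × ℝ) (C : (Fin n → ℝ) → (Fin n → ℝ)),
      GoodF X R' m s.1 s.2 → (s'.1 = s.1 ∘ C ∧ (∀ z, dist (C z) z ≤ 8 * s.2) ∧
      (∀ z, s'.1 z ∈ X → aa (2 / s.2 ^ m) ≤ gv (n - 2) ((s.2)⁻¹ • z)) ∧ s'.2 ≤ s.2 / 2 ∧
      64 * s'.2 ≤ s.2 ^ m / 4 * s.2 ∧ GoodF X R' (m + 1) s'.1 s'.2) := by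
    intro m s
    by_cases h : GoodF X R' m s.1 s.2
    · obtain ⟨F', e', C, h1⟩ := exists_next hn hXR h
      exact ⟨(F', e'), C, fun _ => h1⟩
    · exact ⟨s, id, fun h' => absurd h' h⟩
  choose nx Cx hnx using hnext
  set s : ℕ → ((Fin n → ℝ) → (Fin n → ℝ)) × ℝ := fun m =>
    Nat.rec ((id : (Fin n → ℝ) → (Fin n → ℝ)), (1 / 16 : ℝ)) (fun m p => nx m p) m with hs
  have hs0 : s 0 = (id, 1 / 16) := rfl
  have hss : ∀ m, s (m + 1) = nx m (s m) := fun m => rfl
  have hgood : ∀ m, GoodF X R' m (s m).1 (s m).2 := by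
    intro m
    induction m with
    | zero =>
      rw [hs0]
      refine ⟨continuous_id, ⟨0, fun z => by simp⟩, fun x _ => ⟨x, rfl, fun y hy => hy⟩,
        by simpa using hX, by norm_num, by norm_num, fun u _ v _ huv => ?_⟩
      simp only [id, pow_zero]
      linarith
    | succ m ih =>
      rw [hss]
      exact (hnx m (s m) ih).2.2.2.2.2
  set F : ℕ → (Fin n → ℝ) → (Fin n → ℝ) := fun m => (s m).1 with hF
  set e : ℕ → ℝ := fun m => (s m).2 with he
  set C : ℕ → (Fin n → ℝ) → (Fin n → ℝ) := fun m => Cx m (s m) with hC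
  have hF0 : ∀ z, F 0 z = z := fun z => rfl
  have hFs : ∀ m z, F (m + 1) z = F m (C m z) := by
    intro m z
    have := (hnx m (s m) (hgood m)).1
    have h1 : F (m + 1) = F m ∘ C m := this
    rw [h1]; rfl
  have hCd : ∀ m z, dist (C m z) z ≤ 8 * e m := fun m z => (hnx m (s m) (hgood m)).2.1 z
  have haa : ∀ m z, F (m + 1) z ∈ X → aa (2 / e m ^ m) ≤ gv (n - 2) ((e m)⁻¹ • z) :=
    fun m z hz => (hnx m (s m) (hgood m)).2.2.1 z hz
  have hes : ∀ m, e (m + 1) ≤ e m / 2 := fun m => (hnx m (s m) (hgood m)).2.2.2.1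
  have he64 : ∀ m, 64 * e (m + 1) ≤ e m ^ m / 4 * e m := fun m =>
    (hnx m (s m) (hgood m)).2.2.2.2.1
  have hFc : ∀ m, Continuous (F m) := fun m => (hgood m).1
  have hFu : ∀ m, ∀ x ∈ X, ∃! z, F m z = x := fun m => (hgood m).2.2.1
  have he0 : ∀ m, 0 < e m := fun m => (hgood m).2.2.2.2.1
  have he1 : ∀ m, e m ≤ 1 := fun m => (hgood m).2.2.2.2.2.1
  have hFm : ∀ m, ∀ u ∈ Metric.closedBall (0 : Fin n → ℝ) R',
      ∀ v ∈ Metric.closedBall (0 : Fin n → ℝ) R', dist u v ≤ 16 * e m →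
        dist (F m u) (F m v) ≤ (1 / 2) ^ m := fun m => (hgood m).2.2.2.2.2.2
  have hepow : ∀ m i, e (m + i) ≤ e m * (1 / 2) ^ i := by
    intro m i
    induction i with
    | zero => simp
    | succ i ih =>
      have := hes (m + i)
      rw [← add_assoc, pow_succ]
      linarith
  have het : Tendsto e atTop (𝓝 0) := by
    have h1 : Tendsto (fun i : ℕ => e 0 * (1 / 2 : ℝ) ^ i) atTop (𝓝 (e 0 * 0)) :=
      (tendsto_pow_atTop_nhds_zero_of_lt_one (by norm_num) (by norm_num)).const_mul _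
    rw [mul_zero] at h1
    refine squeeze_zero (fun m => (he0 m).le) (fun m => ?_) h1
    have := hepow 0 m
    rwa [zero_add] at this
  -- the threads
  have ht : ∀ (m : ℕ) (x : X), ∃ z, F m z = x := fun m x => (hFu m x x.2).exists
  choose t ht using ht
  have ht0 : ∀ x, t 0 x = x := fun x => ht 0 x
  have htu : ∀ m (x : X) z, F m z = x → z = t m x := fun m x z hz =>
    (hFu m x x.2).unique hz (ht m x)
  have htC : ∀ m x, C m (t (m + 1) x) = t m x := by
    intro m x
    apply htu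
    rw [← hFs]
    exact ht (m + 1) x
  have htd : ∀ m i x, dist (t (m + i) x) (t (m + (i + 1)) x) ≤ 8 * e m * (1 / 2) ^ i := by
    intro m i x
    have h1 := hCd (m + i) (t (m + (i + 1)) x)
    rw [← add_assoc, htC] at h1
    rw [← add_assoc]
    have h2 := hepow m i
    calc _ ≤ 8 * e (m + i) := h1
      _ ≤ 8 * (e m * (1 / 2) ^ i) := by gcongr
      _ = _ := by ring
  have hlim : ∀ x, ∃ w, Tendsto (fun m => t m x) atTop (𝓝 w) := by
    intro x
    have h1 := fun i => htd 0 i x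
    simp only [zero_add] at h1
    exact cauchySeq_tendsto_of_complete (cauchySeq_of_le_geometric (1 / 2) (8 * e 0) (by norm_num) h1)
  choose f hf using hlim
  have hfd : ∀ m x, dist (t m x) (f x) ≤ 16 * e m := by
    intro m x
    have hfl : Tendsto (fun j => t (m + j) x) atTop (𝓝 (f x)) := by
      have := (tendsto_add_atTop_iff_nat m).mpr (hf x)
      simpa [add_comm] using this
    have h1 := dist_le_of_le_geometric_of_tendsto₀ (1 / 2) (8 * e m) (by norm_num)
      (fun i => htd m i x) hfl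
    rw [add_zero] at h1
    refine h1.trans (le_of_eq ?_)
    norm_num
    ring
  have he0v : e 0 = 1 / 16 := rfl
  have hfR : ∀ x, f x ∈ Metric.closedBall (0 : Fin n → ℝ) (|R| + 1) := by
    intro x
    rw [Metric.mem_closedBall]
    have h1 := hfd 0 x
    rw [ht0, he0v] at h1
    have h2 := Metric.mem_closedBall.mp (hXR x.2)
    have h3 := dist_triangle (f x) x 0
    rw [dist_comm (f x) (x : Fin n → ℝ)] at h3
    linarith
  have htR : ∀ m x, t m x ∈ Metric.closedBall (0 : Fin n → ℝ) R' := by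
    intro m x
    rw [Metric.mem_closedBall]
    have h1 := hfd m x
    have h2 := Metric.mem_closedBall.mp (hfR x)
    have h3 := dist_triangle (t m x) (f x) 0
    have h4 : e m ≤ e 0 := by
      have h5 := hepow 0 m
      rw [zero_add] at h5
      have h6 : ((1 : ℝ) / 2) ^ m ≤ 1 := pow_le_one₀ (by norm_num) (by norm_num)
      have := he0 0
      nlinarith
    rw [he0v] at h4
    rw [hR']
    linarith
  have hfR' : ∀ x, f x ∈ Metric.closedBall (0 : Fin n → ℝ) R' := fun x =>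
    Metric.closedBall_subset_closedBall (by rw [hR']; linarith) (hfR x)
  -- continuity
  have htc : ∀ m, Continuous (t m) := fun m =>
    (isEmbedding_of_unique_lift (hFc m) (htR m) (ht m) (htu m)).continuous
  have hfc : Continuous f := by
    have hU : TendstoUniformly t f atTop := by
      rw [Metric.tendstoUniformly_iff]
      intro δ hδ
      have h16 : Tendsto (fun m => 16 * e m) atTop (𝓝 0) := by
        have := het.const_mul 16
        rwa [mul_zero] at this
      filter_upwards [h16.eventually (gt_mem_nhds hδ)] with m hm x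
      rw [dist_comm]
      exact (hfd m x).trans_lt hm
    exact hU.continuous (Frequently.of_forall fun m => htc m)
  have hback : ∀ m x, dist (F m (f x)) x ≤ (1 / 2) ^ m := by
    intro m x
    have h1 := hFm m (f x) (hfR' x) (t m x) (htR m x) (by rw [dist_comm]; exact hfd m x)
    rwa [ht] at h1
  have hfe : Topology.IsEmbedding f := by
    apply Topology.IsInducing.isEmbedding
    rw [Topology.isInducing_iff_nhds]
    intro x₀
    apply le_antisymm
    · exact tendsto_iff_comap.mp (hfc.tendsto x₀)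
    · rw [((Metric.nhds_basis_ball (x := f x₀)).comap f).le_basis_iff Metric.nhds_basis_ball]
      intro ε hε
      obtain ⟨m, hm⟩ := exists_pow_lt_of_lt_one (by positivity : 0 < ε / 3)
        (by norm_num : (1 / 2 : ℝ) < 1)
      obtain ⟨δ, hδ, hδF⟩ := Metric.continuous_iff.mp (hFc m) (f x₀) (ε / 3) (by positivity)
      refine ⟨δ, hδ, fun x hx => ?_⟩
      have h1 := hδF (f x) hx
      have h2 := hback m x
      have h3 := hback m x₀
      rw [Metric.mem_ball]
      have h4 := dist_triangle4 (x : Fin n → ℝ) (F m (f x)) (F m (f x₀)) x₀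
      rw [dist_comm (x : Fin n → ℝ) (F m (f x))] at h4
      calc dist x x₀ = dist (x : Fin n → ℝ) x₀ := rfl
        _ < ε := by linarith
  refine ⟨closure (range f), f, ?_, ?_, hfe, fun x => subset_closure (mem_range_self x)⟩
  · exact (isCompact_closedBall (0 : Fin n → ℝ) R').of_isClosed_subset isClosed_closure
      (closure_minimal (by rintro _ ⟨x, rfl⟩; exact hfR' x) Metric.isClosed_closedBall)
  · refine dimH_thin_le he0 he1 hk het (R := R') (by positivity)
      (closure_minimal (by rintro _ ⟨x, rfl⟩; exact hfR' x) Metric.isClosed_closedBall) ?_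
    intro m z hz
    have hpos : 0 < kp e m * e m := mul_pos (kp_pos he0 m) (he0 m)
    obtain ⟨_, ⟨x, rfl⟩, hx⟩ := Metric.mem_closure_iff.mp hz (kp e m * e m / 4) (by positivity)
    have hX1 : F (m + 1) (t (m + 1) x) ∈ X := by
      have h5 : F (m + 1) (t (m + 1) x) = x := ht (m + 1) x
      rw [h5]; exact x.2
    refine ⟨t (m + 1) x, ?_, haa m _ hX1⟩
    have h1 := hfd (m + 1) x
    have h2 := he64 m
    have h3 : kp e m * e m = e m ^ m / 4 * e m := rfl
    have h4 := dist_triangle z (f x) (t (m + 1) x)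
    rw [dist_comm (f x)] at h4
    linarith

end Pool.Agent.MCP
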