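import Mathlib
import Pool.Agent.MCP.Iter

/-!
# The characterisation in Euclidean space
-/

set_option autoImplicit false

open Set Filter Topology MeasureTheory
open scoped ENNReal NNReal

namespace Pool.Agent.MCP

variable {n : ℕ}

theorem atn_isOpenEmbedding : Topology.IsOpenEmbedding (atn (n := n)) := by
  refine ⟨atn_isEmbedding, ?_⟩
  have h : range (atn (n := n)) = Set.pi univ fun _ => Ioo (-(Real.pi / 2)) (Real.pi / 2) := by
    ext y
    constructor
    · rintro ⟨x, rfl⟩ i _
      exact ⟨Real.neg_pi_div_two_lt_arctan _, Real.arctan_lt_pi_div_two _⟩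
    · intro hy
      refine ⟨(EuclideanSpace.equiv (Fin n) ℝ).symm (fun i => Real.tan (y i)), ?_⟩
      funext i
      have := hy i (mem_univ i)
      show Real.arctan (Real.tan (y i)) = y i
      exact Real.arctan_tan this.1 this.2
  rw [h]
  exact isOpen_set_pi finite_univ fun _ _ => isOpen_Ioo

/-- The property of path connected complements passes to the bounded model. -/
theorem LPc.atn_image {X : Set (EuclideanSpace ℝ (Fin n))} (hX : LPc X) : LPc (atn '' X) := by
  apply lpc_of_closed (R := (range (atn (n := n)))ᶜ) atn_isOpenEmbedding.isOpen_range.isClosed_compl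
  · rw [Set.disjoint_left]
    rintro z hz ⟨x, _, rfl⟩
    exact hz (mem_range_self x)
  intro U hU hUc hUR
  have hUr : U ⊆ range (atn (n := n)) := by
    intro z hz
    by_contra hcon
    exact Set.disjoint_left.mp hUR hz hcon
  have h1 : IsConnected (atn ⁻¹' U) :=
    hUc.preimage_of_isOpenMap atn_isOpenEmbedding.injective atn_isOpenEmbedding.isOpenMap hUr
  have h2 := (hX _ (hU.preimage atn_isOpenEmbedding.continuous) h1).image
    atn_isOpenEmbedding.continuous
  have h3 : atn '' (atn ⁻¹' U \ X) = U \ atn '' X := by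
    rw [image_sdiff atn_isOpenEmbedding.injective, image_preimage_eq_inter_range,
      inter_eq_left.mpr hUr]
  rwa [h3] at h2

/-- Sets with path connected complement in every region embed in compacta of dimension
at most `n - 2`. -/
theorem exists_embedding_lp' (hn : 4 ≤ n) {X : Set (EuclideanSpace ℝ (Fin n))} (hX : LPc X) :
    ∃ (K : Set (EuclideanSpace ℝ (Fin n))) (f : X → EuclideanSpace ℝ (Fin n)), IsCompact K ∧
      dimH K ≤ ((n - 2 : ℕ) : ℝ≥0∞) ∧ Topology.IsEmbedding f ∧ ∀ x, f x ∈ K := by
  set e := EuclideanSpace.equiv (Fin n) ℝ with he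
  obtain ⟨K, f, hK, hKd, hf, hfK⟩ := exists_embedding_lp hn (X := atn '' X) (R := 2) (by
    rintro _ ⟨x, _, rfl⟩
    exact mem_closedBall_zero_iff.mpr (norm_atn_le x)) hX.atn_image
  have hg : Topology.IsEmbedding (fun x : X => (⟨atn x.1, mem_image_of_mem _ x.2⟩ : atn '' X)) := by
    refine Topology.IsEmbedding.of_comp ?_ continuous_subtype_val ?_
    · exact (atn_lip.continuous.comp continuous_subtype_val).subtype_mk _
    · exact atn_isEmbedding.comp Topology.IsEmbedding.subtypeVal
  refine ⟨e.symm '' K, fun x => e.symm (f ⟨atn x.1, mem_image_of_mem _ x.2⟩),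
    hK.image e.symm.continuous, ?_, ?_, fun x => mem_image_of_mem _ (hfK _)⟩
  · rw [ContinuousLinearEquiv.dimH_image]
    exact hKd
  · exact e.symm.toHomeomorph.isEmbedding.comp (hf.comp hg)

theorem indLE_of_dimH_le (hn : 4 ≤ n) {K : Set (EuclideanSpace ℝ (Fin n))}
    (hK : dimH K ≤ ((n - 2 : ℕ) : ℝ≥0∞)) : IndLE ((n : ℤ) - 2) K := by
  have h1 : dimH K < ((n - 1 : ℕ) : NNReal) := by
    refine lt_of_le_of_lt hK ?_
    have : n - 2 < n - 1 := by omega
    exact_mod_cast this
  have h2 := hausdorffMeasure_of_dimH_lt h1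
  have h3 := indLE_of_hausdorffMeasure_zero (n - 1) (A := K) (by exact_mod_cast h2)
  have h4 : (((n - 1 : ℕ) : ℤ) - 1) = (n : ℤ) - 2 := by
    rw [Nat.cast_sub (by omega)]; push_cast; ring
  rwa [h4] at h3

/-- Compact sets of dimension at most `n - 2` have path connected complement in every region. -/
theorem lpc_of_indLE (hn : 4 ≤ n) {K : Set (EuclideanSpace ℝ (Fin n))} (hK : IsCompact K)
    (hKi : IndLE ((n : ℤ) - 2) K) : LPc K := by
  have hcov : CovLE (n - 1) K := by
    apply CovLE.of_indLE _ hK
    have : (((n - 1 : ℕ) : ℤ) - 1) = (n : ℤ) - 2 := by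
      rw [Nat.cast_sub (by omega)]; push_cast; ring
    rw [this]
    exact hKi
  intro U hU hUc
  exact isPathConnected_diff (by omega) hK.isClosed hcov hU hUc

end Pool.Agent.MCP
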